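import Pool.Agent.H19.RWE.Cls
import Pool.Agent.H33.VW.Boxf
import Pool.Agent.H83.VG.Cls

/-!
# The row of a target over followers: the class theorem in a box

`FBox.lev`: the levels. `row_box`: `rwe_cls` in a box `FBox`, on parts of large events, with the record
of the part few bits given a rational record of the event.
-/

set_option autoImplicit false

namespace Pool.RWE19

open Finset Real MvPolynomial
open Pool.Agent.H49.Ent Pool.Agent.H32.Dense Pool.STK Pool.KA Pool.KSAT Pool.K2S Pool.PB Pool.GEN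
open Pool.S6C Pool.RCD Pool.LA91 Pool.AVG96 Pool.OWN68 Pool.V0F
open Pool.V0T (qTg)
open Pool.VW33 (FBox)
open Pool.VG83 (mx_ev bas_ev)

variable {m : ℕ} {S : PCl m} {c : ℕ → Fin m} {k f : ℕ} {sn sp : ℕ → ℝ → ℝ} {G : Set ℝ}
  {al be h b o w u Λ φ e : ℝ} {lam : ℝ → ℝ}

/-- **The levels.** -/
theorem fb_lev (X : FBox S c k f sn sp G al be h b o w u Λ φ e lam) (hΛ : 1 ≤ Λ)
    (hφ : 10 * φ ≤ u) : ∀ l ≤ k + f, Λ * u ≤ sn l w ∧ sn l w + Λ * u ≤ 1 ∧
      sn l w + (o - w) + Λ * u ≤ 1 + 2 * φ := by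
  intro l hl
  have hu := X.u0
  have hbw := X.bw
  have hwo := X.wo
  have hφ0 := X.lad.φ0
  have hΛu : u ≤ Λ * u := le_mul_of_one_le_left hu.le hΛ
  obtain ⟨r1, r2⟩ := X.room l hl
  have hb : b ≤ w := by linarith
  have ho : w ≤ o := by linarith
  rcases Nat.lt_or_ge l k with h1 | h1
  · have Lb := X.lad.lad
    have a1 := abs_le.1 (Lb.flat h1 X.wG Lb.bG hb ho le_rfl Lb.bo)
    have a2 := abs_le.1 (Lb.flat h1 X.wG Lb.oG hb ho Lb.bo le_rfl)
    refine ⟨by linarith, by linarith, by linarith⟩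
  · have a1 := X.lad.st l h1 hl b X.lad.bG w X.wG le_rfl hb ho
    have a2 := X.lad.st l h1 hl w X.wG o X.lad.oG hb ho le_rfl
    refine ⟨by linarith, by linarith, by linarith⟩

/-- The near digits. -/
noncomputable def PaE (k f : ℕ) (sn : ℕ → ℝ → ℝ) (w s₀ s₁ : ℝ) (t : ℕ) : ℝ :=
  if t < f then sn (k + t) w + s₀ else sn (k + t) w + s₁

/-- The far digits. -/
noncomputable def PwE (k : ℕ) (sn : ℕ → ℝ → ℝ) (w s₂ : ℝ) (t : ℕ) : ℝ := sn (k + t) w + s₂

/-- The digits of the slope-one places. -/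
noncomputable def nVr (sn : ℕ → ℝ → ℝ) (w s₂ Cr φ : ℝ) (l : ℕ) : ℝ :=
  sn l w + s₂ + (3 * Cr + 10) * φ

/-- The precision of the labels. -/
noncomputable def prE (k : ℕ) (sn : ℕ → ℝ → ℝ) (w φ : ℝ) (t : ℕ) : ℝ := sn (k + t) w - φ

/-- **The row over followers**, in a box. `x`: the window of the charts; `s₀`: the near digits of the
followers, `s₁` of the target, `s₂`: the far digits. -/
theorem row_box (X : FBox S c k f sn sp G al be h b o w u Λ φ e lam) (hΛ : 1 ≤ Λ)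
    (hφ : 10 * φ ≤ u) {s₀ s₁ s₂ Cr x : ℝ} {w₁ : ℚ} (hCr : 100 * ((k : ℝ) + f + 2) ^ 2 ≤ Cr)
    (hx : x ∈ G) (hwx : w ≤ x) (hxs : x ≤ w + s₂ + 2 * φ) (hxl : al * (x - w) ≤ s₀ + (Cr - 1) * φ)
    (hs0 : 0 ≤ s₀) (hs02 : s₀ ≤ s₂) (hs1 : 0 ≤ s₁) (hs12 : s₁ ≤ s₂)
    (hs2 : s₂ + 10 * (Cr * φ) ≤ Λ * u) (hw : w ≤ w₁) (hw₁ : (w₁ : ℝ) ≤ 1)
    {π₀ ε : ℝ} (hπ : 0 < π₀) (hε : 0 < ε) : ∃ e₀ : ℝ, 0 < e₀ ∧ ∀ K : ℕ,
    Bas S (fun J F A => ∀ uV uA uB,
      (qJets m c 0 k 0 (fun _ _ => b) (fun l _ => sn l b - φ)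
        (fun l _ => nVr sn w s₂ Cr φ l)).P K e₀ J F A uV →
      (qTg m c k (f + 1) w (prE k sn w φ) (PaE k f sn w s₀ s₁)).P K e₀ J F A uA →
      (qTg m c k (f + 1) w (prE k sn w φ) (PwE k sn w s₂)).P K e₀ J F A uB →
      ∀ B : F.Ω → Prop, Sub B A → π₀ * Pe F.p A ≤ Pe F.p B →
      CH (Pool.Agent.H49.Ent.cond F.p B True) (cR F B w) (cR F A w₁) ≤ ε * J ∧
      ∀ (T₁ T₂ T₃ T₄ T₅ : Type) (U₁ : F.Ω → T₁) (U₂ : F.Ω → T₂) (Vd : F.Ω → T₃) (M : F.Ω → T₄)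
        (Cx : F.Ω → T₅) (e' : ℝ), Cl2 (ptr F J) (vg x J F) B Cx →
      Det (Pool.Agent.H49.Ent.cond F.p B True) U₂ U₁ →
      CH (Pool.Agent.H49.Ent.cond F.p B True) (fun ω => (U₂ ω, (Vd ω, M ω)))
        (fun ω => (uV ω, (Cx ω, F.W ω))) ≤ e' →
      (∀ i : Fin (f + 1), (i : ℕ) < f →
        CH (Pool.Agent.H49.Ent.cond F.p B True) (fun ω => uA ω i) Vd ≤ e') →
      CH (Pool.Agent.H49.Ent.cond F.p B True) (fun ω => uA ω (Fin.last f))
        (fun ω => (U₁ ω, (M ω, ((fun i : Fin f => uB ω i.castSucc), F.W ω)))) ≤ e' →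
      CH (Pool.Agent.H49.Ent.cond F.p B True) U₂ (fun ω => (uB ω, (M ω, F.W ω))) ≤ e' →
      CH (Pool.Agent.H49.Ent.cond F.p B True) U₂
        (fun ω => (U₁ ω, (Vd ω, (M ω, (uV ω, (cR F B w ω, F.W ω)))))) ≤
        ((1 - h) * (s₂ - s₁) * Real.log 2 + φ + ((f : ℝ) + 1) * (Cr * φ) + ε) * J +
          ((f : ℝ) + 4) * e') := by
  have hu := X.u0
  have hφ0 := X.lad.φ0
  have hbw := X.bw
  have hwo := X.wo
  have ho1 := X.o1
  have hk0 : (0 : ℝ) ≤ k := Nat.cast_nonneg k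
  have hf0 : (0 : ℝ) ≤ f := Nat.cast_nonneg f
  have hΛu : u ≤ Λ * u := le_mul_of_one_le_left hu.le hΛ
  have hlev := fb_lev X hΛ hφ
  have Lb := X.lad.lad
  have hkφ : 0 ≤ (k : ℝ) * φ := by positivity
  have hCk : 100 * (k * φ) + 400 * φ ≤ Cr * φ := by
    have : 100 * (k * φ) + 400 * φ = (100 * (k : ℝ) + 400) * φ := by ring
    rw [this]
    refine mul_le_mul_of_nonneg_right (le_trans ?_ hCr) hφ0.le
    nlinarith
  have e3 : (3 * Cr + 10) * φ = 3 * (Cr * φ) + 10 * φ := by ring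
  have e4 : (Cr - 1) * φ = Cr * φ - φ := by ring
  rw [e4] at hxl
  have hbw' : b ≤ w := by linarith
  have hwo' : w ≤ o := by linarith
  have hxo : x ≤ o := by linarith
  have hbx : b ≤ x := by linarith
  obtain ⟨rk, E₁, hrk, hE₁, hatt, hE2⟩ := X.att
  obtain ⟨η', hη'⟩ := X.rn w₁
  have hfx : ∀ i < k, sn i x ≤ sn i w + (x - w) + 2 * φ := fun i hi => by
    have := (abs_le.1 (Lb.flat hi hx X.wG hbx hxo hbw' hwo')).2
    linarith
  have hfb : ∀ i < k, sn i w + b ≤ sn i b + w + 2 * φ ∧ sn i b + w ≤ sn i w + b + 2 * φ :=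
    fun i hi => by
    have := abs_le.1 (Lb.flat hi X.wG Lb.bG hbw' hwo' le_rfl Lb.bo)
    constructor <;> linarith
  have pa : ∀ t, PaE k f sn w s₀ s₁ t ≤ PwE k sn w s₂ t ∧ sn (k + t) w ≤ PaE k f sn w s₀ s₁ t := by
    intro t
    unfold PaE PwE
    split_ifs
    · constructor <;> linarith
    · constructor <;> linarith
  have plast : PaE k f sn w s₀ s₁ f = sn (k + f) w + s₁ := if_neg (lt_irrefl f)
  have wlast : PwE k sn w s₂ f = sn (k + f) w + s₂ := rfl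
  have hraw := X.row (sn (k + f) w + s₁) (sn (k + f) w + s₂) (by
    rw [abs_le]
    constructor <;> linarith) (by
    rw [abs_le]
    constructor <;> linarith) (by linarith)
  have hcls := rwe_cls X.lad X.img (x' := x) (p := fun l => sn l b - φ)
    (n := nVr sn w s₂ Cr φ) (pr := prE k sn w φ) (Pa := PaE k f sn w s₀ s₁)
    (Pw := PwE k sn w s₂) (h := h) (δ := φ) (E := E₁) (rk := rk) hCr X.wG hx hx hbw' hwx le_rfl hxo
    (fun i _ => le_rfl) (fun t _ => le_rfl)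
    (fun i hi => by
      have := hfx i hi
      have := hlev i (by omega)
      unfold nVr
      rw [e3]
      constructor <;> linarith)
    ⟨fun i hi => by
      have := hfb i hi
      unfold nVr
      rw [e3]
      have : 20 * ((k : ℝ) + 1) * φ = 20 * (k * φ) + 20 * φ := by ring
      rw [this]
      linarith, fun i hi l hl => by
      have a1 := hfb i hi
      have a2 := hfb l (hl.trans hi)
      have a3 := hlev l (by omega)
      unfold nVr
      rw [e3]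
      have : 20 * ((k : ℝ) + 1) * φ = 20 * (k * φ) + 20 * φ := by ring
      rw [this]
      linarith⟩
    (fun t ht => ⟨by linarith [(pa t).2, (hlev (k + t) (by omega)).1], (pa t).1⟩)
    (fun t ht => by
      have := hlev (k + t) (by omega)
      unfold PwE
      linarith)
    (fun t ht => by
      unfold PwE
      linarith)
    (fun t ht l hl => by
      have := hlev l (by omega)
      unfold PwE
      linarith)
    (fun t ht => by
      have h1 := (abs_le.1 (X.lin0 (k + t) (by omega) (by omega) x hx hbx hxo)).2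
      unfold PaE
      rw [if_pos ht]
      linarith)
    hrk hE₁ hatt
    (by
      rw [wlast]
      linarith)
    (by
      rw [plast, wlast]
      exact hraw)
    (half_pos hε)
  obtain ⟨κ, hκ, e₀, he₀, H⟩ := hcls
  obtain ⟨κ', hκ', c1, c2⟩ : ∃ κ' : ℝ, 0 < κ' ∧ κ' ≤ κ ∧ κ' ≤ ε :=
    ⟨min κ ε, lt_min hκ hε, min_le_left _ _, min_le_right _ _⟩
  refine ⟨e₀, he₀, fun K => ?_⟩
  refine Bas.mono 0 (((bas_ev (H K) hπ).and (mx_ev X.lad.pos hη' hκ' hπ)).and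
    (pos_bas X.lad.pos)) ?_
  rintro J - F A ⟨⟨H1, H2⟩, hA⟩ uV uA uB hV hA' hB' B hB hm
  have hB0 : 0 < Pe F.p B := lt_of_lt_of_le (mul_pos hπ hA) hm
  have hJ0 : (0 : ℝ) ≤ J := Nat.cast_nonneg J
  have hzm := H2 B hB hm
  have rw' := mx_cR hB0 w hκ.le
  refine ⟨(mx_before hzm hw hw₁ rw'.1).trans (mul_le_mul_of_nonneg_right c2 hJ0), ?_⟩
  intro T₁ T₂ T₃ T₄ T₅ U₁ U₂ Vd M Cx e' h1 h2 h3 h4 h5 h6
  have key := H1 B hB hm _ (cR F B w) rw' uV uA uB ((qJets m c 0 k 0 _ _ _).sub hB hV)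
    ((qTg m c k (f + 1) w _ _).sub hB hA') ((qTg m c k (f + 1) w _ _).sub hB hB') T₁ T₂ T₃ T₄ T₅
    U₁ U₂ Vd M Cx e' h1 h2 h3 h4 h5 h6
  rw [plast, wlast] at key
  have e5 : sn (k + f) w + s₂ - (sn (k + f) w + s₁) = s₂ - s₁ := by ring
  rw [e5] at key
  refine key.trans (add_le_add_left (mul_le_mul_of_nonneg_right (by linarith) hJ0) _)

end Pool.RWE19
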