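import Pool.Agent.H19.RWE.Ent
import Pool.Agent.H91.V0T.Rwr

/-!
# The row of a target over followers: class level

`exj_allR`: heights and digits of the positions, for the followers and the target. `rwe_cls`: the row
of any digits `U₂` which are few bits given the digits of the heights to `Pw` and a function `M`, if
`U₂`, the digits `Vd` of the followers and `M` are few bits given the positions of the slope-one
places and a closed function of the window `x`.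
-/

set_option autoImplicit false

namespace Pool.RWE19

open Finset Real MvPolynomial
open Pool.Agent.H49.Ent Pool.Agent.H32.Dense Pool.STK Pool.KA Pool.KSAT Pool.K2S Pool.PB Pool.GEN
open Pool.S6C Pool.RCD Pool.LA91 Pool.AVG96 Pool.OWN68 Pool.V0F
open Pool.UNJ (ceI)
open Pool.V0Q (mn4)
open Pool.V0T (pre pre_of pre_at uni qTg cr_num)
open Pool.V0R (LadR)

variable {m : ℕ} {S : PCl m} {c : ℕ → Fin m} {k f : ℕ} {sn : ℕ → ℝ → ℝ} {G : Set ℝ} {b o φ : ℝ}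
  {w x x' : ℝ} {pr P : ℕ → ℝ} {Cr : ℝ}

/-- **Heights and digits of the positions** given the exact positions of the places before. -/
theorem exj_allR (L : LadR S c k f sn G b o φ) (hCr : 100 * ((k : ℝ) + f + 2) ^ 2 ≤ Cr)
    (hw : w ∈ G) (hpr : ∀ u ≤ f, sn (k + u) w - φ ≤ pr u)
    (hP0 : ∀ u ≤ f, 0 ≤ P u ∧ P u ≤ 1)
    (hPw : ∀ u ≤ f, P u + Cr * φ ≤ sn (k + u) w + (1 - w))
    (hPl : ∀ u ≤ f, ∀ l < k + u, P u + Cr * φ ≤ sn (k + u) w + (1 - sn l w)) {rk E : ℝ}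
    (hrk : rk < 1) (hE : 0 ≤ E)
    (hatt : AttG S ((range (k + f)).image c) (c (k + f)) w (sn (k + f) w) rk E)
    (hPE : P f + E ≤ 1) {ρ : ℝ} (hρ : 0 < ρ) :
    ∃ κ : ℝ, 0 < κ ∧ ∃ e : ℝ, 0 < e ∧ ∀ K : ℕ, Bas S (fun J F A => ∀ i < f + 1,
      ∀ (V : Type) (z : F.Ω → V), Mx (fun J F => ptr F J) (vg w) κ F A z → ∀ v,
      (qJet m ((range (k + i)).image c) (c (k + i)) 0 w (pr i) (P i)).P K e J F A v →
      CH (Pool.Agent.H49.Ent.cond F.p A True) v (fun ω => (F.X ⌊P i * J⌋₊ ω (c (k + i)),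
        (ceI ((range (k + i)).image c) (fun _ => J) (F.x ω), (z ω, F.W ω)))) ≤ ρ * J ∧
      CH (Pool.Agent.H49.Ent.cond F.p A True) (fun ω => F.X ⌊P i * J⌋₊ ω (c (k + i))) (fun ω =>
        (v ω, (ceI ((range (k + i)).image c) (fun _ => J) (F.x ω), (z ω, F.W ω)))) ≤
          ρ * J) := by
  have hφ := L.φ0
  obtain ⟨hC, -⟩ := cr_num hφ hCr
  have hk0 : 0 ≤ (k : ℝ) * φ := by positivity
  have hf0 : 0 ≤ (f : ℝ) * φ := by positivity
  refine uni (Φ := fun i κ e K J F A => ∀ (V : Type) (z : F.Ω → V),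
      Mx (fun J F => ptr F J) (vg w) κ F A z → ∀ v,
      (qJet m ((range (k + i)).image c) (c (k + i)) 0 w (pr i) (P i)).P K e J F A v →
      CH (Pool.Agent.H49.Ent.cond F.p A True) v (fun ω => (F.X ⌊P i * J⌋₊ ω (c (k + i)),
        (ceI ((range (k + i)).image c) (fun _ => J) (F.x ω), (z ω, F.W ω)))) ≤ ρ * J ∧
      CH (Pool.Agent.H49.Ent.cond F.p A True) (fun ω => F.X ⌊P i * J⌋₊ ω (c (k + i))) (fun ω =>
        (v ω, (ceI ((range (k + i)).image c) (fun _ => J) (F.x ω), (z ω, F.W ω)))) ≤ ρ * J)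
    (f + 1) (fun i hi => ?_) fun i _ κ κ' e e' K J F A hκ he H V z hz v hv =>
      H V z (Mx.le' hκ hz) v ((qJet m _ _ _ _ _ _).mono le_rfl he hv)
  have hif : i ≤ f := by omega
  have e1 : 20 * (((k + f : ℕ) : ℝ) + 1) * φ = 20 * (k * φ) + 20 * (f * φ) + 20 * φ := by
    push_cast
    ring
  have t0 : P i + 20 * (((k + f : ℕ) : ℝ) + 1) * φ ≤ sn (k + i) w + (1 - w) := by
    rw [e1]
    linarith [hPw i hif]
  have t1 : ∀ l < k + i, P i + 20 * (((k + f : ℕ) : ℝ) + 1) * φ ≤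
      sn (k + i) w + (1 - sn l w) := fun l hl => by
    rw [e1]
    linarith [hPl i hif l hl]
  rcases Nat.lt_or_ge i f with h1 | h1
  · exact exj_base (L.one hw) (i := k + i) (w := w) (pr := pr i) (N := P i) (by omega)
      (Set.mem_singleton w) (hpr i hif) (hP0 i hif).1 (hP0 i hif).2 t0 t1 ρ hρ
  · obtain rfl : i = f := by omega
    exact exj (L.one hw) (i := k + i) (w := w) (pr := pr i) (N := P i) le_rfl
      (Set.mem_singleton w) hrk hE hatt (hpr i hif) (hP0 i hif).1 hPE t0 t1 ρ hρ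

/-- **The row over followers**, class level. `Pa`: near digits, `Pw`: far digits of the heights of
the followers and of the target. -/
theorem rwe_cls (L : LadR S c k f sn G b o φ) (hI : (range (k + f)).image c = univ.erase (c (k + f)))
    {p n Pa Pw : ℕ → ℝ} {h δ rk E : ℝ} (hCr : 100 * ((k : ℝ) + f + 2) ^ 2 ≤ Cr) (hw : w ∈ G)
    (hx : x ∈ G) (hx' : x' ∈ G) (hbw : b ≤ w) (hwx : w ≤ x) (hxx : x ≤ x') (hxo : x' ≤ o)
    (hp : ∀ i < k, sn i b - φ ≤ p i) (hpr : ∀ u ≤ f, sn (k + u) w - φ ≤ pr u)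
    (hn : ∀ i < k, sn i x' ≤ n i ∧ n i ≤ 1) (tp : Tp k sn b φ n)
    (hPa : ∀ u ≤ f, 0 ≤ Pa u ∧ Pa u ≤ Pw u) (hPw1 : ∀ u ≤ f, Pw u ≤ 1)
    (hPww : ∀ u ≤ f, Pw u + Cr * φ ≤ sn (k + u) w + (1 - w))
    (hPl : ∀ u ≤ f, ∀ l < k + u, Pw u + Cr * φ ≤ sn (k + u) w + (1 - sn l w))
    (hPn : ∀ u < f, sn (k + u) x ≤ Pa u + Cr * φ) (hrk : rk < 1) (hE : 0 ≤ E)
    (hatt : AttG S ((range (k + f)).image c) (c (k + f)) w (sn (k + f) w) rk E)
    (hPE : Pw f + E ≤ 1)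
    (hraw : RawN S (univ.erase (c (k + f))) (c (k + f)) (Pa f) (Pw f - Pa f) h δ) {ε : ℝ}
    (hε : 0 < ε) :
    ∃ κ : ℝ, 0 < κ ∧ ∃ e₀ : ℝ, 0 < e₀ ∧ ∀ K : ℕ, Bas S (fun J F A =>
      ∀ (V : Type) (z : F.Ω → V), Mx (fun J F => ptr F J) (vg w) κ F A z → ∀ u uA uB,
      (qJets m c 0 k 0 (fun _ _ => b) (fun l _ => p l) (fun l _ => n l)).P K e₀ J F A u →
      (qTg m c k (f + 1) w pr Pa).P K e₀ J F A uA → (qTg m c k (f + 1) w pr Pw).P K e₀ J F A uB →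
      ∀ (T₁ T₂ T₃ T₄ T₅ : Type) (U₁ : F.Ω → T₁) (U₂ : F.Ω → T₂) (Vd : F.Ω → T₃) (M : F.Ω → T₄)
        (Cx : F.Ω → T₅) (e : ℝ), Cl2 (ptr F J) (vg x J F) A Cx →
      Det (Pool.Agent.H49.Ent.cond F.p A True) U₂ U₁ →
      CH (Pool.Agent.H49.Ent.cond F.p A True) (fun ω => (U₂ ω, (Vd ω, M ω)))
        (fun ω => (u ω, (Cx ω, F.W ω))) ≤ e →
      (∀ i : Fin (f + 1), (i : ℕ) < f →
        CH (Pool.Agent.H49.Ent.cond F.p A True) (fun ω => uA ω i) Vd ≤ e) →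
      CH (Pool.Agent.H49.Ent.cond F.p A True) (fun ω => uA ω (Fin.last f))
        (fun ω => (U₁ ω, (M ω, ((fun i : Fin f => uB ω i.castSucc), F.W ω)))) ≤ e →
      CH (Pool.Agent.H49.Ent.cond F.p A True) U₂ (fun ω => (uB ω, (M ω, F.W ω))) ≤ e →
      CH (Pool.Agent.H49.Ent.cond F.p A True) U₂
        (fun ω => (U₁ ω, (Vd ω, (M ω, (u ω, (z ω, F.W ω)))))) ≤
        ((1 - h) * (Pw f - Pa f) * Real.log 2 + δ + ((f : ℝ) + 1) * (Cr * φ) + ε) * J +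
          ((f : ℝ) + 4) * e) := by
  have hφ := L.φ0
  obtain ⟨hC1, hC2⟩ := cr_num hφ hCr
  have hk0 : (0 : ℝ) ≤ k := Nat.cast_nonneg k
  have hf0 : (0 : ℝ) ≤ f := Nat.cast_nonneg f
  have hkφ : 0 ≤ (k : ℝ) * φ := by positivity
  have hfφ : 0 ≤ (f : ℝ) * φ := by positivity
  have hx'1 : x' ≤ 1 := (hxo.trans_lt L.o1).le
  have hxo' : x ≤ o := hxx.trans hxo
  have hx1' : x ≤ 1 := hxx.trans hx'1
  have hwx' : w ≤ x' := hwx.trans hxx
  have hbx : b ≤ x := hbw.trans hwx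
  have hbx' : b ≤ x' := hbw.trans hwx'
  have hw1 : w ≤ 1 := hwx'.trans hx'1
  have hl2 : 0 < Real.log 2 := Real.log_pos one_lt_two
  have hl1 : Real.log 2 ≤ 1 := by
    have := Real.log_two_lt_d9
    linarith
  obtain ⟨ρ, hρ⟩ : ∃ ρ : ℝ, ρ = ε / (16 * ((f : ℝ) + 1)) := ⟨_, rfl⟩
  have hρ0 : 0 < ρ := by rw [hρ]; positivity
  have hρε : 16 * ((f : ℝ) + 1) * ρ = ε := by rw [hρ]; field_simp
  -- the slope-one places
  obtain ⟨k₁, hk₁, e₁, he₁, H₁⟩ := fux L.lad hx' hbx' hxo hp hn tp ρ hρ0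
  -- heights and digits of the positions
  obtain ⟨γ₁, hγ₁, d₁, hd₁, D₁⟩ := exj_allR (P := Pa) L hCr hw hpr
    (fun u hu => ⟨(hPa u hu).1, (hPa u hu).2.trans (hPw1 u hu)⟩)
    (fun u hu => by linarith [hPww u hu, (hPa u hu).2])
    (fun u hu l hl => by linarith [hPl u hu l hl, (hPa u hu).2]) hrk hE hatt
    (by linarith [(hPa f le_rfl).2]) hρ0
  obtain ⟨γ₂, hγ₂, d₂, hd₂, D₂⟩ := exj_allR (P := Pw) L hCr hw hpr
    (fun u hu => ⟨(hPa u hu).1.trans (hPa u hu).2, hPw1 u hu⟩) hPww hPl hrk hE hatt hPE hρ0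
  obtain ⟨u₁', rd, -, hch⟩ := L.ch.ch x hx
  -- the constants
  obtain ⟨κ, hκ, hκρ, hκ1, hκ2, -⟩ := mn4 hρ0 hγ₁ hγ₂ hρ0
  obtain ⟨e₀, he₀, n1, n2, n3, -⟩ := mn4 he₁ hd₁ hd₂ he₁
  obtain ⟨J₁, hJ₁⟩ := exists_nat_ge (2 / ρ)
  refine ⟨κ, hκ, e₀, he₀, fun K => Bas.mono J₁
    (((H₁ K).and ((D₁ K).and (D₂ K))).and
    (((hch.ful ρ hρ0).and (hraw 0 le_rfl (by linarith [(hPa f le_rfl).2]))).and
      (pos_bas L.pos))) ?_⟩
  rintro J hJ F A ⟨⟨H₁, D₁, D₂⟩, ⟨hful, hraw⟩, hA⟩ V z hz u uA uB hu huA huB T₁ T₂ T₃ T₄ T₅ U₁ U₂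
    Vd M Cx e hCx hU12 hpf hVA hUA hUB
  have hJ0 : (0 : ℝ) ≤ J := Nat.cast_nonneg J
  have hJ1 : (J₁ : ℝ) ≤ J := by exact_mod_cast hJ
  have hJ2 : 2 ≤ ρ * J := by
    have := hJ₁.trans hJ1
    rw [div_le_iff₀ hρ0] at this
    linarith
  obtain ⟨V', z', hz', hfin⟩ := mx_fin (fun J F => ptr F J) (vg x') F hA
  obtain ⟨Vx, zx, hzx, hfinx⟩ := mx_fin (fun J F => ptr F J) (vg x) F hA
  obtain ⟨Vb, zb, hzb, -⟩ := mx_fin (fun J F => ptr F J) (vg b) F hA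
  -- the heights
  have PA : ∀ i (hi : i < f + 1), (qJet m ((range (k + i)).image c) (c (k + i)) 0 w (pr i)
      (Pa i)).P K e₀ J F A (fun ω => uA ω ⟨i, hi⟩) := fun i hi => huA ⟨i, hi⟩
  have PB : ∀ i (hi : i < f + 1), (qJet m ((range (k + i)).image c) (c (k + i)) 0 w (pr i)
      (Pw i)).P K e₀ J F A (fun ω => uB ω ⟨i, hi⟩) := fun i hi => huB ⟨i, hi⟩
  -- the inputs
  have i1 := H₁ V' z' (hz' k₁ hk₁.le) u ((qJets m c 0 k 0 _ _ _).mono le_rfl n1 hu)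
  have i2 := i1.2.1 Vb zb (hzb k₁ hk₁.le)
  have i3 := i1.2.2 Vb zb (hzb k₁ hk₁.le)
  have i1 := i1.1
  have x1 := fun i (hi : i < f + 1) => D₁ i hi V z (Mx.le' hκ1 hz) _
    ((qJet m _ _ _ _ _ _).mono le_rfl n2 (PA i hi))
  have x2 := fun i (hi : i < f + 1) => D₂ i hi V z (Mx.le' hκ2 hz) _
    ((qJet m _ _ _ _ _ _).mono le_rfl n3 (PB i hi))
  obtain ⟨⟨χ₁, hχ₁⟩, χ₂, hχ₂⟩ := (hzx 0 le_rfl).1
  have w1 : ∀ i < f, _ := fun i hi => hful Vx χ₁ χ₂ (fun ω hω => (hχ₁ ω hω).symm.trans (hχ₂ ω hω))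
    (k + i) (Nat.zero_le _) (by omega)
  obtain ⟨q', hq'⟩ : ∃ q' : F.Ω → ℝ, q' = Pool.Agent.H49.Ent.cond F.p A True := ⟨_, rfl⟩
  have hq'l : IsLaw q' := by
    rw [hq']
    exact isLaw_cond F.isLaw hA
  have hq0 := hq'l.nonneg
  have hq'A : ∀ ω, 0 < q' ω → A ω := fun ω hω => by
    rw [hq'] at hω
    exact of_cond_pos hω
  have hzb' : CH q' zb z ≤ ρ * J := by
    rw [hq']
    refine (hz.2 _ _ ((hzb 0 le_rfl).1.mono ⟨fun x => x, fun _ _ => rfl⟩ ?_)).trans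
      (mul_le_mul_of_nonneg_right hκρ hJ0)
    obtain ⟨ψ, hψ⟩ := vg_mono hbw hw1 J F
    exact ⟨ψ, fun ω _ => hψ ω⟩
  have dz' : Det q' z' z := fun ω ω' hω hω' e => by
    refine hfin V z (hz.1.mono ⟨fun x => x, fun _ _ => rfl⟩ ?_) ω ω' (hq'A ω hω) (hq'A ω' hω') e
    obtain ⟨ψ, hψ⟩ := vg_mono hwx' hx'1 J F
    exact ⟨ψ, fun ω _ => hψ ω⟩
  have dzx : Det q' zx z := fun ω ω' hω hω' e => by
    refine hfinx V z (hz.1.mono ⟨fun x => x, fun _ _ => rfl⟩ ?_) ω ω' (hq'A ω hω) (hq'A ω' hω') e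
    obtain ⟨ψ, hψ⟩ := vg_mono hwx hx1' J F
    exact ⟨ψ, fun ω _ => hψ ω⟩
  have dzb : Det q' zx zb := fun ω ω' hω hω' e => by
    refine hfinx Vb zb ((hzb 0 le_rfl).1.mono ⟨fun x => x, fun _ _ => rfl⟩ ?_) ω ω' (hq'A ω hω)
      (hq'A ω' hω') e
    obtain ⟨ψ, hψ⟩ := vg_mono hbx hx1' J F
    exact ⟨ψ, fun ω _ => hψ ω⟩
  have dCx : Det q' zx Cx := fun ω ω' hω hω' e =>
    hfinx T₅ Cx hCx ω ω' (hq'A ω hω) (hq'A ω' hω') e
  have dC' : Det q' z' Cx := fun ω ω' hω hω' e => by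
    refine hfin T₅ Cx (hCx.mono ⟨fun x => x, fun _ _ => rfl⟩ ?_) ω ω' (hq'A ω hω) (hq'A ω' hω') e
    obtain ⟨ψ, hψ⟩ := vg_mono hxx hx'1 J F
    exact ⟨ψ, fun ω _ => hψ ω⟩
  rw [← hq'] at i1 i2 i3 hraw hU12 hpf hUA hUB ⊢
  simp only [← hq'] at x1 x2 w1 hVA
  obtain ⟨X0, hX0⟩ : ∃ X0 : F.Ω → Fin k → ℤ, X0 = fun ω (l : Fin k) => F.X J ω (c l) := ⟨_, rfl⟩
  obtain ⟨X, hX⟩ : ∃ X : ℕ → F.Ω → ℤ, X = fun i ω => F.X J ω (c (k + i)) := ⟨_, rfl⟩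
  rw [← hX0] at i1 i2
  have i3 : CH q' u (fun ω => (X0 ω, (zb ω, F.W ω))) ≤ ρ * J := by
    rw [hX0]
    exact i3
  have hXl : ∀ ω ω' (i : ℕ), X0 ω = X0 ω' → pre X i ω = pre X i ω' → ∀ l < k + i,
      F.X J ω (c l) = F.X J ω' (c l) := by
    intro ω ω' i e e' l hl
    rcases Nat.lt_or_ge l k with h1 | h1
    · rw [hX0] at e
      exact congrFun e ⟨l, h1⟩
    · have h2 := pre_at e' (show l - k < i by omega)
      rw [hX] at h2
      have h3 : k + (l - k) = l := by omega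
      simp only [h3] at h2
      exact h2
  have hc0 : ∀ ω ω' (i : ℕ), X0 ω = X0 ω' → pre X i ω = pre X i ω' →
      ceI ((range (k + i)).image c) (fun _ => J) (F.x ω) =
      ceI ((range (k + i)).image c) (fun _ => J) (F.x ω') := fun ω ω' i e e' =>
    ceI_tup le_rfl (hXl ω ω' i e e')
  have he0 : 0 ≤ e := (CH_nonneg hq0 _ _).trans hUB
  have key := rwe_ent (q := q') hq0 (n := f) (X := X) (U₁ := U₁) (U₂ := U₂) (V := Vd) (M := M)
    (u := u) (X0 := X0) (z := z) (z' := z') (zx := zx) (zb := zb) (W := F.W) (a := ρ * J) (e := e)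
    (dQ := f * (ρ * J) + e + ρ * J + ((1 - h) * (Pw f - Pa f) * Real.log 2 + δ) * J + ρ * J + e)
    (dJ := fun i => e + ρ * J + ((1 - Pa i) * J + 1) * Real.log 2)
    (fl := fun i => (1 - sn (k + i) x - ρ) * Real.log 2 * J) dz' dzx dzb hzb' hU12 i1 i2 i3
    ?_ ?_ ?_ ?_ ?_
  · refine key.trans ?_
    have e1 : 20 * (k : ℝ) ^ 2 * φ * Real.log 2 ≤ Cr * φ := by
      have : 20 * (k : ℝ) ^ 2 * φ * Real.log 2 ≤ 20 * (k : ℝ) ^ 2 * φ * 1 :=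
        mul_le_mul_of_nonneg_left hl1 (by positivity)
      linarith
    have e2 := mul_le_mul_of_nonneg_right e1 hJ0
    have hCφ : 0 ≤ Cr * φ := by linarith
    have hCJ : 0 ≤ Cr * φ * J := mul_nonneg hCφ hJ0
    have hρJ : 0 ≤ ρ * J := by positivity
    have e4 : ∑ i ∈ range f, (e + ρ * J + ((1 - Pa i) * J + 1) * Real.log 2 -
        (1 - sn (k + i) x - ρ) * Real.log 2 * J) ≤
        f * (e + (Cr * φ * J) + 2 * (ρ * J) + Real.log 2) := by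
      have h1 : ∀ i ∈ range f, e + ρ * J + ((1 - Pa i) * J + 1) * Real.log 2 -
          (1 - sn (k + i) x - ρ) * Real.log 2 * J ≤
          e + (Cr * φ * J) + 2 * (ρ * J) + Real.log 2 := by
        intro i hi
        have h2 := hPn i (Finset.mem_range.1 hi)
        have h3 : (sn (k + i) x - Pa i + ρ) * Real.log 2 ≤ Cr * φ + ρ := by
          have h4 : 0 ≤ Cr * φ + ρ := by linarith
          calc (sn (k + i) x - Pa i + ρ) * Real.log 2 ≤ (Cr * φ + ρ) * Real.log 2 :=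
                mul_le_mul_of_nonneg_right (by linarith) hl2.le
            _ ≤ (Cr * φ + ρ) * 1 := mul_le_mul_of_nonneg_left hl1 h4
            _ = _ := mul_one _
        have h5 := mul_le_mul_of_nonneg_right h3 hJ0
        have h6 : e + ρ * J + ((1 - Pa i) * J + 1) * Real.log 2 -
            (1 - sn (k + i) x - ρ) * Real.log 2 * J =
            e + ρ * J + (sn (k + i) x - Pa i + ρ) * Real.log 2 * J + Real.log 2 := by ring
        rw [h6]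
        linarith
      have h2 := Finset.sum_le_sum h1
      rw [Finset.sum_const, card_range, nsmul_eq_mul] at h2
      exact h2
    have e5 : ((∑ i ∈ range k, (1 - n i)) * Real.log 2 * J + ρ * J -
        (((∑ i ∈ range k, (1 - n i)) - 20 * (k : ℝ) ^ 2 * φ) * Real.log 2 * J - ρ * J)) ≤
        Cr * φ * J + 2 * (ρ * J) := by
      linarith
    have e6 : ((1 - h) * (Pw f - Pa f) * Real.log 2 + δ + ((f : ℝ) + 1) * (Cr * φ) + ε) * J +
        ((f : ℝ) + 4) * e = ((1 - h) * (Pw f - Pa f) * Real.log 2 + δ) * J +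
          (f * (Cr * φ * J) + Cr * φ * J) + (16 * (f * (ρ * J)) + 16 * (ρ * J)) +
          (f * e + 4 * e) := by
      rw [← hρε]
      ring
    rw [e6]
    have e7 : f * Real.log 2 ≤ f * (ρ * J) / 2 := by
      have : (f : ℝ) * Real.log 2 ≤ f * (ρ * J / 2) :=
        mul_le_mul_of_nonneg_left (by linarith) hf0
      linarith
    have e9 : 0 ≤ f * (ρ * J) := mul_nonneg hf0 hρJ
    have e11 : f * (e + (Cr * φ * J) + 2 * (ρ * J) + Real.log 2) =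
        f * e + f * (Cr * φ * J) + 2 * (f * (ρ * J)) + f * Real.log 2 := by ring
    rw [e11] at e4
    linarith
  · refine (CH_mono_cond hq0 fun ω ω' hω hω' e => ?_).trans hpf
    simp only [Prod.mk.injEq] at e ⊢
    exact ⟨e.1, dC' ω ω' hω hω' e.2.1, e.2.2⟩
  · refine (CH_mono_cond hq0 fun ω ω' hω hω' e => ?_).trans hpf
    simp only [Prod.mk.injEq] at e ⊢
    exact ⟨e.1, dCx ω ω' hω hω' e.2.1, e.2.2⟩
  · intro i hi
    obtain ⟨Z, hZ⟩ : ∃ Z : F.Ω → T₃ × ((Fin i → ℤ) × ((Fin k → ℤ) × (V × _))), Z = fun ω =>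
      (Vd ω, (pre X i ω, (X0 ω, (z ω, F.W ω)))) := ⟨_, rfl⟩
    rw [← hZ]
    have a1 := CH_le_add hq0 (X i) (fun ω => uA ω ⟨i, by omega⟩) Z
    have a2 : CH q' (fun ω => uA ω ⟨i, by omega⟩) Z ≤ e := (CH_mono_cond hq0 fun ω ω' _ _ h => by
      rw [hZ] at h
      exact (Prod.ext_iff.mp h).1).trans (hVA ⟨i, by omega⟩ hi)
    have a3 := CH_le_add hq0 (X i) (fun ω => F.X ⌊Pa i * J⌋₊ ω (c (k + i)))
      (fun ω => (uA ω ⟨i, by omega⟩, Z ω))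
    have a4 : CH q' (fun ω => F.X ⌊Pa i * J⌋₊ ω (c (k + i)))
        (fun ω => (uA ω ⟨i, by omega⟩, Z ω)) ≤ ρ * J :=
      (CH_mono_cond hq0 fun ω ω' _ _ h => by
        rw [hZ] at h
        simp only [Prod.mk.injEq] at h ⊢
        exact ⟨h.1, hc0 ω ω' i h.2.2.2.1 h.2.2.1, h.2.2.2.2.1, h.2.2.2.2.2⟩).trans
        (x1 i (by omega)).2
    have hQJ : ⌊Pa i * J⌋₊ ≤ J := floor_le ((hPa i hi.le).2.trans (hPw1 i hi.le)) J
    have a5 : CH q' (X i) (fun ω => (F.X ⌊Pa i * J⌋₊ ω (c (k + i)),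
        (uA ω ⟨i, by omega⟩, Z ω))) ≤ ((1 - Pa i) * J + 1) * Real.log 2 := by
      rw [hX]
      refine (X_more hq'l hQJ (c (k + i)) _).trans (mul_le_mul_of_nonneg_right ?_ hl2.le)
      have h2 := (Nat.lt_floor_add_one (Pa i * J)).le
      linarith
    linarith
  · intro i hi
    refine (w1 i hi).trans ?_
    rw [hX]
    refine CH_mono_cond hq0 fun ω ω' hω hω' e => ?_
    simp only [Prod.mk.injEq] at e ⊢
    refine ⟨pre_of fun l hl => congrFun e.1 ⟨k + l, by omega⟩, ?_, ?_, e.2.2⟩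
    · rw [hX0]
      exact funext fun l => congrFun e.1 ⟨l, by omega⟩
    · rw [hχ₂ ω (hq'A ω hω), hχ₂ ω' (hq'A ω' hω')]
      exact e.2.1
  · -- the digits of the target given the exact positions
    obtain ⟨Z, hZ⟩ : ∃ Z : F.Ω → T₁ × (T₄ × ((Fin f → ℤ) × ((Fin k → ℤ) × (V × _)))), Z = fun ω =>
      (U₁ ω, (M ω, (pre X f ω, (X0 ω, (z ω, F.W ω))))) := ⟨_, rfl⟩
    rw [← hZ]
    obtain ⟨B, hB⟩ : ∃ B : F.Ω → Fin f → ℤ, B = fun ω (i : Fin f) => uB ω i.castSucc := ⟨_, rfl⟩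
    have hZX : ∀ ω ω', Z ω = Z ω' → ∀ l < k + f, F.X J ω (c l) = F.X J ω' (c l) :=
      fun ω ω' h l hl => by
        rw [hZ] at h
        simp only [Prod.mk.injEq] at h
        exact hXl ω ω' f h.2.2.2.1 h.2.2.1 l hl
    have hZz : ∀ ω ω', Z ω = Z ω' → z ω = z ω' ∧ F.W ω = F.W ω' ∧ M ω = M ω' ∧ U₁ ω = U₁ ω' :=
      fun ω ω' h => by
        rw [hZ] at h
        simp only [Prod.mk.injEq] at h
        exact ⟨h.2.2.2.2.1, h.2.2.2.2.2, h.2.1, h.1⟩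
    have hZc : ∀ ω ω', Z ω = Z ω' → ∀ i ≤ f,
        ceI ((range (k + i)).image c) (fun _ => J) (F.x ω) =
        ceI ((range (k + i)).image c) (fun _ => J) (F.x ω') := fun ω ω' h i hi =>
      ceI_tup le_rfl fun l hl => hZX ω ω' h l (by omega)
    -- the far digits of the followers
    have a1 : CH q' B Z ≤ f * (ρ * J) := by
      refine (CH_pis hq0 B Z).trans ?_
      have h1 : ∀ i : Fin f, CH q' (fun ω => B ω i) Z ≤ ρ * J := fun i => by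
        refine le_trans ?_ (x2 i (by omega)).1
        rw [hB]
        refine CH_mono_cond hq0 fun ω ω' _ _ h => ?_
        have g1 := hZX ω ω' h (k + i) (by omega)
        have g2 := hZc ω ω' h i i.2.le
        obtain ⟨g3, g4, -, -⟩ := hZz ω ω' h
        simp only [Prod.mk.injEq]
        refine ⟨?_, g2, g3, g4⟩
        have f1 := fX_coarse F (floor_le (hPw1 i i.2.le) J) (c (k + i)) ω
        have f2 := fX_coarse F (floor_le (hPw1 i i.2.le) J) (c (k + i)) ω'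
        rw [g1, ← f2] at f1
        exact f1
      refine (Finset.sum_le_sum fun i _ => h1 i).trans (le_of_eq ?_)
      rw [Finset.sum_const, Finset.card_univ, Fintype.card_fin, nsmul_eq_mul]
    have b1 := CH_le_add hq0 U₂ B Z
    -- the near digits of the target
    obtain ⟨Z₁, hZ₁⟩ : ∃ Z₁ : F.Ω → _, Z₁ = fun ω => (B ω, Z ω) := ⟨_, rfl⟩
    rw [← hZ₁] at b1
    have b2 := CH_le_add hq0 U₂ (fun ω => uA ω (Fin.last f)) Z₁
    have a2 : CH q' (fun ω => uA ω (Fin.last f)) Z₁ ≤ e := (CH_mono_cond hq0 fun ω ω' _ _ h => by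
      rw [hZ₁] at h
      obtain ⟨h1, h2⟩ := Prod.ext_iff.mp h
      obtain ⟨-, g4, g5, g6⟩ := hZz ω ω' h2
      rw [hB] at h1
      simp only [Prod.mk.injEq]
      exact ⟨g6, g5, h1, g4⟩).trans hUA
    obtain ⟨Z₂, hZ₂⟩ : ∃ Z₂ : F.Ω → _, Z₂ = fun ω => (uA ω (Fin.last f), Z₁ ω) := ⟨_, rfl⟩
    rw [← hZ₂] at b2
    have b3 := CH_le_add hq0 U₂ (fun ω => F.X ⌊Pa f * J⌋₊ ω (c (k + f))) Z₂
    have a3 : CH q' (fun ω => F.X ⌊Pa f * J⌋₊ ω (c (k + f))) Z₂ ≤ ρ * J :=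
      (CH_mono_cond hq0 fun ω ω' _ _ h => by
        rw [hZ₂, hZ₁] at h
        obtain ⟨h1, h2⟩ := Prod.ext_iff.mp h
        have h3 := (Prod.ext_iff.mp h2).2
        obtain ⟨g3, g4, -, -⟩ := hZz ω ω' h3
        simp only [Prod.mk.injEq]
        exact ⟨h1, hZc ω ω' h3 f le_rfl, g3, g4⟩).trans (x1 f (by omega)).2
    obtain ⟨Z₃, hZ₃⟩ : ∃ Z₃ : F.Ω → _, Z₃ = fun ω => (F.X ⌊Pa f * J⌋₊ ω (c (k + f)), Z₂ ω) :=
      ⟨_, rfl⟩
    rw [← hZ₃] at b3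
    have b4 := CH_le_add hq0 U₂ (fun ω => F.X ⌊Pw f * J⌋₊ ω (c (k + f))) Z₃
    have a4 : CH q' (fun ω => F.X ⌊Pw f * J⌋₊ ω (c (k + f))) Z₃ ≤
        ((1 - h) * (Pw f - Pa f) * Real.log 2 + δ) * J := by
      have g1 : Pa f + (Pw f - Pa f) = Pw f := by ring
      have g2 : Pw f - Pa f - 0 = Pw f - Pa f := by ring
      rw [g1, g2, add_zero] at hraw
      refine le_trans (CH_mono_cond hq0 fun ω ω' _ _ h => ?_) hraw
      rw [hZ₃, hZ₂, hZ₁] at h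
      obtain ⟨h1, h2⟩ := Prod.ext_iff.mp h
      have h3 := (Prod.ext_iff.mp (Prod.ext_iff.mp h2).2).2
      obtain ⟨-, g4, -, -⟩ := hZz ω ω' h3
      rw [← hI]
      simp only [Prod.mk.injEq]
      exact ⟨h1, hZc ω ω' h3 f le_rfl, g4⟩
    obtain ⟨Z₄, hZ₄⟩ : ∃ Z₄ : F.Ω → _, Z₄ = fun ω => (F.X ⌊Pw f * J⌋₊ ω (c (k + f)), Z₃ ω) :=
      ⟨_, rfl⟩
    rw [← hZ₄] at b4
    have b5 := CH_le_add hq0 U₂ (fun ω => uB ω (Fin.last f)) Z₄
    have a5 : CH q' (fun ω => uB ω (Fin.last f)) Z₄ ≤ ρ * J :=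
      (CH_mono_cond hq0 fun ω ω' _ _ h => by
        rw [hZ₄, hZ₃, hZ₂, hZ₁] at h
        obtain ⟨h1, h2⟩ := Prod.ext_iff.mp h
        have h3 := (Prod.ext_iff.mp (Prod.ext_iff.mp (Prod.ext_iff.mp h2).2).2).2
        obtain ⟨g3, g4, -, -⟩ := hZz ω ω' h3
        simp only [Prod.mk.injEq]
        exact ⟨h1, hZc ω ω' h3 f le_rfl, g3, g4⟩).trans (x2 f (by omega)).1
    have a6 : CH q' U₂ (fun ω => (uB ω (Fin.last f), Z₄ ω)) ≤ e :=
      (CH_mono_cond hq0 fun ω ω' _ _ h => by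
        rw [hZ₄, hZ₃, hZ₂, hZ₁] at h
        obtain ⟨h1, h2⟩ := Prod.ext_iff.mp h
        have h3 := (Prod.ext_iff.mp (Prod.ext_iff.mp (Prod.ext_iff.mp h2).2).2).2
        obtain ⟨h4, h5⟩ := Prod.ext_iff.mp h3
        obtain ⟨-, g4, g5, -⟩ := hZz ω ω' h5
        simp only [Prod.mk.injEq]
        refine ⟨funext fun i => ?_, g5, g4⟩
        refine Fin.lastCases h1 (fun j => ?_) i
        rw [hB] at h4
        exact congrFun h4 j).trans hUB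
    linarith

end Pool.RWE19
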