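import Pool.Agent.H19.RWE.Ent
import Pool.Agent.H71.AVG.Law

/-!
# The row of a target over followers: the digits, in the abstract

`n`: the height of the target, `v`: the heights of the followers, `m`: the gradients, in their units.
`uR`: the target minus the gradients times the fractional parts of the followers. `pf_of`, `ua_of`,
`ub_of`: the inputs of the class theorem. `row_gen`: the row of the target.
-/

set_option autoImplicit false

namespace Pool.RWE19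

open Finset Real
open Pool.Agent.H49.Ent Pool.Agent.H32.Dense Pool.STK Pool.KA Pool.KSAT Pool.K2S Pool.PB Pool.GEN
open Pool.S6C Pool.RCD Pool.LA91 Pool.AVG96 Pool.OWN68 Pool.V0F Pool.AVG71

variable {Ω : Type} [Fintype Ω] {p : Ω → ℝ} {f : ℕ}

/-- The target minus the gradients times the fractional parts. -/
noncomputable def uR (n : Ω → ℝ) (v m : Ω → Fin f → ℝ) (ω : Ω) : ℝ :=
  n ω - ∑ l : Fin f, (⌊m ω l⌋ : ℝ) * Int.fract (v ω l)

/-- Integer parts. -/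
noncomputable def flr (v : Ω → Fin f → ℝ) (ω : Ω) (l : Fin f) : ℤ := ⌊v ω l⌋

/-- Integer parts of near numbers. -/
theorem ch_flr {T : Type} (hp : IsLaw p) (x : Ω → ℝ) (Z : Ω → T) {D : ℝ} (hD : 0 ≤ D)
    (h : ∀ ω ω', 0 < p ω → 0 < p ω' → Z ω = Z ω' → |x ω - x ω'| ≤ D) :
    CH p (fun ω => ⌊x ω⌋) Z ≤ Real.log (2 * (D + 1) + 1) := by
  refine CH_pair_int hp _ Z (by linarith) fun ω ω' hω hω' e => ?_
  have h1 := abs_le.1 (h ω ω' hω hω' e)
  have a1 := Int.floor_le (x ω)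
  have a2 := Int.lt_floor_add_one (x ω)
  have b1 := Int.floor_le (x ω')
  have b2 := Int.lt_floor_add_one (x ω')
  rw [abs_le]
  constructor <;> linarith [h1.1, h1.2]

/-- Vectors of integer parts. -/
theorem ch_flv {T : Type} (hp : IsLaw p) (v : Ω → Fin f → ℝ) (Z : Ω → T) {D : ℝ} (hD : 0 ≤ D)
    (h : ∀ ω ω', 0 < p ω → 0 < p ω' → Z ω = Z ω' → ∀ l, |v ω l - v ω' l| ≤ D) :
    CH p (flr v) Z ≤ f * Real.log (2 * (D + 1) + 1) := by
  refine (CH_pis hp.nonneg (flr v) Z).trans ?_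
  have h1 : ∀ i ∈ (univ : Finset (Fin f)), CH p (fun ω => flr v ω i) Z ≤
      Real.log (2 * (D + 1) + 1) := fun i _ =>
    ch_flr hp (fun ω => v ω i) Z hD fun ω ω' a b e => h ω ω' a b e i
  refine (Finset.sum_le_sum h1).trans (le_of_eq ?_)
  rw [Finset.sum_const, Finset.card_univ, Fintype.card_fin, nsmul_eq_mul]

omit [Fintype Ω] in
/-- Equal integer parts. -/
theorem flr_eq {v : Ω → Fin f → ℝ} {ω ν : Ω} (h : flr v ω = flr v ν) (l : Fin f) :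
    ⌊v ω l⌋ = ⌊v ν l⌋ := congrFun h l

omit [Fintype Ω] in
theorem fl_near {x y : ℝ} (h : ⌊x⌋ = ⌊y⌋) : |x - y| ≤ 1 := by
  have a1 := Int.floor_le x
  have a2 := Int.lt_floor_add_one x
  have b1 := Int.floor_le y
  have b2 := Int.lt_floor_add_one y
  rw [h] at a1 a2
  rw [abs_le]
  constructor <;> linarith

omit [Fintype Ω] in
/-- The difference of the values at two samples with the same integer parts. -/
theorem uR_sub {n : Ω → ℝ} {v m : Ω → Fin f → ℝ} {ω ν : Ω} (hv : flr v ω = flr v ν)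
    (hm : flr m ω = flr m ν) :
    uR n v m ω - uR n v m ν = n ω - n ν - ∑ l : Fin f, (⌊m ω l⌋ : ℝ) * (v ω l - v ν l) := by
  unfold uR
  have e1 : ∀ l : Fin f, (⌊m ω l⌋ : ℝ) * (v ω l - v ν l) =
      (⌊m ω l⌋ : ℝ) * Int.fract (v ω l) - (⌊m ν l⌋ : ℝ) * Int.fract (v ν l) := fun l => by
    have h1 := flr_eq hv l
    have h2 := flr_eq hm l
    have h3 : (⌊v ω l⌋ : ℝ) = ⌊v ν l⌋ := by exact_mod_cast h1
    have h4 : (⌊m ω l⌋ : ℝ) = ⌊m ν l⌋ := by exact_mod_cast h2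
    rw [← Int.self_sub_floor, ← Int.self_sub_floor, ← h3, ← h4]
    ring
  rw [Finset.sum_congr rfl fun l _ => e1 l, Finset.sum_sub_distrib]
  ring

/-- **The digits of the target, the followers and the gradients** given `Z`. -/
theorem pf_of {T : Type} (hp : IsLaw p) {n : Ω → ℝ} {v m : Ω → Fin f → ℝ} (Z : Ω → T) {D : ℝ}
    (hD : 0 ≤ D) (h : ∀ ω ν, 0 < p ω → 0 < p ν → Z ω = Z ν →
      (∀ l, |v ω l - v ν l| ≤ D ∧ |m ω l - m ν l| ≤ D) ∧
        |n ω - n ν - ∑ l : Fin f, m ω l * (v ω l - v ν l)| ≤ D) :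
    CH p (fun ω => (⌊uR n v m ω⌋, (flr v ω, flr m ω))) Z ≤
      (2 * f + 1) * Real.log (2 * (D + f + 1) + 1) := by
  have h0 := hp.nonneg
  have hf : (0 : ℝ) ≤ f := Nat.cast_nonneg f
  have hlog : Real.log (2 * (D + 1) + 1) ≤ Real.log (2 * (D + f + 1) + 1) :=
    Real.log_le_log (by linarith) (by linarith)
  have a1 := CH_chain h0 (fun ω => ⌊uR n v m ω⌋) (fun ω => (flr v ω, flr m ω)) Z
  have a2 := CH_chain h0 (flr v) (flr m) Z
  have a3 := ch_flv hp v (fun ω => (flr m ω, Z ω)) hD fun ω ω' x y e l =>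
    ((h ω ω' x y (Prod.ext_iff.mp e).2).1 l).1
  have a4 := ch_flv hp m Z hD fun ω ω' x y e l => ((h ω ω' x y e).1 l).2
  have a5 := ch_flr hp (uR n v m) (fun ω => ((flr v ω, flr m ω), Z ω)) (D := D + f) (by linarith)
    (fun ω ν x y e => by
      obtain ⟨e1, e2⟩ := Prod.ext_iff.mp e
      obtain ⟨e3, e4⟩ := Prod.ext_iff.mp e1
      rw [uR_sub e3 e4]
      have k1 := abs_le.1 (h ω ν x y e2).2
      have k2 : |∑ l : Fin f, Int.fract (m ω l) * (v ω l - v ν l)| ≤ f := by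
        refine (Finset.abs_sum_le_sum_abs _ _).trans ?_
        have : ∀ l ∈ (univ : Finset (Fin f)), |Int.fract (m ω l) * (v ω l - v ν l)| ≤ 1 := by
          intro l _
          rw [abs_mul, abs_of_nonneg (Int.fract_nonneg _)]
          exact mul_le_one₀ (Int.fract_lt_one _).le (abs_nonneg _) (fl_near (flr_eq e3 l))
        refine (Finset.sum_le_sum this).trans (le_of_eq ?_)
        rw [Finset.sum_const, Finset.card_univ, Fintype.card_fin, nsmul_eq_mul, mul_one]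
      have k3 := abs_le.1 k2
      have k4 : ∑ l : Fin f, (⌊m ω l⌋ : ℝ) * (v ω l - v ν l) = ∑ l : Fin f, m ω l *
          (v ω l - v ν l) - ∑ l : Fin f, Int.fract (m ω l) * (v ω l - v ν l) := by
        rw [← Finset.sum_sub_distrib]
        refine Finset.sum_congr rfl fun l _ => ?_
        rw [← Int.self_sub_floor]
        ring
      rw [k4, abs_le]
      constructor <;> linarith [k1.1, k1.2, k3.1, k3.2])
  have a6 : (2 * (f : ℝ) + 1) * Real.log (2 * (D + f + 1) + 1) = f * Real.log (2 * (D + f + 1) + 1) +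
      f * Real.log (2 * (D + f + 1) + 1) + Real.log (2 * (D + f + 1) + 1) := by ring
  have a7 := mul_le_mul_of_nonneg_left hlog hf
  rw [a6]
  linarith

/-- **The near digits of the target.** -/
theorem ua_of {T : Type} (hp : IsLaw p) {n : Ω → ℝ} {v m : Ω → Fin f → ℝ} (Z : Ω → T) {D R a : ℝ}
    (hD : 0 ≤ D) (hR : 0 ≤ R) (hm : Det p Z (flr m)) (ha : CH p (flr v) Z ≤ a)
    (hv : ∀ ω ν, 0 < p ω → 0 < p ν → Z ω = Z ν → ∀ l, |(⌊m ω l⌋ : ℝ) * (v ω l - v ν l)| ≤ D)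
    (hU : ∀ ω ν, 0 < p ω → 0 < p ν → Z ω = Z ν → |uR n v m ω - uR n v m ν| ≤ R) {t : ℝ}
    (ht : 0 ≤ t) :
    CH p (fun ω => ⌊t * n ω⌋) Z ≤ a + Real.log (2 * (t * (R + f * D) + 1) + 1) := by
  have h0 := hp.nonneg
  have hf : (0 : ℝ) ≤ f := Nat.cast_nonneg f
  have a1 := CH_le_add h0 (fun ω => ⌊t * n ω⌋) (flr v) Z
  have a2 := ch_flr hp (fun ω => t * n ω) (fun ω => (flr v ω, Z ω)) (D := t * (R + f * D))
    (by positivity) (fun ω ν x y e => by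
      obtain ⟨e1, e2⟩ := Prod.ext_iff.mp e
      have k1 := hU ω ν x y e2
      rw [uR_sub e1 (hm ω ν x y e2)] at k1
      have k2 : |∑ l : Fin f, (⌊m ω l⌋ : ℝ) * (v ω l - v ν l)| ≤ f * D := by
        refine (Finset.abs_sum_le_sum_abs _ _).trans ?_
        refine (Finset.sum_le_sum fun l _ => hv ω ν x y e2 l).trans (le_of_eq ?_)
        rw [Finset.sum_const, Finset.card_univ, Fintype.card_fin, nsmul_eq_mul]
      rw [← mul_sub, abs_mul, abs_of_nonneg ht]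
      refine mul_le_mul_of_nonneg_left ?_ ht
      have k3 := abs_le.1 k1
      have k4 := abs_le.1 k2
      rw [abs_le]
      constructor <;> linarith [k3.1, k3.2, k4.1, k4.2])
  linarith

/-- **The digits of the target** given the digits of the heights. -/
theorem ub_of {T : Type} (hp : IsLaw p) {n : Ω → ℝ} {v m : Ω → Fin f → ℝ} (Z : Ω → T) {D R a : ℝ}
    (hD : 0 ≤ D) (hR : 0 ≤ R) (hm : Det p Z (flr m)) (ha : CH p (flr v) Z ≤ a)
    (hv : ∀ ω ν, 0 < p ω → 0 < p ν → Z ω = Z ν → ∀ l, |(⌊m ω l⌋ : ℝ) * (v ω l - v ν l)| ≤ D)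
    (hn : ∀ ω ν, 0 < p ω → 0 < p ν → Z ω = Z ν → |n ω - n ν| ≤ R) :
    CH p (fun ω => ⌊uR n v m ω⌋) Z ≤ a + Real.log (2 * (R + f * D + 1) + 1) := by
  have h0 := hp.nonneg
  have hf : (0 : ℝ) ≤ f := Nat.cast_nonneg f
  have a1 := CH_le_add h0 (fun ω => ⌊uR n v m ω⌋) (flr v) Z
  have a2 := ch_flr hp (uR n v m) (fun ω => (flr v ω, Z ω)) (D := R + f * D)
    (by positivity) (fun ω ν x y e => by
      obtain ⟨e1, e2⟩ := Prod.ext_iff.mp e
      have k1 := hn ω ν x y e2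
      rw [uR_sub e1 (hm ω ν x y e2)]
      have k2 : |∑ l : Fin f, (⌊m ω l⌋ : ℝ) * (v ω l - v ν l)| ≤ f * D := by
        refine (Finset.abs_sum_le_sum_abs _ _).trans ?_
        refine (Finset.sum_le_sum fun l _ => hv ω ν x y e2 l).trans (le_of_eq ?_)
        rw [Finset.sum_const, Finset.card_univ, Fintype.card_fin, nsmul_eq_mul]
      have k3 := abs_le.1 k1
      have k4 := abs_le.1 k2
      rw [abs_le]
      constructor <;> linarith [k3.1, k3.2, k4.1, k4.2])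
  linarith

/-- **The row of the target** from the row of `uR`: `Y`: the condition. -/
theorem row_gen (hp : IsLaw p) {T₁ T₂ T₃ T₄ : Type} {n : Ω → ℝ} {v m : Ω → Fin f → ℝ}
    {S : Ω → Fin f → ℝ} {TV : Ω → ℝ} {X : ℕ} {u : Ω → T₁} {z : Ω → T₂} {W : Ω → T₃} {Y : Ω → T₄}
    {R a av : ℝ}
    (hTV : ∀ ω, 0 < p ω → 2 ^ X * TV ω = n ω - ∑ l : Fin f, m ω l * (v ω l - S ω l))
    (hsm : Det p Y m) (hsS : Det p Y S) (hW : Det p Y W)
    (hv : CH p (flr v) Y ≤ av) (hu : CH p u Y ≤ a) (hz : CH p z Y ≤ a)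
    (key : CH p (fun ω => ⌊uR n v m ω⌋) (fun ω => (⌊uR n v m ω / 2 ^ X⌋, (flr v ω, (flr m ω,
      (u ω, (z ω, W ω)))))) ≤ R) :
    CH p (fun ω => ⌊(2 : ℝ) ^ X * TV ω⌋) (fun ω => (⌊TV ω⌋, Y ω)) ≤
      R + 2 * a + av + 2 * Real.log (2 * (f + 2) + 1) := by
  have h0 := hp.nonneg
  have hf : (0 : ℝ) ≤ f := Nat.cast_nonneg f
  have h2X : (0 : ℝ) < 2 ^ X := by positivity
  have h2X1 : (1 : ℝ) ≤ 2 ^ X := one_le_pow₀ (by norm_num)
  -- two samples with the same side path and integer parts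
  have pr : ∀ ω ν, 0 < p ω → 0 < p ν → Y ω = Y ν → flr v ω = flr v ν →
      |(2 ^ X * TV ω - 2 ^ X * TV ν) - (uR n v m ω - uR n v m ν)| ≤ f := by
    intro ω ν hω hν e1 e3
    have m1 := hsm ω ν hω hν e1
    have s1 := hsS ω ν hω hν e1
    have m2 : flr m ω = flr m ν := by
      funext l
      unfold flr
      rw [m1]
    rw [hTV ω hω, hTV ν hν, uR_sub e3 m2]
    have k1 : n ω - ∑ l : Fin f, m ω l * (v ω l - S ω l) -
        (n ν - ∑ l : Fin f, m ν l * (v ν l - S ν l)) -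
        (n ω - n ν - ∑ l : Fin f, (⌊m ω l⌋ : ℝ) * (v ω l - v ν l)) =
        -∑ l : Fin f, Int.fract (m ω l) * (v ω l - v ν l) := by
      have k2 : ∀ l : Fin f, Int.fract (m ω l) * (v ω l - v ν l) = m ω l * (v ω l - S ω l) -
          m ν l * (v ν l - S ν l) - (⌊m ω l⌋ : ℝ) * (v ω l - v ν l) := fun l => by
        rw [← Int.self_sub_floor, ← m1, ← s1]
        ring
      rw [Finset.sum_congr rfl fun l _ => k2 l, Finset.sum_sub_distrib, Finset.sum_sub_distrib]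
      ring
    rw [k1, abs_neg]
    refine (Finset.abs_sum_le_sum_abs _ _).trans ?_
    have : ∀ l ∈ (univ : Finset (Fin f)), |Int.fract (m ω l) * (v ω l - v ν l)| ≤ 1 := by
      intro l _
      rw [abs_mul, abs_of_nonneg (Int.fract_nonneg _)]
      exact mul_le_one₀ (Int.fract_lt_one _).le (abs_nonneg _) (fl_near (flr_eq e3 l))
    refine (Finset.sum_le_sum this).trans (le_of_eq ?_)
    rw [Finset.sum_const, Finset.card_univ, Fintype.card_fin, nsmul_eq_mul, mul_one]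
  obtain ⟨Z, hZ⟩ : ∃ Z : Ω → ℤ × T₄, Z = fun ω => (⌊TV ω⌋, Y ω) := ⟨_, rfl⟩
  rw [← hZ]
  have hZe : ∀ ω ν, Z ω = Z ν → ⌊TV ω⌋ = ⌊TV ν⌋ ∧ Y ω = Y ν := fun ω ν e => by
    rw [hZ] at e
    exact Prod.ext_iff.mp e
  -- the followers
  have b1 : CH p (flr v) Z ≤ av := (CH_mono_cond h0 fun ω ν _ _ e => (hZe ω ν e).2).trans hv
  have c1 := CH_le_add h0 (fun ω => ⌊(2 : ℝ) ^ X * TV ω⌋) (flr v) Z
  -- the near digits
  obtain ⟨Z₁, hZ₁⟩ : ∃ Z₁ : Ω → _, Z₁ = fun ω => (flr v ω, Z ω) := ⟨_, rfl⟩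
  rw [← hZ₁] at c1
  have c2 := CH_le_add h0 (fun ω => ⌊(2 : ℝ) ^ X * TV ω⌋) (fun ω => ⌊uR n v m ω / 2 ^ X⌋) Z₁
  have hlog : Real.log (2 * ((1 + f) + 1) + 1) = Real.log (2 * ((f : ℝ) + 2) + 1) := by
    congr 1
    ring
  have b2 : CH p (fun ω => ⌊uR n v m ω / 2 ^ X⌋) Z₁ ≤ Real.log (2 * ((f : ℝ) + 2) + 1) := by
    rw [← hlog]
    refine ch_flr hp (fun ω => uR n v m ω / 2 ^ X) Z₁ (by linarith) fun ω ν hω hν e => ?_
    rw [hZ₁] at e
    obtain ⟨e1, e2⟩ := Prod.ext_iff.mp e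
    obtain ⟨e3, e4⟩ := hZe ω ν e2
    have k1 := pr ω ν hω hν e4 e1
    have k2 := fl_near e3
    have k3 : uR n v m ω / 2 ^ X - uR n v m ν / 2 ^ X = (TV ω - TV ν) -
        ((2 ^ X * TV ω - 2 ^ X * TV ν) - (uR n v m ω - uR n v m ν)) / 2 ^ X := by
      field_simp
      ring
    rw [k3]
    refine (abs_sub _ _).trans (add_le_add k2 ?_)
    rw [abs_div, abs_of_pos h2X]
    exact (div_le_self (abs_nonneg _) h2X1).trans k1
  obtain ⟨Z₂, hZ₂⟩ : ∃ Z₂ : Ω → _, Z₂ = fun ω => (⌊uR n v m ω / 2 ^ X⌋, Z₁ ω) := ⟨_, rfl⟩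
  rw [← hZ₂] at c2
  -- the path and the record
  have c3 := CH_le_add h0 (fun ω => ⌊(2 : ℝ) ^ X * TV ω⌋) u Z₂
  have b3 : CH p u Z₂ ≤ a := (CH_mono_cond h0 fun ω ν _ _ e => by
    rw [hZ₂, hZ₁] at e
    exact (hZe ω ν (Prod.ext_iff.mp (Prod.ext_iff.mp e).2).2).2).trans hu
  obtain ⟨Z₃, hZ₃⟩ : ∃ Z₃ : Ω → _, Z₃ = fun ω => (u ω, Z₂ ω) := ⟨_, rfl⟩
  rw [← hZ₃] at c3
  have c4 := CH_le_add h0 (fun ω => ⌊(2 : ℝ) ^ X * TV ω⌋) z Z₃
  have b4 : CH p z Z₃ ≤ a := (CH_mono_cond h0 fun ω ν _ _ e => by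
    rw [hZ₃, hZ₂, hZ₁] at e
    exact (hZe ω ν (Prod.ext_iff.mp (Prod.ext_iff.mp (Prod.ext_iff.mp e).2).2).2).2).trans hz
  obtain ⟨Z₄, hZ₄⟩ : ∃ Z₄ : Ω → _, Z₄ = fun ω => (z ω, Z₃ ω) := ⟨_, rfl⟩
  rw [← hZ₄] at c4
  -- the row
  have c5 := CH_le_add h0 (fun ω => ⌊(2 : ℝ) ^ X * TV ω⌋) (fun ω => ⌊uR n v m ω⌋) Z₄
  have b5 : CH p (fun ω => ⌊uR n v m ω⌋) Z₄ ≤ R := by
    refine (CH_mono_cond h0 fun ω ν hω hν e => ?_).trans key
    rw [hZ₄, hZ₃, hZ₂, hZ₁] at e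
    simp only [Prod.mk.injEq] at e ⊢
    obtain ⟨e1, e2, e3, e4, e5⟩ := e
    obtain ⟨-, e6⟩ := hZe ω ν e5
    refine ⟨e3, e4, ?_, e2, e1, hW ω ν hω hν e6⟩
    have m1 := hsm ω ν hω hν e6
    funext l
    unfold flr
    rw [m1]
  have b6 : CH p (fun ω => ⌊(2 : ℝ) ^ X * TV ω⌋) (fun ω => (⌊uR n v m ω⌋, Z₄ ω)) ≤
      Real.log (2 * ((f : ℝ) + 2) + 1) := by
    rw [← hlog]
    refine ch_flr hp (fun ω => 2 ^ X * TV ω) _ (by linarith) fun ω ν hω hν e => ?_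
    obtain ⟨e0, e⟩ := Prod.ext_iff.mp e
    rw [hZ₄, hZ₃, hZ₂, hZ₁] at e
    simp only [Prod.mk.injEq] at e
    obtain ⟨e1, e2, e3, e4, e5⟩ := e
    obtain ⟨-, e6⟩ := hZe ω ν e5
    have k1 := abs_le.1 (pr ω ν hω hν e6 e4)
    have k2 := abs_le.1 (fl_near e0)
    rw [abs_le]
    constructor <;> linarith [k1.1, k1.2, k2.1, k2.2]
  linarith

end Pool.RWE19
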