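import Pool.Agent.H91.V0T.Ent

/-!
# The row of a target over followers: entropies

`ch_pre`: the chain rule for the first values. `rwe_ent`: the row of `U₂` given its near digits `U₁`,
the digits `V` of the followers and the digits `M` of the gradients: the exact positions of the
slope-one places and of the followers are inserted.
-/

set_option autoImplicit false

namespace Pool.RWE19

open Finset Real
open Pool.Agent.H49.Ent Pool.Agent.H32.Dense Pool.STK Pool.KA Pool.KSAT Pool.K2S Pool.PB Pool.GEN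
open Pool.S6C Pool.RCD Pool.LA91 Pool.AVG96 Pool.OWN68 Pool.V0F
open Pool.V0T (pre pre_of pre_at)

variable {Ω : Type} [Fintype Ω] {q : Ω → ℝ}

/-- **The chain rule for the first values.** -/
theorem ch_pre {S : Type} (h0 : ∀ ω, 0 ≤ q ω) (X : ℕ → Ω → ℤ) (C : Ω → S) (n : ℕ) :
    CH q (pre X n) C = ∑ i ∈ range n, CH q (X i) (fun ω => (pre X i ω, C ω)) := by
  induction n with
  | zero =>
    rw [Finset.sum_range_zero]
    exact CH_eq_zero h0 fun _ _ _ _ _ => Subsingleton.elim _ _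
  | succ n ih =>
    rw [Finset.sum_range_succ, ← ih]
    have h1 := CH_chain h0 (X n) (pre X n) C
    have h2 : CH q (pre X (n + 1)) C = CH q (fun ω => (X n ω, pre X n ω)) C := by
      refine CH_congr h0 (fun ω ω' _ _ e => ?_) (fun ω ω' _ _ e => ?_) (fun _ _ _ _ e => e)
        (fun _ _ _ _ e => e)
      · have e1 := (Prod.ext_iff.1 e).1
        exact Prod.ext (pre_at e1 (Nat.lt_succ_self n)) (pre_of fun i hi => pre_at e1 (by omega))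
      · have e1 := (Prod.ext_iff.1 e).1
        have e2 := Prod.ext_iff.1 e1
        refine pre_of fun i hi => ?_
        rcases Nat.lt_succ_iff_lt_or_eq.1 hi with h3 | h3
        · exact pre_at e2.2 h3
        · rw [h3]
          exact e2.1
    rw [h2, h1]

/-- **The row over followers**, the entropies. -/
theorem rwe_ent (h0 : ∀ ω, 0 ≤ q ω) {T₁ T₂ T₃ T₄ T₅ T₆ T₇ T₈ T₉ T₁₀ T₁₁ : Type} {n : ℕ}
    {X : ℕ → Ω → ℤ} {U₁ : Ω → T₁} {U₂ : Ω → T₂} {V : Ω → T₃} {M : Ω → T₄} {u : Ω → T₅}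
    {X0 : Ω → T₆} {z : Ω → T₇} {z' : Ω → T₈} {zx : Ω → T₉} {zb : Ω → T₁₀} {W : Ω → T₁₁}
    {a e s₀ s₁ dQ : ℝ} {dJ fl : ℕ → ℝ}
    (hzx' : Det q z' z) (hzx : Det q zx z) (hbx : Det q zx zb) (hzb : CH q zb z ≤ a)
    (hU : Det q U₂ U₁)
    (b1 : s₁ ≤ CH q X0 (fun ω => (u ω, (z' ω, W ω))))
    (b2 : CH q X0 (fun ω => (u ω, (zb ω, W ω))) ≤ s₀)
    (b3 : CH q u (fun ω => (X0 ω, (zb ω, W ω))) ≤ a)
    (c1 : CH q (fun ω => (U₂ ω, (V ω, M ω))) (fun ω => (u ω, (z' ω, W ω))) ≤ e)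
    (c2 : CH q (fun ω => (U₂ ω, (V ω, M ω))) (fun ω => (u ω, (zx ω, W ω))) ≤ e)
    (dv : ∀ i < n, CH q (X i) (fun ω => (V ω, (pre X i ω, (X0 ω, (z ω, W ω))))) ≤ dJ i)
    (hf : ∀ i < n, fl i ≤ CH q (X i) (fun ω => (pre X i ω, (X0 ω, (zx ω, W ω)))))
    (hr : CH q U₂ (fun ω => (U₁ ω, (M ω, (pre X n ω, (X0 ω, (z ω, W ω)))))) ≤ dQ) :
    CH q U₂ (fun ω => (U₁ ω, (V ω, (M ω, (u ω, (z ω, W ω)))))) ≤
      (s₀ - s₁) + dQ + ∑ i ∈ range n, (dJ i - fl i) + 2 * a + 2 * e := by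
  obtain ⟨Y, hY⟩ : ∃ Y : Ω → T₁ × (T₃ × (T₄ × (T₅ × (T₇ × T₁₁)))), Y = fun ω =>
    (U₁ ω, (V ω, (M ω, (u ω, (z ω, W ω))))) := ⟨_, rfl⟩
  obtain ⟨R, hR⟩ : ∃ R : Ω → T₂ × (T₃ × T₄), R = fun ω => (U₂ ω, (V ω, M ω)) := ⟨_, rfl⟩
  obtain ⟨C', hC'⟩ : ∃ C' : Ω → T₅ × (T₈ × T₁₁), C' = fun ω => (u ω, (z' ω, W ω)) := ⟨_, rfl⟩
  obtain ⟨C₀, hC₀⟩ : ∃ C₀ : Ω → T₆ × (T₉ × T₁₁), C₀ = fun ω => (X0 ω, (zx ω, W ω)) := ⟨_, rfl⟩
  obtain ⟨P, hP⟩ : ∃ P : Ω → Fin n → ℤ, P = pre X n := ⟨_, rfl⟩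
  rw [← hY]
  rw [← hR, ← hC'] at c1
  rw [← hR] at c2
  rw [← hC'] at b1
  rw [← hP] at hr
  -- the exact positions of the slope-one places are inserted
  have t1 := CH_exch h0 U₂ X0 Y
  have t2 := CH_le_add h0 X0 zb Y
  have t3 : CH q zb Y ≤ CH q zb z := CH_mono_cond h0 fun ω ω' _ _ e => by
    rw [hY] at e
    simp only [Prod.mk.injEq] at e
    exact e.2.2.2.2.1
  have t4 : CH q X0 (fun ω => (zb ω, Y ω)) ≤ CH q X0 (fun ω => (u ω, (zb ω, W ω))) :=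
    CH_mono_cond h0 fun ω ω' _ _ e => by
      rw [hY] at e
      simp only [Prod.mk.injEq] at e ⊢
      exact ⟨e.2.2.2.2.1, e.1, e.2.2.2.2.2.2⟩
  have t5 : CH q X0 (fun ω => (R ω, C' ω)) ≤ CH q X0 (fun ω => (U₂ ω, Y ω)) :=
    CH_mono_cond h0 fun ω ω' hω hω' e => by
      rw [hR, hC'] at e
      rw [hY]
      simp only [Prod.mk.injEq] at e ⊢
      exact ⟨e.1.1, hU ω ω' hω hω' e.1.1, e.1.2.1, e.1.2.2, e.2.1, hzx' ω ω' hω hω' e.2.2.1,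
        e.2.2.2⟩
  have t6 := CH_le_add h0 X0 R C'
  -- the exact positions of the followers are inserted
  have f1 := CH_exch h0 U₂ P (fun ω => (X0 ω, Y ω))
  have f2 : CH q P (fun ω => (X0 ω, Y ω)) ≤ ∑ i ∈ range n, dJ i := by
    rw [hP, ch_pre h0]
    refine Finset.sum_le_sum fun i hi => (CH_mono_cond h0 fun ω ω' _ _ e => ?_).trans
      (dv i (mem_range.1 hi))
    rw [hY] at e
    simp only [Prod.mk.injEq] at e ⊢
    exact ⟨e.2.2.2.1, e.1, e.2.1, e.2.2.2.2.2.2⟩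
  have f3 : CH q U₂ (fun ω => (P ω, (X0 ω, Y ω))) ≤ dQ := by
    refine (CH_mono_cond h0 fun ω ω' _ _ e => ?_).trans hr
    rw [hY] at e
    simp only [Prod.mk.injEq] at e ⊢
    exact ⟨e.2.2.1, e.2.2.2.2.1, e.1, e.2.1, e.2.2.2.2.2.2⟩
  have f4 : CH q P (fun ω => ((R ω, u ω), C₀ ω)) ≤ CH q P (fun ω => (U₂ ω, (X0 ω, Y ω))) :=
    CH_mono_cond h0 fun ω ω' hω hω' e => by
      rw [hR, hC₀] at e
      rw [hY]
      simp only [Prod.mk.injEq] at e ⊢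
      exact ⟨e.1.1.1, e.2.1, hU ω ω' hω hω' e.1.1.1, e.1.1.2.1, e.1.1.2.2, e.1.2,
        hzx ω ω' hω hω' e.2.2.1, e.2.2.2⟩
  have f5 := CH_le_add h0 P (fun ω => (R ω, u ω)) C₀
  have g1 : CH q R (fun ω => (u ω, C₀ ω)) ≤ e := (CH_mono_cond h0 fun ω ω' _ _ e => by
    rw [hC₀] at e
    simp only [Prod.mk.injEq] at e ⊢
    exact ⟨e.1, e.2.2⟩).trans c2
  have g2 : CH q u C₀ ≤ a := (CH_mono_cond h0 fun ω ω' hω hω' e => by
    rw [hC₀] at e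
    simp only [Prod.mk.injEq] at e ⊢
    exact ⟨e.1, hbx ω ω' hω hω' e.2.1, e.2.2⟩).trans b3
  have f6 := CH_chain h0 R u C₀
  have f7 : ∑ i ∈ range n, fl i ≤ CH q P C₀ := by
    rw [hP, ch_pre h0, hC₀]
    exact Finset.sum_le_sum fun i hi => hf i (mem_range.1 hi)
  rw [Finset.sum_sub_distrib]
  linarith

end Pool.RWE19
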