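import Pool.Agent.H87.V0S.Gp6

/-!
# The row of a target over followers: two samples

`pr_of`: two samples with the same time and the same charts, near at the slope-one places: the
followers, their gradients and the target minus the gradients times the followers are near.
-/

set_option autoImplicit false

namespace Pool.RWE19

open Finset Real MvPolynomial
open Pool.Agent.H49.Ent Pool.Agent.H32.Dense Pool.STK Pool.KA Pool.KSAT Pool.K2S Pool.PB Pool.S6C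
open Pool.GEN Pool.CHT Pool.CHX Pool.ISO Pool.V0S
open Pool.D2R (WinB hgt gnh)

/-- **Two samples.** -/
theorem pr_of (D r : ℕ) : ∃ C : ℕ, 1 ≤ C ∧ ∀ {m J : ℕ} {F : Fam m J} {c : ℕ → Fin m}
    {Dr N M : ℕ} {C₀ a Eb ηm : ℝ} {o η σ : ℕ → ℝ} {lv b : ℕ → ℕ → ℝ}
    {κ : ℝ} {z : ℕ → ℕ → ℕ} {B : F.Ω → Prop} {g₀ : ℕ → ℕ → ℕ}
    {G : ℕ → PtT F → ℕ → MvPolynomial (Option (Fin m)) ℝ}
    {H : ℕ → LnT F → ℕ → MvPolynomial (Option (Fin m)) ℝ}
    (_ : WinB F c r D Dr N M C₀ a Eb ηm o η σ lv b κ z B g₀ G H)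
    {G' : PtT F → ℕ → MvPolynomial (Option (Fin m)) ℝ} {κ' : F.Ω → ℕ → ℝ}
    {f jj : ℕ → ℕ} {n k i l0 y Y : ℕ} {s σ' : ℝ},
    Frm F c k i D Y B (G (f 0)) (g₀ (f 0)) ⌊o (f 0) * J⌋₊ G' κ' →
    Set.InjOn c (Set.Iio (r + 1)) → i ≤ r → k ≤ i → WDs o lv z J N M f jj n k i Y s σ' →
    C₀ * (ηm * J) ≤ Y → 3 ≤ Y → C * Y ≤ l0 →
    s * ((o (f n) - o (f 0)) * J) ≤ l0 + Y → (l0 : ℝ) ≤ s * ((o (f n) - o (f 0)) * J) + Y →
    (l0 : ℝ) + y ≤ σ' * ((o (f n) - o (f 0)) * J) + Y → y ≤ l0 + Y →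
    ∀ ω ν, B ω → B ν → F.t ω = F.t ν →
    (∀ l ≤ i, G' (ptr F J ω) l = G' (ptr F J ν) l) →
    (∀ l ≤ i, G (f n) (ptr F J ω) l = G (f n) (ptr F J ν) l) →
    (∀ j < k, |hgt F c G' ω j - hgt F c G' ν j| ≤ 2 ^ 2 / 2 ^ (g₀ (f 0) j + (l0 + y))) →
    ∀ mω mν : ℕ → ℝ, (∀ l, k ≤ l → l < i →
      |gnh F c i (g₀ (f 0)) G' (G (f n)) ω l - mω l| ≤ 2 ^ Y / 2 ^ y ∧
      |gnh F c i (g₀ (f 0)) G' (G (f n)) ν l - mν l| ≤ 2 ^ Y / 2 ^ y) →
    (∀ l, k ≤ l → l < i →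
      |2 ^ (g₀ (f 0) l + l0) * hgt F c G' ω l - 2 ^ (g₀ (f 0) l + l0) * hgt F c G' ν l| ≤
        2 ^ (C * Y) ∧ |2 ^ y * mω l - 2 ^ y * mν l| ≤ 2 ^ (C * Y)) ∧
    |2 ^ (g₀ (f 0) i + (l0 + y)) * hgt F c G' ω i - 2 ^ (g₀ (f 0) i + (l0 + y)) * hgt F c G' ν i -
      ∑ l ∈ Finset.Ico k i, 2 ^ y * mω l * (2 ^ (g₀ (f 0) l + l0) * hgt F c G' ω l -
        2 ^ (g₀ (f 0) l + l0) * hgt F c G' ν l)| ≤ 2 ^ (C * Y) := by
  obtain ⟨C₁, hC₁, h1⟩ := gfq_nx D r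
  obtain ⟨C₂, hC₂, h2⟩ := gnh_all D r
  refine ⟨C₁ + 2 * C₂ + r + 6, by omega, ?_⟩
  intro m J F c Dr N M C₀ a Eb ηm o η σ lv b κ z B g₀ G H W G' κ' f jj n k i l0 y Y s σ' T hc hi
    hki V hY hY3 hCl hl1 hl2 hly hyl ω ν hω hν ht hG' hGn hV0 mω mν hm
  obtain ⟨C, hC⟩ : ∃ C : ℕ, C = C₁ + 2 * C₂ + r + 6 := ⟨_, rfl⟩
  rw [← hC] at hCl ⊢
  have hY0 : (0 : ℝ) ≤ Y := Nat.cast_nonneg Y
  have hY3R : (3 : ℝ) ≤ Y := by exact_mod_cast hY3
  have hylR : (y : ℝ) ≤ l0 + Y := by exact_mod_cast hyl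
  have hl0 : 2 ≤ l0 := by
    have : 1 * 3 ≤ C * Y := Nat.mul_le_mul (by omega) hY3
    omega
  have hV1 : ∀ j < k, |hgt F c G' ω j - hgt F c G' ν j| ≤ 2 ^ 2 / 2 ^ (g₀ (f 0) j + l0) :=
    fun j hj => (hV0 j hj).trans (div_le_div_of_nonneg_left (by positivity) (by positivity)
      (pow_le_pow_right₀ (by norm_num) (by omega)))
  have hC1 : C₁ * Y ≤ l0 := le_trans (Nat.mul_le_mul_right Y (by omega)) hCl
  obtain ⟨g1, g2⟩ := h1 W (G' := G') (κ' := κ') (f := f) (jj := jj) (n := n) (k := k) (i := i)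
    (q := l0) (X := y) (Y := Y) (Y₃ := Y) (s := s) (σ' := σ') T hc hi hki V hY hY3 hC1 hl1 hl2 hly
    hyl ω ν hω hν ht hG' hGn hV1
  obtain ⟨k1, k2⟩ := h2 W (G' := G') (κ' := κ') (f := f) (jj := jj) (n := n) (ks := n) (k := k)
    (i := i) (q := l0) (X := y) (Y := 2 * Y) (s := s) (σ' := σ') (T.mono (by omega)) hc hi hki
    (V.mono (by omega)) (by push_cast; linarith) (by omega) le_rfl hl0 (by push_cast; linarith)
    (by push_cast; linarith) (by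
      have e1 : (σ' - s) * ((o (f n) - o (f 0)) * J) = σ' * ((o (f n) - o (f 0)) * J) -
        s * ((o (f n) - o (f 0)) * J) := by ring
      rw [e1]
      push_cast
      linarith)
  have k2 := k2 ω ν hω hν ht hG' hGn hV1
  have g2 := g2 mω fun l hl hli => (hm l hl hli).1
  -- powers
  have p1 : (2 : ℝ) ^ (C₁ * Y) ≤ 2 ^ (C * Y) :=
    pow_le_pow_right₀ (by norm_num) (Nat.mul_le_mul_right Y (by omega))
  have hCY : C * Y = C₁ * Y + 2 * C₂ * Y + r * Y + 6 * Y := by rw [hC]; ring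
  have p2 : (2 : ℝ) ^ (C₂ * (2 * Y)) + 2 * 2 ^ Y ≤ 2 ^ (C * Y) := by
    have a1 : (2 : ℝ) ^ (C₂ * (2 * Y)) ≤ 2 ^ (2 * C₂ * Y + Y) :=
      pow_le_pow_right₀ (by norm_num) (by
        rw [show C₂ * (2 * Y) = 2 * C₂ * Y by ring]
        omega)
    have a2 : (2 : ℝ) ^ Y ≤ 2 ^ (2 * C₂ * Y + Y) := pow_le_pow_right₀ (by norm_num) (by omega)
    have a3 : (2 : ℝ) ^ (2 * C₂ * Y + Y) * 2 ^ 2 ≤ 2 ^ (C * Y) := by
      rw [← pow_add]
      exact pow_le_pow_right₀ (by norm_num) (by rw [hCY]; omega)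
    have a4 : (0 : ℝ) < 2 ^ (2 * C₂ * Y + Y) := by positivity
    linarith
  have p3 : (2 : ℝ) ^ (C₁ * Y + Y) + k * (2 ^ 2 * 2 ^ (C₂ * (2 * Y))) ≤ 2 ^ (C * Y) := by
    have a0 : C₂ * (2 * Y) = 2 * C₂ * Y := by ring
    rw [a0]
    obtain ⟨E, hE⟩ : ∃ E : ℕ, E = C₁ * Y + 2 * C₂ * Y + r * Y + 2 * Y := ⟨_, rfl⟩
    have a1 : (2 : ℝ) ^ (C₁ * Y + Y) ≤ 2 ^ E := pow_le_pow_right₀ (by norm_num) (by omega)
    have a2 : (k : ℝ) ≤ 2 ^ (r * Y) := by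
      have b1 : (k : ℝ) ≤ 2 ^ k := by exact_mod_cast Nat.lt_two_pow_self.le
      refine b1.trans (pow_le_pow_right₀ (by norm_num) ?_)
      calc k ≤ r * 1 := by omega
        _ ≤ r * Y := Nat.mul_le_mul_left r (by omega)
    have a3 : (2 : ℝ) ^ 2 * 2 ^ (2 * C₂ * Y) ≤ 2 ^ (2 * C₂ * Y + 2) := by
      rw [pow_add]
      linarith
    have a4 : (k : ℝ) * (2 ^ 2 * 2 ^ (2 * C₂ * Y)) ≤ 2 ^ E := by
      refine (mul_le_mul a2 a3 (by positivity) (by positivity)).trans ?_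
      rw [← pow_add]
      exact pow_le_pow_right₀ (by norm_num) (by omega)
    have a5 : (2 : ℝ) ^ E * 2 ≤ 2 ^ (C * Y) := by
      rw [← pow_succ]
      exact pow_le_pow_right₀ (by norm_num) (by rw [hCY]; omega)
    linarith
  refine ⟨fun l hl hli => ⟨?_, ?_⟩, ?_⟩
  · rw [← mul_sub, abs_mul, abs_of_pos (by positivity : (0 : ℝ) < 2 ^ (g₀ (f 0) l + l0))]
    refine le_trans (mul_le_mul_of_nonneg_left (g1 l hli) (by positivity)) ?_
    rw [mul_div_assoc', div_le_iff₀ (by positivity), mul_comm]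
    exact mul_le_mul_of_nonneg_right p1 (by positivity)
  · obtain ⟨m1, m2⟩ := hm l hl hli
    have m3 := k2 l hli
    have hy0 : (0 : ℝ) < 2 ^ y := by positivity
    rw [le_div_iff₀ hy0] at m1 m2 m3
    have m1 := abs_le.1 ((abs_mul _ _).trans_le ((mul_le_mul_of_nonneg_left
      (le_of_eq (abs_of_pos hy0)) (abs_nonneg _)).trans m1))
    have m2 := abs_le.1 ((abs_mul _ _).trans_le ((mul_le_mul_of_nonneg_left
      (le_of_eq (abs_of_pos hy0)) (abs_nonneg _)).trans m2))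
    have m3 := abs_le.1 ((abs_mul _ _).trans_le ((mul_le_mul_of_nonneg_left
      (le_of_eq (abs_of_pos hy0)) (abs_nonneg _)).trans m3))
    refine le_trans ?_ p2
    rw [abs_le]
    constructor <;> linarith [m1.1, m1.2, m2.1, m2.2, m3.1, m3.2]
  · refine le_trans ?_ p3
    have e1 : 2 ^ (g₀ (f 0) i + (l0 + y)) * hgt F c G' ω i - 2 ^ (g₀ (f 0) i + (l0 + y)) *
        hgt F c G' ν i - ∑ l ∈ Finset.Ico k i, 2 ^ y * mω l * (2 ^ (g₀ (f 0) l + l0) *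
          hgt F c G' ω l - 2 ^ (g₀ (f 0) l + l0) * hgt F c G' ν l) =
        2 ^ y * (2 ^ (g₀ (f 0) i + l0) * ((hgt F c G' ω i - hgt F c G' ν i) -
          ∑ l ∈ Finset.Ico k i, 2 ^ g₀ (f 0) l / 2 ^ g₀ (f 0) i * mω l *
            (hgt F c G' ω l - hgt F c G' ν l))) := by
      rw [mul_sub (2 ^ (g₀ (f 0) i + l0)), mul_sub (2 ^ y), Finset.mul_sum, Finset.mul_sum]
      rw [show 2 ^ y * (2 ^ (g₀ (f 0) i + l0) * (hgt F c G' ω i - hgt F c G' ν i)) =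
        2 ^ (g₀ (f 0) i + (l0 + y)) * hgt F c G' ω i - 2 ^ (g₀ (f 0) i + (l0 + y)) *
          hgt F c G' ν i by
        rw [pow_add, pow_add, pow_add]
        ring]
      congr 1
      refine Finset.sum_congr rfl fun l _ => ?_
      rw [pow_add, pow_add]
      field_simp
    have e2 : |2 ^ y * ∑ j ∈ Finset.range k, gnh F c i (g₀ (f 0)) G' (G (f n)) ω j *
        (2 ^ (g₀ (f 0) j + l0) * (hgt F c G' ω j - hgt F c G' ν j))| ≤
        k * (2 ^ 2 * 2 ^ (C₂ * (2 * Y))) := by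
      rw [Finset.mul_sum]
      refine (Finset.abs_sum_le_sum_abs _ _).trans ?_
      have : ∀ j ∈ range k, |2 ^ y * (gnh F c i (g₀ (f 0)) G' (G (f n)) ω j *
          (2 ^ (g₀ (f 0) j + l0) * (hgt F c G' ω j - hgt F c G' ν j)))| ≤
          2 ^ 2 * 2 ^ (C₂ * (2 * Y)) := by
        intro j hj
        have hj := Finset.mem_range.1 hj
        have b1 := k1 ω hω j (by omega)
        have b2 := hV0 j hj
        rw [le_div_iff₀ (by positivity)] at b2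
        have b3 : 2 ^ y * (gnh F c i (g₀ (f 0)) G' (G (f n)) ω j *
            (2 ^ (g₀ (f 0) j + l0) * (hgt F c G' ω j - hgt F c G' ν j))) =
            gnh F c i (g₀ (f 0)) G' (G (f n)) ω j * ((hgt F c G' ω j - hgt F c G' ν j) *
              2 ^ (g₀ (f 0) j + (l0 + y))) := by
          rw [pow_add, pow_add, pow_add]
          ring
        rw [b3, abs_mul, abs_mul, abs_of_pos (by positivity :
          (0 : ℝ) < 2 ^ (g₀ (f 0) j + (l0 + y)))]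
        calc _ ≤ 2 ^ (C₂ * (2 * Y)) * 2 ^ 2 := mul_le_mul b1 b2 (by positivity) (by positivity)
          _ = _ := mul_comm _ _
      refine (Finset.sum_le_sum this).trans (le_of_eq ?_)
      rw [Finset.sum_const, card_range, nsmul_eq_mul]
    rw [e1]
    have e3 := abs_le.1 g2
    have e4 := abs_le.1 e2
    rw [abs_le]
    constructor <;> linarith [e3.1, e3.2, e4.1, e4.2]

end Pool.RWE19
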