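import Pool.Agent.H19.RWE.Lb
import Pool.Agent.H19.RWE.Pr

/-!
# The row of a target over followers: the inputs of the class theorem on one event

`ev_in`: the digits of the target, of the followers and of the gradients over the charts of the window
`fn t`; the near digits given the digits of the class theorem and vice versa.
-/

set_option autoImplicit false

namespace Pool.RWE19

open Finset Real MvPolynomial
open Pool.Agent.H49.Ent Pool.Agent.H32.Dense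
open Pool.STK hiding pr2
open Pool.KA Pool.KSAT Pool.K2S Pool.PB Pool.S6C
open Pool.GEN Pool.CHT Pool.CHX Pool.ISO Pool.LA91 Pool.AVG71 Pool.AVG5 Pool.D2F2 Pool.AVG57
open Pool.AVG66 Pool.RCD Pool.AVG96 Pool.OWN68 Pool.V0F Pool.V0S Pool.VW33
open Pool.D2R (WinB hgt gnh hyb hybH hyb_hi)
open Pool.PB.Trl (rt rt_mem t_rt)
open Pool.XR71 (CH_dg)

variable {m : ℕ}

/-- Logarithms of powers of two. -/
theorem lg_pow {x : ℝ} {n : ℕ} (h0 : 0 < x) (h : x ≤ 2 ^ n) : Real.log x ≤ n := by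
  have h1 := Real.log_le_log h0 h
  rw [Real.log_pow] at h1
  have h2 : Real.log 2 ≤ 1 := by
    have := Real.log_two_lt_d9
    linarith
  have h3 : (n : ℝ) * Real.log 2 ≤ n * 1 := mul_le_mul_of_nonneg_left h2 (Nat.cast_nonneg n)
  linarith

/-- Digits of a real number in a real unit. -/
theorem dg_near {x x' b : ℝ} (h : ⌊(2 : ℝ) ^ b * x⌋ = ⌊(2 : ℝ) ^ b * x'⌋) {n : ℕ}
    (hn : (n : ℝ) ≤ b) : 2 ^ n * |x - x'| ≤ 1 := by
  have h1 := fl_near h
  rw [← mul_sub, abs_mul, abs_of_pos (Real.rpow_pos_of_pos two_pos b)] at h1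
  have h2 : (2 : ℝ) ^ n ≤ 2 ^ b := by
    rw [← Real.rpow_natCast]
    exact Real.rpow_le_rpow_of_exponent_le (by norm_num) hn
  exact (mul_le_mul_of_nonneg_right h2 (abs_nonneg _)).trans h1

/-- **The inputs of the class theorem on one event.** -/
theorem ev_in (D k f : ℕ) : ∃ C : ℕ, 1 ≤ C ∧ ∀ {m J : ℕ} {F : Fam m J} {c : ℕ → Fin m}
    {Dr N M : ℕ} {C₀ a Eb ηm : ℝ} {ow η σ : ℕ → ℝ} {lv bb : ℕ → ℕ → ℝ}
    {κ : ℝ} {z : ℕ → ℕ → ℕ} {A : F.Ω → Prop} {g₀ : ℕ → ℕ → ℕ}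
    {Gc : ℕ → PtT F → ℕ → MvPolynomial (Option (Fin m)) ℝ}
    {H : ℕ → LnT F → ℕ → MvPolynomial (Option (Fin m)) ℝ}
    (_ : WinB F c (k + f) D Dr N M C₀ a Eb ηm ow η σ lv bb κ z A g₀ Gc H)
    {κ' : F.Ω → ℕ → ℝ} {fb fn jj : ℕ → ℕ} {t l0 y Y X Wm Km YM : ℕ} {al be b w : ℝ}
    {mu : LnT F → ℕ → Polynomial ℝ} {nV Pa Pw : ℕ → ℝ} {d₁ : ℝ} {p : F.Ω → ℝ},
    Frm F c k (k + f) D Y A (Gc (fn 0)) (g₀ (fn 0)) ⌊ow (fn 0) * J⌋₊ (chE Gc k fb fn) κ' →
    Set.InjOn c (Set.Iio (k + f + 1)) → WDs ow lv z J N M fn jj t k (k + f) Y al be →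
    C₀ * (ηm * J) ≤ Y → 3 ≤ Y → C * Y ≤ l0 →
    al * ((ow (fn t) - ow (fn 0)) * J) ≤ l0 + Y →
    (l0 : ℝ) ≤ al * ((ow (fn t) - ow (fn 0)) * J) + Y →
    (l0 : ℝ) + y ≤ be * ((ow (fn t) - ow (fn 0)) * J) + Y → y ≤ l0 + Y →
    fb 0 ≤ N → fn 0 ≤ N → ow (fb 0) = b → ow (fn 0) = w → b ≤ w → w ≤ 1 → Wm ≤ J →
    (∀ ω, A ω → ∀ l, k ≤ l → l < k + f →
      |gnh F c (k + f) (g₀ (fn 0)) (chE Gc k fb fn) (Gc (fn t)) ω l -
        (mcE F Wm Km YM mu l ω).eval (rt F Wm ω)| ≤ 2 ^ Y / 2 ^ y) →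
    -- the digits
    0 ≤ d₁ → (∀ j < k, ((g₀ (fn 0) j + (l0 + y) : ℕ) : ℝ) ≤ nV j * J) →
    (∀ i < f, Pa i * J ≤ g₀ (fn 0) (k + i) + l0 + d₁) →
    Pa f * J + X ≤ g₀ (fn 0) (k + f) + (l0 + y) + d₁ →
    (∀ i ≤ f, ((g₀ (fn 0) (k + i) + (l0 + y) : ℕ) : ℝ) ≤ Pw i * J) →
    IsLaw p → (∀ ω, 0 < p ω → A ω) →
    CH p (fun ω => (⌊uR (nE F c (k + f) (l0 + y) (g₀ (fn 0)) (chE Gc k fb fn))
        (vE F c k f l0 (g₀ (fn 0)) (chE Gc k fb fn)) (mE F k f Wm Km YM y mu) ω⌋,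
        (flr (vE F c k f l0 (g₀ (fn 0)) (chE Gc k fb fn)) ω,
          flr (mE F k f Wm Km YM y mu) ω)))
      (fun ω => (jh F c k ⌊w * J⌋₊ (lbE H k fb fn b w) nV ω,
        (Cch F (k + f) (chE Gc k fb fn) (Gc (fn t)) ω, F.W ω))) ≤
      (2 * f + 1) * (C * Y + f + d₁ + 7) ∧
    (∀ i : Fin (f + 1), (i : ℕ) < f → CH p (fun ω => uvE F c k f w (H (fn 0)) Pa ω i)
      (flr (vE F c k f l0 (g₀ (fn 0)) (chE Gc k fb fn))) ≤
      (2 * f + 1) * (C * Y + f + d₁ + 7)) ∧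
    CH p (fun ω => uvE F c k f w (H (fn 0)) Pa ω (Fin.last f))
      (fun ω => (⌊uR (nE F c (k + f) (l0 + y) (g₀ (fn 0)) (chE Gc k fb fn))
        (vE F c k f l0 (g₀ (fn 0)) (chE Gc k fb fn)) (mE F k f Wm Km YM y mu) ω / 2 ^ X⌋,
        (flr (mE F k f Wm Km YM y mu) ω,
          ((fun i : Fin f => uvE F c k f w (H (fn 0)) Pw ω i.castSucc), F.W ω)))) ≤
      (2 * f + 1) * (C * Y + f + d₁ + 7) ∧
    CH p (fun ω => ⌊uR (nE F c (k + f) (l0 + y) (g₀ (fn 0)) (chE Gc k fb fn))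
        (vE F c k f l0 (g₀ (fn 0)) (chE Gc k fb fn)) (mE F k f Wm Km YM y mu) ω⌋)
      (fun ω => (uvE F c k f w (H (fn 0)) Pw ω, (flr (mE F k f Wm Km YM y mu) ω, F.W ω))) ≤
      (2 * f + 1) * (C * Y + f + d₁ + 7) := by
  obtain ⟨C₁, hC₁, hpr⟩ := pr_of D (k + f)
  obtain ⟨C₂, hC₂, hga⟩ := gnh_all D (k + f)
  refine ⟨C₁ + 2 * C₂ + 3, by omega, ?_⟩
  intro m J F c Dr N M C₀ a Eb ηm ow η σ lv bb κ z A g₀ Gc H W κ' fb fn jj t l0 y Y X Wm Km YM al
    be b w mu nV Pa Pw d₁ p T hc V hY hY3 hCl hl1 hl2 hly hyl hfb hfn hob how hbw hw1 hWm hKE hd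
    hnV hPa hPf hPw hp hpA
  obtain ⟨C, hC⟩ : ∃ C : ℕ, C = C₁ + 2 * C₂ + 3 := ⟨_, rfl⟩
  rw [← hC] at hCl ⊢
  obtain ⟨γ, hγ⟩ : ∃ γ : ℕ → ℕ, γ = g₀ (fn 0) := ⟨_, rfl⟩
  obtain ⟨G', hG'⟩ : ∃ G' : PtT F → ℕ → MvPolynomial (Option (Fin m)) ℝ,
    G' = chE Gc k fb fn := ⟨_, rfl⟩
  have h0 := hp.nonneg
  have hf : (0 : ℝ) ≤ f := Nat.cast_nonneg f
  have hY0 : (0 : ℝ) ≤ Y := Nat.cast_nonneg Y
  have hY3R : (3 : ℝ) ≤ Y := by exact_mod_cast hY3
  have hylR : (y : ℝ) ≤ l0 + Y := by exact_mod_cast hyl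
  have hl5 : Real.log 5 ≤ 3 := by
    have := lg_pow (x := 5) (n := 3) (by norm_num) (by norm_num)
    exact_mod_cast this
  have hl50 : 0 < Real.log 5 := Real.log_pos (by norm_num)
  have hlg2 : 0 < Real.log 2 := Real.log_pos one_lt_two
  have hlg2' : Real.log 2 ≤ 1 := by
    have := Real.log_two_lt_d9
    linarith
  have hl0 : 2 ≤ l0 := by
    have : 1 * 3 ≤ C * Y := Nat.mul_le_mul (by omega) hY3
    omega
  have hCY : (C : ℝ) * Y = C₁ * Y + 2 * (C₂ * Y) + 3 * Y := by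
    rw [hC]
    push_cast
    ring
  have hC1Y : 0 ≤ (C₁ : ℝ) * Y := by positivity
  have hC2Y : 0 ≤ (C₂ : ℝ) * Y := by positivity
  have hf2 : (f : ℝ) ≤ 2 ^ f := by exact_mod_cast Nat.lt_two_pow_self.le
  have hwJ : ⌊w * (J : ℝ)⌋₊ ≤ J := floor_le hw1 J
  -- the gradients
  obtain ⟨k1, -⟩ := hga W (G' := G') (κ' := κ') (f := fn) (jj := jj) (n := t) (ks := t) (k := k)
    (i := k + f) (q := l0) (X := y) (Y := 2 * Y) (s := al) (σ' := be) (by
      rw [hG']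
      exact T.mono (by omega)) hc le_rfl (Nat.le_add_right k f)
    (V.mono (by omega)) (by push_cast; linarith) (by omega) le_rfl hl0 (by push_cast; linarith)
    (by push_cast; linarith) (by
      have e1 : (be - al) * ((ow (fn t) - ow (fn 0)) * J) = be * ((ow (fn t) - ow (fn 0)) * J) -
        al * ((ow (fn t) - ow (fn 0)) * J) := by ring
      rw [e1]
      push_cast
      linarith)
  -- the size of the gradients
  have hm : ∀ ω, A ω → ∀ l : Fin f, |(⌊mE F k f Wm Km YM y mu ω l⌋ : ℝ)| ≤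
      2 ^ y * 2 ^ (2 * C₂ * Y + Y + 2) := by
    intro ω hω l
    have hl := l.isLt
    have a1 := hKE ω hω (k + l) (by omega) (by omega)
    have a2 := k1 ω hω (k + l) (by omega)
    rw [hG'] at a2
    have a3 : |(mcE F Wm Km YM mu (k + l) ω).eval (rt F Wm ω)| ≤
        2 ^ (C₂ * (2 * Y)) + 2 ^ Y := by
      have b1 : (2 : ℝ) ^ Y / 2 ^ y ≤ 2 ^ Y := div_le_self (by positivity)
        (one_le_pow₀ (by norm_num))
      have b2 := abs_le.1 (a1.trans b1)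
      have b3 := abs_le.1 a2
      rw [abs_le]
      constructor <;> linarith [b2.1, b2.2, b3.1, b3.2]
    have a4 : (2 : ℝ) ^ (C₂ * (2 * Y)) + 2 ^ Y + 1 ≤ 2 ^ (2 * C₂ * Y + Y + 2) := by
      have b1 : (2 : ℝ) ^ (C₂ * (2 * Y)) ≤ 2 ^ (2 * C₂ * Y + Y) :=
        pow_le_pow_right₀ (by norm_num) (by
          rw [show C₂ * (2 * Y) = 2 * C₂ * Y by ring]
          omega)
      have b2 : (2 : ℝ) ^ Y ≤ 2 ^ (2 * C₂ * Y + Y) := pow_le_pow_right₀ (by norm_num) (by omega)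
      have b3 : (1 : ℝ) ≤ 2 ^ (2 * C₂ * Y + Y) := one_le_pow₀ (by norm_num)
      have b4 : (2 : ℝ) ^ (2 * C₂ * Y + Y + 2) = 2 ^ (2 * C₂ * Y + Y) * 4 := by
        rw [pow_add]
        norm_num
      rw [b4]
      linarith
    have a5 : |mE F k f Wm Km YM y mu ω l| ≤ 2 ^ y * (2 ^ (C₂ * (2 * Y)) + 2 ^ Y) := by
      unfold mE
      rw [abs_mul, abs_of_pos (by positivity : (0 : ℝ) < 2 ^ y)]
      exact mul_le_mul_of_nonneg_left a3 (by positivity)
    have a6 : |(⌊mE F k f Wm Km YM y mu ω l⌋ : ℝ)| ≤ |mE F k f Wm Km YM y mu ω l| + 1 := by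
      have c1 := Int.floor_le (mE F k f Wm Km YM y mu ω l)
      have c2 := Int.lt_floor_add_one (mE F k f Wm Km YM y mu ω l)
      have c3 := abs_le.1 (le_refl |mE F k f Wm Km YM y mu ω l|)
      rw [abs_le]
      constructor <;> linarith [c3.1, c3.2]
    have a7 : (1 : ℝ) ≤ 2 ^ y := one_le_pow₀ (by norm_num)
    have a8 := mul_le_mul_of_nonneg_left a4 (by positivity : (0 : ℝ) ≤ 2 ^ y)
    linarith
  -- the heights over the labels
  have hx : ∀ ω, 0 < p ω → ∀ i ≤ f, hgt F c G' ω (k + i) =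
      ojet F (c (k + i)) 0 (H (fn 0) (slam F ⌊w * J⌋₊ ω) (k + i)) ω := fun ω hω i hi => by
    rw [hG']
    exact hgt_hi W hfn how hw1 (hpA ω hω) (by omega) (by omega)
  -- the far digits of the heights
  have hdw : ∀ ω ν, 0 < p ω → 0 < p ν → ∀ i (hi : i ≤ f),
      uvE F c k f w (H (fn 0)) Pw ω ⟨i, by omega⟩ = uvE F c k f w (H (fn 0)) Pw ν ⟨i, by omega⟩ →
      2 ^ (γ (k + i) + (l0 + y)) * |hgt F c G' ω (k + i) - hgt F c G' ν (k + i)| ≤ 1 := by
    intro ω ν hω hν i hi e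
    unfold uvE at e
    simp only at e
    rw [← hx ω hω i hi, ← hx ν hν i hi] at e
    rw [hγ]
    exact dg_near e (hPw i hi)
  have hvw : ∀ ω ν, 0 < p ω → 0 < p ν → (∀ i : Fin f,
      uvE F c k f w (H (fn 0)) Pw ω i.castSucc = uvE F c k f w (H (fn 0)) Pw ν i.castSucc) →
      ∀ l : Fin f, |(⌊mE F k f Wm Km YM y mu ω l⌋ : ℝ) * (vE F c k f l0 γ G' ω l -
        vE F c k f l0 γ G' ν l)| ≤ 2 ^ (2 * C₂ * Y + Y + 2) := by
    intro ω ν hω hν e l
    have hl := l.isLt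
    have a1 := hm ω (hpA ω hω) l
    have a2 := hdw ω ν hω hν l (by omega) (e l)
    unfold vE
    rw [← mul_sub, abs_mul, abs_mul, abs_of_pos (by positivity : (0 : ℝ) < 2 ^ (γ (k + l) + l0))]
    have a3 : 2 ^ y * 2 ^ (2 * C₂ * Y + Y + 2) * (2 ^ (γ (k + l) + l0) *
        |hgt F c G' ω (k + l) - hgt F c G' ν (k + l)|) = 2 ^ (2 * C₂ * Y + Y + 2) *
        (2 ^ (γ (k + l) + (l0 + y)) * |hgt F c G' ω (k + l) - hgt F c G' ν (k + l)|) := by
      rw [pow_add _ (γ (k + l)) (l0 + y), pow_add _ (γ (k + l)) l0, pow_add _ l0 y]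
      ring
    refine (mul_le_mul_of_nonneg_right a1 (by positivity)).trans ?_
    rw [a3]
    calc _ ≤ (2 : ℝ) ^ (2 * C₂ * Y + Y + 2) * 1 := mul_le_mul_of_nonneg_left a2 (by positivity)
      _ = _ := mul_one _
  -- the digits of the followers from the far digits
  have hva : ∀ {β : Type} (Z : F.Ω → β), (∀ ω ν, Z ω = Z ν → ∀ i : Fin f,
      uvE F c k f w (H (fn 0)) Pw ω i.castSucc = uvE F c k f w (H (fn 0)) Pw ν i.castSucc) →
      CH p (flr (vE F c k f l0 γ G')) Z ≤ f * 3 := by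
    intro β Z hZ
    refine (CH_pis h0 (flr (vE F c k f l0 γ G')) Z).trans ?_
    have h1 : ∀ i ∈ (univ : Finset (Fin f)), CH p (fun ω => flr (vE F c k f l0 γ G') ω i) Z ≤
        3 := by
      intro i _
      have hi := i.isLt
      have a0 : (((γ (k + i) + l0 : ℕ) : ℝ)) ≤ Pw i * J := by
        have := hPw i hi.le
        rw [← hγ] at this
        push_cast at this ⊢
        have hy0 : (0 : ℝ) ≤ y := Nat.cast_nonneg y
        linarith
      have a1 := CH_dg (p := p) hp (a := Pw i * J) (b := ((γ (k + i) + l0 : ℕ) : ℝ)) (d := 0)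
        (x := fun ω => hgt F c G' ω (k + i)) (U := fun ω => flr (vE F c k f l0 γ G') ω i) (Z := Z)
        (fun ω _ => by
          unfold flr vE
          rw [Real.rpow_natCast]) (fun ω ν hω hν e => by
          have a2 := hZ ω ν e i
          unfold uvE at a2
          simp only [Fin.val_castSucc] at a2
          rw [← hx ω hω i hi.le, ← hx ν hν i hi.le] at a2
          exact a2) (by linarith) le_rfl
      linarith
    refine (Finset.sum_le_sum h1).trans (le_of_eq ?_)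
    rw [Finset.sum_const, Finset.card_univ, Fintype.card_fin, nsmul_eq_mul]
  have hE0 : (0 : ℝ) ≤ C * Y + f + d₁ + 7 := by positivity
  have hE1 : C * Y + f + d₁ + 7 ≤ (2 * f + 1) * (C * Y + f + d₁ + 7) :=
    le_mul_of_one_le_left hE0 (by linarith)
  have hE2 : 3 * (f : ℝ) + (C * Y + f + d₁ + 7) ≤ (2 * f + 1) * (C * Y + f + d₁ + 7) := by
    have a1 : (2 * (f : ℝ) + 1) * (C * Y + f + d₁ + 7) = 2 * f * (C * Y + f + d₁ + 7) +
      (C * Y + f + d₁ + 7) := by ring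
    have a2 : 2 * (f : ℝ) * 7 ≤ 2 * f * (C * Y + f + d₁ + 7) := by
      refine mul_le_mul_of_nonneg_left ?_ (by positivity)
      have : (0 : ℝ) ≤ C * Y := by positivity
      linarith
    rw [a1]
    linarith
  rw [← hγ, ← hG']
  refine ⟨?_, ?_, ?_, ?_⟩
  · -- the digits over the charts
    have a1 := pf_of (p := p) hp (n := nE F c (k + f) (l0 + y) γ G')
      (v := vE F c k f l0 γ G') (m := mE F k f Wm Km YM y mu)
      (fun ω => (jh F c k ⌊w * J⌋₊ (lbE H k fb fn b w) nV ω,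
        (Cch F (k + f) G' (Gc (fn t)) ω, F.W ω))) (D := 2 ^ (C₁ * Y)) (by positivity)
      (fun ω ν hω hν e => by
        simp only [Prod.mk.injEq] at e
        obtain ⟨e1, e2, e3⟩ := e
        obtain ⟨e4, e5⟩ := cch_of e2
        have hT : F.t ω = F.t ν := by
          have hT0 : F.T ω = F.T ν := (Prod.ext_iff.mp e3).1
          unfold Fam.t
          rw [hT0]
        have hωA := hpA ω hω
        have hνA := hpA ν hν
        have hV0 : ∀ j < k, |hgt F c G' ω j - hgt F c G' ν j| ≤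
            2 ^ 2 / 2 ^ (γ j + (l0 + y)) := by
          intro j hj
          have b1 := congrFun (congrFun e1 j) 0
          unfold jh at b1
          rw [if_pos ⟨hj, rfl⟩, if_pos ⟨hj, rfl⟩,
            ← hgt_fr W hfb hfn hob how hbw hw1 hωA (by omega),
            ← hgt_fr W hfb hfn hob how hbw hw1 hνA (by omega), ← hG'] at b1
          have b2 := dg_near b1 (hnV j hj)
          rw [← hγ] at b2
          rw [le_div_iff₀ (by positivity), mul_comm]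
          linarith
        obtain ⟨g1, g2⟩ := hpr W (G' := G') (κ' := κ') (f := fn) (jj := jj) (n := t) (k := k)
          (i := k + f) (l0 := l0) (y := y) (Y := Y) (s := al) (σ' := be) (by
            rw [hG']
            exact T) hc le_rfl (Nat.le_add_right k f) V hY hY3
          (le_trans (Nat.mul_le_mul_right Y (by omega)) hCl) hl1 hl2 hly hyl ω ν hωA hνA hT e4 e5
          (by
            rw [← hγ]
            exact hV0) (fun l => (mcE F Wm Km YM mu l ω).eval (rt F Wm ω))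
          (fun l => (mcE F Wm Km YM mu l ν).eval (rt F Wm ν)) (fun l h1 h2 => by
            rw [hG']
            exact ⟨hKE ω hωA l h1 h2, hKE ν hνA l h1 h2⟩)
        rw [← hγ] at g1 g2
        refine ⟨fun l => ?_, ?_⟩
        · have hl := l.isLt
          exact g1 (k + l) (by omega) (by omega)
        · rw [sum_fol (fun l => 2 ^ y * (mcE F Wm Km YM mu l ω).eval (rt F Wm ω) *
            (2 ^ (γ l + l0) * hgt F c G' ω l - 2 ^ (γ l + l0) * hgt F c G' ν l))] at g2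
          exact g2)
    refine a1.trans (mul_le_mul_of_nonneg_left ?_ (by positivity))
    refine (lg_pow (n := C₁ * Y + f + 4) (by positivity) ?_).trans ?_
    · have b1 : (2 : ℝ) ^ (C₁ * Y + f + 4) = 2 ^ (C₁ * Y) * 2 ^ f * 16 := by
        rw [pow_add, pow_add]
        norm_num
      have b2 : (1 : ℝ) ≤ 2 ^ (C₁ * Y) := one_le_pow₀ (by norm_num)
      have b3 : (1 : ℝ) ≤ 2 ^ f := one_le_pow₀ (by norm_num)
      have b4 : (2 : ℝ) ^ (C₁ * Y) ≤ 2 ^ (C₁ * Y) * 2 ^ f := le_mul_of_one_le_right (by positivity) b3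
      have b5 : (2 : ℝ) ^ f ≤ 2 ^ (C₁ * Y) * 2 ^ f := le_mul_of_one_le_left (by positivity) b2
      rw [b1]
      linarith
    · push_cast
      linarith
  · -- the near digits of the followers
    intro i hi
    have a0 := hPa i hi
    rw [← hγ] at a0
    have a1 := CH_dg (p := p) hp (a := ((γ (k + i) + l0 : ℕ) : ℝ)) (b := Pa i * J) (d := d₁)
      (x := fun ω => hgt F c G' ω (k + i)) (U := fun ω => uvE F c k f w (H (fn 0)) Pa ω i)
      (Z := flr (vE F c k f l0 γ G')) (fun ω hω => by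
        unfold uvE
        rw [← hx ω hω i hi.le]) (fun ω ν _ _ e => by
        have b1 := congrFun e ⟨i, hi⟩
        unfold flr vE at b1
        simp only [Real.rpow_natCast]
        exact b1) (by
        push_cast
        linarith) hd
    refine a1.trans (le_trans ?_ hE1)
    have b1 : d₁ * Real.log 2 ≤ d₁ * 1 := mul_le_mul_of_nonneg_left hlg2' hd
    have : (0 : ℝ) ≤ C * Y := by positivity
    linarith
  · -- the near digits of the target
    have hdf : Pa f * J - ((γ (k + f) + (l0 + y) : ℕ) : ℝ) + X ≤ d₁ := by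
      rw [← hγ] at hPf
      push_cast
      linarith
    have a1 := ua_of (p := p) hp (n := nE F c (k + f) (l0 + y) γ G')
      (v := vE F c k f l0 γ G') (m := mE F k f Wm Km YM y mu)
      (fun ω => (⌊uR (nE F c (k + f) (l0 + y) γ G') (vE F c k f l0 γ G')
        (mE F k f Wm Km YM y mu) ω / 2 ^ X⌋, (flr (mE F k f Wm Km YM y mu) ω,
          ((fun i : Fin f => uvE F c k f w (H (fn 0)) Pw ω i.castSucc), F.W ω))))
      (D := 2 ^ (2 * C₂ * Y + Y + 2)) (R := 2 ^ X) (a := f * 3) (by positivity) (by positivity)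
      (fun ω ν _ _ e => (Prod.ext_iff.mp (Prod.ext_iff.mp e).2).1)
      (hva _ fun ω ν e i => congrFun (Prod.ext_iff.mp (Prod.ext_iff.mp (Prod.ext_iff.mp e).2).2).1 i)
      (fun ω ν hω hν e => hvw ω ν hω hν fun i =>
        congrFun (Prod.ext_iff.mp (Prod.ext_iff.mp (Prod.ext_iff.mp e).2).2).1 i)
      (fun ω ν _ _ e => by
        have b1 := fl_near (Prod.ext_iff.mp e).1
        rw [← sub_div, abs_div, abs_of_pos (by positivity : (0 : ℝ) < 2 ^ X),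
          div_le_one (by positivity)] at b1
        exact b1) (t := (2 : ℝ) ^ (Pa f * J - ((γ (k + f) + (l0 + y) : ℕ) : ℝ))) (by positivity)
    have a2 : CH p (fun ω => uvE F c k f w (H (fn 0)) Pa ω (Fin.last f))
        (fun ω => (⌊uR (nE F c (k + f) (l0 + y) γ G') (vE F c k f l0 γ G')
          (mE F k f Wm Km YM y mu) ω / 2 ^ X⌋, (flr (mE F k f Wm Km YM y mu) ω,
          ((fun i : Fin f => uvE F c k f w (H (fn 0)) Pw ω i.castSucc), F.W ω)))) ≤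
        CH p (fun ω => ⌊(2 : ℝ) ^ (Pa f * J - ((γ (k + f) + (l0 + y) : ℕ) : ℝ)) *
          nE F c (k + f) (l0 + y) γ G' ω⌋)
        (fun ω => (⌊uR (nE F c (k + f) (l0 + y) γ G') (vE F c k f l0 γ G')
          (mE F k f Wm Km YM y mu) ω / 2 ^ X⌋, (flr (mE F k f Wm Km YM y mu) ω,
          ((fun i : Fin f => uvE F c k f w (H (fn 0)) Pw ω i.castSucc), F.W ω)))) := by
      refine CH_mono_left h0 fun ω ν hω hν e => ?_
      have e1 := (Prod.ext_iff.mp e).1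
      have e2 : ∀ ω, 0 < p ω → ⌊(2 : ℝ) ^ (Pa f * J - ((γ (k + f) + (l0 + y) : ℕ) : ℝ)) *
          nE F c (k + f) (l0 + y) γ G' ω⌋ = uvE F c k f w (H (fn 0)) Pa ω (Fin.last f) := by
        intro ω hω
        unfold nE uvE
        rw [← mul_assoc, ← Real.rpow_natCast, ← Real.rpow_add two_pos, Fin.val_last,
          ← hx ω hω f le_rfl]
        congr 3
        ring
      rw [← e2 ω hω, ← e2 ν hν]
      exact e1
    refine a2.trans (a1.trans (le_trans ?_ hE2))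
    have a3 : (2 : ℝ) ^ (Pa f * J - ((γ (k + f) + (l0 + y) : ℕ) : ℝ)) * (2 ^ X +
        f * 2 ^ (2 * C₂ * Y + Y + 2)) ≤ 2 ^ ⌈d₁⌉₊ * (1 + f * 2 ^ (2 * C₂ * Y + Y + 2)) := by
      have b1 : (2 : ℝ) ^ (Pa f * J - ((γ (k + f) + (l0 + y) : ℕ) : ℝ)) * 2 ^ X ≤ 2 ^ ⌈d₁⌉₊ := by
        rw [← Real.rpow_natCast 2 X, ← Real.rpow_add two_pos, ← Real.rpow_natCast]
        exact Real.rpow_le_rpow_of_exponent_le (by norm_num) (hdf.trans (Nat.le_ceil d₁))
      have b2 : (2 : ℝ) ^ X + f * 2 ^ (2 * C₂ * Y + Y + 2) ≤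
          2 ^ X * (1 + f * 2 ^ (2 * C₂ * Y + Y + 2)) := by
        have c1 : (1 : ℝ) ≤ 2 ^ X := one_le_pow₀ (by norm_num)
        have c2 : (0 : ℝ) ≤ f * 2 ^ (2 * C₂ * Y + Y + 2) := by positivity
        nlinarith
      calc _ ≤ (2 : ℝ) ^ (Pa f * J - ((γ (k + f) + (l0 + y) : ℕ) : ℝ)) *
            (2 ^ X * (1 + f * 2 ^ (2 * C₂ * Y + Y + 2))) :=
          mul_le_mul_of_nonneg_left b2 (by positivity)
        _ = (2 : ℝ) ^ (Pa f * J - ((γ (k + f) + (l0 + y) : ℕ) : ℝ)) * 2 ^ X *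
            (1 + f * 2 ^ (2 * C₂ * Y + Y + 2)) := by ring
        _ ≤ _ := mul_le_mul_of_nonneg_right b1 (by positivity)
    have a4 := lg_pow (x := 2 * ((2 : ℝ) ^ (Pa f * J - ((γ (k + f) + (l0 + y) : ℕ) : ℝ)) *
      (2 ^ X + f * 2 ^ (2 * C₂ * Y + Y + 2)) + 1) + 1) (n := ⌈d₁⌉₊ + f + (2 * C₂ * Y + Y + 2) + 3)
      (by positivity) (by
        have b1 : (2 : ℝ) ^ (⌈d₁⌉₊ + f + (2 * C₂ * Y + Y + 2) + 3) =
            2 ^ ⌈d₁⌉₊ * (2 ^ f * 2 ^ (2 * C₂ * Y + Y + 2)) * 8 := by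
          rw [pow_add, pow_add, pow_add]
          ring
        have b2 : (1 : ℝ) ≤ 2 ^ ⌈d₁⌉₊ := one_le_pow₀ (by norm_num)
        have b3 : (1 : ℝ) ≤ 2 ^ f := one_le_pow₀ (by norm_num)
        have b4 : (1 : ℝ) ≤ 2 ^ (2 * C₂ * Y + Y + 2) := one_le_pow₀ (by norm_num)
        have b5 : (1 : ℝ) ≤ 2 ^ f * 2 ^ (2 * C₂ * Y + Y + 2) := one_le_mul_of_one_le_of_one_le b3 b4
        have b6 : (f : ℝ) * 2 ^ (2 * C₂ * Y + Y + 2) ≤ 2 ^ f * 2 ^ (2 * C₂ * Y + Y + 2) :=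
          mul_le_mul_of_nonneg_right hf2 (by positivity)
        have b7 : (2 : ℝ) ^ ⌈d₁⌉₊ * (1 + f * 2 ^ (2 * C₂ * Y + Y + 2)) ≤
            2 ^ ⌈d₁⌉₊ * (2 * (2 ^ f * 2 ^ (2 * C₂ * Y + Y + 2))) :=
          mul_le_mul_of_nonneg_left (by linarith) (by positivity)
        have b8 : (1 : ℝ) ≤ 2 ^ ⌈d₁⌉₊ * (2 ^ f * 2 ^ (2 * C₂ * Y + Y + 2)) :=
          one_le_mul_of_one_le_of_one_le b2 b5
        rw [b1]
        linarith)
    have a5 : (⌈d₁⌉₊ : ℝ) ≤ d₁ + 1 := (Nat.ceil_lt_add_one hd).le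
    have a6 : ((⌈d₁⌉₊ + f + (2 * C₂ * Y + Y + 2) + 3 : ℕ) : ℝ) =
        ⌈d₁⌉₊ + f + (2 * (C₂ * Y) + Y + 2) + 3 := by
      push_cast
      ring
    rw [a6] at a4
    linarith
  · -- the digits of the target from the heights
    have a1 := ub_of (p := p) hp (n := nE F c (k + f) (l0 + y) γ G')
      (v := vE F c k f l0 γ G') (m := mE F k f Wm Km YM y mu)
      (fun ω => (uvE F c k f w (H (fn 0)) Pw ω, (flr (mE F k f Wm Km YM y mu) ω, F.W ω)))
      (D := 2 ^ (2 * C₂ * Y + Y + 2)) (R := 1) (a := f * 3) (by positivity) (by positivity)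
      (fun ω ν _ _ e => (Prod.ext_iff.mp (Prod.ext_iff.mp e).2).1)
      (hva _ fun ω ν e i => congrFun (Prod.ext_iff.mp e).1 i.castSucc)
      (fun ω ν hω hν e => hvw ω ν hω hν fun i => congrFun (Prod.ext_iff.mp e).1 i.castSucc)
      (fun ω ν hω hν e => by
        have b1 := hdw ω ν hω hν f le_rfl (congrFun (Prod.ext_iff.mp e).1 (Fin.last f))
        unfold nE
        rw [← mul_sub, abs_mul, abs_of_pos (by positivity :
          (0 : ℝ) < 2 ^ (γ (k + f) + (l0 + y)))]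
        exact b1)
    refine a1.trans (le_trans ?_ hE2)
    have a4 := lg_pow (x := 2 * ((1 : ℝ) + f * 2 ^ (2 * C₂ * Y + Y + 2) + 1) + 1)
      (n := f + (2 * C₂ * Y + Y + 2) + 3) (by positivity) (by
        have b1 : (2 : ℝ) ^ (f + (2 * C₂ * Y + Y + 2) + 3) =
            2 ^ f * 2 ^ (2 * C₂ * Y + Y + 2) * 8 := by
          rw [pow_add, pow_add]
          norm_num
        have b3 : (1 : ℝ) ≤ 2 ^ f := one_le_pow₀ (by norm_num)
        have b4 : (1 : ℝ) ≤ 2 ^ (2 * C₂ * Y + Y + 2) := one_le_pow₀ (by norm_num)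
        have b5 : (1 : ℝ) ≤ 2 ^ f * 2 ^ (2 * C₂ * Y + Y + 2) := one_le_mul_of_one_le_of_one_le b3 b4
        have b6 : (f : ℝ) * 2 ^ (2 * C₂ * Y + Y + 2) ≤ 2 ^ f * 2 ^ (2 * C₂ * Y + Y + 2) :=
          mul_le_mul_of_nonneg_right hf2 (by positivity)
        rw [b1]
        linarith)
    push_cast at a4
    have a6 : 2 * (C₂ : ℝ) * Y = 2 * (C₂ * Y) := by ring
    rw [a6] at a4
    linarith

end Pool.RWE19
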