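import Pool.Agent.H19.RWE.Evr

/-!
# The row of a target over followers: one window

`wnt_at`: a window of the charts near a given one. `YP`: the number of digits lost. `row_key`: the row
of a target `n - ∑ m (v - S)` over a condition `Yc` giving the gradients, the paths `S` and the digits
of the followers.
-/

set_option autoImplicit false

namespace Pool.RWE19

open Finset Real MvPolynomial
open Pool.Agent.H49.Ent Pool.Agent.H32.Dense
open Pool.STK hiding pr2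
open Pool.KA Pool.KSAT Pool.K2S Pool.PB Pool.S6C
open Pool.GEN Pool.CHT Pool.CHX Pool.ISO Pool.LA91 Pool.AVG71 Pool.AVG5 Pool.D2F2 Pool.AVG57
open Pool.AVG66 Pool.RCD Pool.AVG96 Pool.OWN68 Pool.V0F Pool.V0S Pool.VW33
open Pool.AJW (CfB)
open Pool.T4C72 (WnT RadT)
open Pool.EN91 (wnt_n wnt_0 wnt_b fbox_frm fbox_wds)
open Pool.D2R (WinB hgt gnh hyb hybH hybH_deg)
open Pool.PB.Trl (rt rt_mem t_rt)
open Pool.XR71 (ch_jhv)

/-- A window of the charts near a given one. -/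
theorem wnt_at {k f : ℕ} {sn : ℕ → ℝ → ℝ} {G : Set ℝ} {al b w u Λ φ : ℝ} {N : ℕ} {C₀ Eb ηm : ℝ}
    {ow : ℕ → ℝ} {lv : ℕ → ℕ → ℝ} {fb fn : ℕ → ℕ} {nb n ks : ℕ}
    (T : WnT k f sn G al b w u Λ φ N C₀ Eb ηm ow lv fb fn nb n ks) {s : ℝ} (hs : 0 ≤ s)
    (hsu : s ≤ u) : ∃ t ≤ n, w + s - φ ≤ ow (fn t) ∧ ow (fn t) ≤ w + s := by
  by_contra hc
  push Not at hc
  have h1 : ∀ t ≤ n, ow (fn t) ≤ w + s := by
    intro t
    induction t with
    | zero =>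
      intro _
      rw [T.ow0]
      linarith
    | succ t ih =>
      intro ht
      have h2 := ih (by omega)
      have h3 : ow (fn t) < w + s - φ := by
        by_contra h4
        push Not at h4
        exact absurd h2 (not_le.2 (hc t (by omega) h4))
      have h4 := (T.ns t (by omega)).2
      linarith
  have h2 := h1 n le_rfl
  have h3 := (abs_le.1 T.on).1
  exact absurd h2 (not_le.2 (hc n le_rfl (by linarith)))

/-- The number of digits lost. -/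
noncomputable def YP (k Km : ℕ) (be u φ eK : ℝ) (J : ℕ) : ℕ :=
  ⌈((be + 2000 * ((k : ℝ) + 2) + 4) * φ + eK * u) * J⌉₊ + Km + 8

/-- A small number. -/
theorem small4 {a b c d : ℝ} (ha : 0 < a) (hb : 0 < b) (hc : 0 < c) (hd : 0 < d) {A B : ℝ}
    (hA : 0 < A) (hB : 0 < B) : ∃ x : ℝ, 0 < x ∧ x * a ≤ 1 ∧ x * b ≤ A ∧ x * c ≤ 1 ∧
      x * d ≤ B := by
  refine ⟨min (1 / a) (min (A / b) (min (1 / c) (B / d))), by positivity, ?_, ?_, ?_, ?_⟩
  · rw [← le_div_iff₀ ha]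
    exact min_le_left _ _
  · rw [← le_div_iff₀ hb]
    exact (min_le_right _ _).trans (min_le_left _ _)
  · rw [← le_div_iff₀ hc]
    exact (min_le_right _ _).trans ((min_le_right _ _).trans (min_le_left _ _))
  · rw [← le_div_iff₀ hd]
    exact (min_le_right _ _).trans ((min_le_right _ _).trans (min_le_right _ _))

theorem log5_le : Real.log 5 ≤ 2 := by
  rw [Real.log_le_iff_le_exp (by norm_num)]
  have h7 := Real.exp_one_gt_d9
  have h8 : Real.exp 2 = Real.exp 1 * Real.exp 1 := by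
    rw [← Real.exp_add]
    norm_num
  rw [h8]
  nlinarith

/-- The digits of the slope-one places. -/
theorem num_a {k Cr E U φ₀ δ : ℝ} (hk0 : 0 ≤ k) (hCr0 : 0 < Cr) (hE0 : 0 ≤ E) (hU0 : 0 ≤ U)
    (hδ : 0 < δ) (hφ₀ : 0 < φ₀) (hEU : E ≤ φ₀ * U) (p4 : φ₀ * (k * (3 * Cr + 11) + 1) ≤ δ / 16)
    (h4k : 4 * k ≤ δ * U / 128) :
    k * (((3 * Cr + 11) * E + 2) * Real.log 2 + Real.log 5) ≤ δ / 8 * U := by
  have hlg2 : Real.log 2 ≤ 1 := by
    have := Real.log_two_lt_d9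
    linarith
  have h1 : ((3 * Cr + 11) * E + 2) * Real.log 2 ≤ ((3 * Cr + 11) * E + 2) * 1 :=
    mul_le_mul_of_nonneg_left hlg2 (by positivity)
  have h2 : k * (((3 * Cr + 11) * E + 2) * Real.log 2 + Real.log 5) ≤
      k * ((3 * Cr + 11) * E + 4) := mul_le_mul_of_nonneg_left (by linarith [log5_le]) hk0
  have h3 : k * ((3 * Cr + 11) * E + 4) = k * (3 * Cr + 11) * E + 4 * k := by ring
  have h4 : k * (3 * Cr + 11) * E ≤ k * (3 * Cr + 11) * (φ₀ * U) :=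
    mul_le_mul_of_nonneg_left hEU (by positivity)
  have h5 := mul_le_mul_of_nonneg_right p4 hU0
  have h6 : φ₀ * (k * (3 * Cr + 11) + 1) * U = k * (3 * Cr + 11) * (φ₀ * U) + φ₀ * U := by ring
  rw [h6] at h5
  have h7 : 0 ≤ φ₀ * U := by positivity
  have h8 : δ / 16 * U = δ * U / 16 := by ring
  have h9 : δ / 8 * U = δ * U / 8 := by ring
  have h10 : 0 ≤ δ * U := by positivity
  linarith

/-- The sum of all errors. -/
theorem num_f {f CY A₀ Cr F₂ φ₀ δ U E eK Km CC M L av : ℝ} (hf0 : 0 ≤ f) (hCY0 : 0 ≤ CY)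
    (hA₀0 : 0 < A₀) (hCr0 : 0 < Cr) (hF₂0 : 0 < F₂) (hU0 : 0 ≤ U)
    (hδ : 0 < δ) (hEU : E ≤ φ₀ * U) (hKU' : eK * U ≤ φ₀ * U)
    (p2 : φ₀ * (1 + (f + 1) * Cr + F₂ * (CY * (A₀ + 1) + 1)) ≤ δ / 8)
    (hCY' : CC ≤ CY * (A₀ * E + eK * U + Km + 9))
    (hM : F₂ * (CY * (Km + 9) + f + 9) ≤ δ * U / 128) (hL : L ≤ δ * U / 128)
    (hav : av = δ / 8 * U) :
    M + (E + (f + 1) * (Cr * E) + δ * U / 8) + F₂ * (CC + f + E + 9) + 2 * av + av + L ≤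
      M + δ * U := by
  have k2 : F₂ * (CC + f + E + 9) ≤ F₂ * (CY * (A₀ * E + eK * U + Km + 9) + f + E + 9) :=
    mul_le_mul_of_nonneg_left (by linarith) hF₂0.le
  have k3 : F₂ * (CY * (A₀ * E + eK * U + Km + 9) + f + E + 9) =
      F₂ * (CY * (A₀ * E + eK * U) + E) + F₂ * (CY * (Km + 9) + f + 9) := by ring
  have k4 : F₂ * (CY * (A₀ * E + eK * U) + E) ≤
      F₂ * (CY * (A₀ * (φ₀ * U) + φ₀ * U) + φ₀ * U) := by
    refine mul_le_mul_of_nonneg_left ?_ hF₂0.le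
    have h2 : A₀ * E ≤ A₀ * (φ₀ * U) := mul_le_mul_of_nonneg_left hEU hA₀0.le
    have h3 : CY * (A₀ * E + eK * U) ≤ CY * (A₀ * (φ₀ * U) + φ₀ * U) :=
      mul_le_mul_of_nonneg_left (by linarith) hCY0
    linarith
  have k5 : (f + 1) * (Cr * E) ≤ (f + 1) * (Cr * (φ₀ * U)) :=
    mul_le_mul_of_nonneg_left (mul_le_mul_of_nonneg_left hEU hCr0.le) (by positivity)
  have k6 := mul_le_mul_of_nonneg_right p2 hU0
  have k7 : φ₀ * (1 + (f + 1) * Cr + F₂ * (CY * (A₀ + 1) + 1)) * U =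
      φ₀ * U + (f + 1) * (Cr * (φ₀ * U)) +
        F₂ * (CY * (A₀ * (φ₀ * U) + φ₀ * U) + φ₀ * U) := by ring
  rw [k7] at k6
  have k9 : δ / 8 * U = δ * U / 8 := by ring
  rw [k9] at k6 hav
  have k10 : 0 ≤ δ * U := by positivity
  linarith

/-- **The row of a target over followers at one window.** -/
theorem row_key (D k f Km A₁ : ℕ) {al be ξ nv h : ℝ} (hal : 1 ≤ al) (hab : al ≤ be) (hξ : 0 < ξ)
    (hξ1 : ξ ≤ 1) (hn2 : 1 + ξ ≤ 2 * nv) (hnb : (1 + ξ) * al ≤ nv * be) (hnv : nv ≤ 1 + ξ) {δ : ℝ}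
    (hδ : 0 < δ) : ∃ φ₀ : ℝ, 0 < φ₀ ∧
    ∀ {m : ℕ} {S : PCl m} {c : ℕ → Fin m} {sn sp : ℕ → ℝ → ℝ} {G : Set ℝ} {b o w u Λ φ e : ℝ}
      {lam : ℝ → ℝ}, FBox S c k f sn sp G al be h b o w u Λ φ e lam → 4 ≤ Λ → φ ≤ φ₀ * u →
    ∀ {eK π₀ : ℝ}, 0 ≤ eK → eK ≤ φ₀ → 0 < π₀ →
    ∀ {N : ℕ} {C₀ Eb ηm : ℝ} {ow : ℕ → ℝ} {lv : ℕ → ℕ → ℝ} {fb fn : ℕ → ℕ} {nb n ks : ℕ}
      {w₁ : ℚ}, w ≤ w₁ → (w₁ : ℝ) ≤ 1 →
    WnT k f sn G al b w u Λ φ N C₀ Eb ηm ow lv fb fn nb n ks →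
    ∀ {t : ℕ}, t ≤ n → w + nv * u / al - φ ≤ ow (fn t) → ow (fn t) ≤ w + nv * u / al →
    Bas S (fun J F A => ∀ {Dr M : ℕ} {a : ℝ} {η σ : ℕ → ℝ} {bb : ℕ → ℕ → ℝ} {κ : ℝ}
      {z : ℕ → ℕ → ℕ} {g₀ : ℕ → ℕ → ℕ} {Gc : ℕ → PtT F → ℕ → MvPolynomial (Option (Fin m)) ℝ}
      {H : ℕ → LnT F → ℕ → MvPolynomial (Option (Fin m)) ℝ} {Wm YM : ℕ}
      {mu : LnT F → ℕ → Polynomial ℝ},
      WinB F c (k + f) D Dr N M C₀ a Eb ηm ow η σ lv bb κ z A g₀ Gc H →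
      RadT nb n M J u ow fb fn z →
      (∀ l < k, CfB F ⌊b * J⌋₊ 1 (c l) A (fun s => s) (fun s => H (fb 0) s l)) →
      (∀ l, k ≤ l → l ≤ k + f → CfB F ⌊w * J⌋₊ 1 (c l) A (fun s => s)
        (fun s => H (fn 0) s l)) →
      Wm ≤ J →
      (∀ ω, A ω → ∀ l, k ≤ l → l < k + f →
        |gnh F c (k + f) (g₀ (fn 0)) (chE Gc k fb fn) (Gc (fn t)) ω l -
          (mcE F Wm Km YM mu l ω).eval (rt F Wm ω)| ≤
          2 ^ (A₁ * YP k Km be u φ eK J) / 2 ^ (qE k u φ J + ⌊ξ * u * J⌋₊ - ⌊nv * u * J⌋₊)) →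
      ∀ B : F.Ω → Prop, Sub B A → π₀ * Pe F.p A ≤ Pe F.p B →
      ∀ (T₄ : Type) (TV : F.Ω → ℝ) (Sx : F.Ω → Fin f → ℝ) (Yc : F.Ω → T₄),
      (∀ ω, B ω → 2 ^ ⌊ξ * u * J⌋₊ * TV ω =
        nE F c (k + f) (qE k u φ J + ⌊ξ * u * J⌋₊) (g₀ (fn 0)) (chE Gc k fb fn) ω -
          ∑ l : Fin f, mE F k f Wm Km YM (qE k u φ J + ⌊ξ * u * J⌋₊ - ⌊nv * u * J⌋₊) mu ω l *
            (vE F c k f ⌊nv * u * J⌋₊ (g₀ (fn 0)) (chE Gc k fb fn) ω l - Sx ω l)) →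
      Det (Pool.Agent.H49.Ent.cond F.p B True) Yc
        (mE F k f Wm Km YM (qE k u φ J + ⌊ξ * u * J⌋₊ - ⌊nv * u * J⌋₊) mu) →
      Det (Pool.Agent.H49.Ent.cond F.p B True) Yc Sx →
      Det (Pool.Agent.H49.Ent.cond F.p B True) Yc F.W →
      Det (Pool.Agent.H49.Ent.cond F.p B True) Yc (Vv F c k ⌊w * J⌋₊ (lbE H k fb fn b w)
        (fun l => ((g₀ (fn 0) l + qE k u φ J + ⌊ξ * u * J⌋₊ : ℕ) : ℝ))) →
      Det (Pool.Agent.H49.Ent.cond F.p B True) Yc (cR F A w₁) →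
      CH (Pool.Agent.H49.Ent.cond F.p B True)
        (flr (vE F c k f ⌊nv * u * J⌋₊ (g₀ (fn 0)) (chE Gc k fb fn))) Yc ≤ δ / 8 * (u * J) →
      CH (Pool.Agent.H49.Ent.cond F.p B True) (fun ω => ⌊(2 : ℝ) ^ ⌊ξ * u * J⌋₊ * TV ω⌋)
        (fun ω => (⌊TV ω⌋, Yc ω)) ≤ ((1 - h) * ξ * u * Real.log 2 + δ * u) * J) := by
  obtain ⟨C, hC, hev⟩ := ev_in D k f
  obtain ⟨Cf, hCf, hfr⟩ := fbox_frm D k
  have hk0 : (0 : ℝ) ≤ k := Nat.cast_nonneg k
  have hf0 : (0 : ℝ) ≤ f := Nat.cast_nonneg f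
  have hbe : 1 ≤ be := hal.trans hab
  obtain ⟨Cr, hCr⟩ : ∃ Cr : ℝ, Cr = 100 * ((k : ℝ) + f + 2) ^ 2 + 10 := ⟨_, rfl⟩
  have hCr0 : 0 < Cr := by rw [hCr]; positivity
  have hCr1 : 1 ≤ Cr := by
    rw [hCr]
    have : 0 ≤ 100 * ((k : ℝ) + f + 2) ^ 2 := by positivity
    linarith
  obtain ⟨A₀, hA₀⟩ : ∃ A₀ : ℝ, A₀ = be + 2000 * ((k : ℝ) + 2) + 4 := ⟨_, rfl⟩
  have hA₀0 : 0 < A₀ := by rw [hA₀]; positivity
  obtain ⟨CY, hCY⟩ : ∃ CY : ℝ, CY = C * ((Cf : ℝ) + A₁) := ⟨_, rfl⟩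
  have hCY0 : 0 ≤ CY := by rw [hCY]; positivity
  obtain ⟨F₂, hF₂⟩ : ∃ F₂ : ℝ, F₂ = ((f : ℝ) + 4) * (2 * f + 1) := ⟨_, rfl⟩
  have hF₂0 : 0 < F₂ := by rw [hF₂]; positivity
  obtain ⟨φ₀, hφ₀, p1, p2, p3, p4⟩ := small4 (a := 8 * (CY * (A₀ + 1)) + 1)
    (b := 1 + ((f : ℝ) + 1) * Cr + F₂ * (CY * (A₀ + 1) + 1))
    (c := 10 * (A₀ + 10 * Cr) + 10) (d := (k : ℝ) * (3 * Cr + 11) + 1) (by positivity)
    (by positivity) (by positivity) (by positivity) (A := δ / 8) (B := δ / 16) (by positivity)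
    (by positivity)
  refine ⟨φ₀, hφ₀, ?_⟩
  intro m S c sn sp G b o w u Λ φ e lam X hΛ hφ eK π₀ hK0 hK1 hπ N C₀ Eb ηm ow lv fb fn nb n ks
    w₁ hw₁ hw₂ T t ht hx1 hx2
  have hu := X.u0
  have hφ0 := X.lad.φ0
  have hb0 := X.lad.b0
  have hbw := X.bw
  have hwo := X.wo
  have ho1 := X.o1
  have hΛu : 4 * u ≤ Λ * u := mul_le_mul_of_nonneg_right hΛ hu.le
  have hw0 : 0 ≤ w := by linarith
  have hw1 : w ≤ 1 := by linarith
  have hbw' : b ≤ w := by linarith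
  have hal0 : 0 < al := by linarith
  have hnv0 : 1 / 2 ≤ nv := by linarith
  -- numbers without `J`
  have hφu : 10 * φ ≤ u := by
    have h1 : φ₀ * 10 ≤ 1 := by
      have : φ₀ * (10 * (A₀ + 10 * Cr) + 10) = φ₀ * (10 * (A₀ + 10 * Cr)) + φ₀ * 10 := by ring
      have h2 : 0 ≤ φ₀ * (10 * (A₀ + 10 * Cr)) := by positivity
      linarith
    have h2 := mul_le_mul_of_nonneg_right h1 hu.le
    linarith
  have hφC : (A₀ + 10 * Cr) * φ ≤ u / 10 := by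
    have h1 : φ₀ * (10 * (A₀ + 10 * Cr)) ≤ 1 := by
      have : φ₀ * (10 * (A₀ + 10 * Cr) + 10) = φ₀ * (10 * (A₀ + 10 * Cr)) + φ₀ * 10 := by ring
      have h2 : 0 ≤ φ₀ * 10 := by positivity
      linarith
    have h2 := mul_le_mul_of_nonneg_right h1 hu.le
    have h3 := mul_le_mul_of_nonneg_left hφ (by positivity : 0 ≤ A₀ + 10 * Cr)
    linarith
  have hyE : 500 * yE k φ = 2000 * (((k : ℝ) + 2) * φ) := by unfold yE; ring
  have hkφ : 0 ≤ ((k : ℝ) + 2) * φ := by positivity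
  have hkφ2 : 2 * φ ≤ ((k : ℝ) + 2) * φ := by
    have : 0 ≤ (k : ℝ) * φ := by positivity
    linarith
  have hyu : 500 * yE k φ ≤ A₀ * φ := by
    rw [hyE, hA₀]
    have h1 : (be + 2000 * ((k : ℝ) + 2) + 4) * φ = be * φ + 2000 * (((k : ℝ) + 2) * φ) + 4 * φ := by
      ring
    rw [h1]
    have : 0 ≤ be * φ := by positivity
    linarith
  have hCrφ : 0 ≤ Cr * φ := by positivity
  have hA₀φ : 0 ≤ A₀ * φ := by positivity
  have e5 : (A₀ + 10 * Cr) * φ = A₀ * φ + 10 * (Cr * φ) := by ring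
  rw [e5] at hφC
  have hyE0 : 0 ≤ 500 * yE k φ := by rw [hyE]; positivity
  have hξu : 0 < ξ * u := mul_pos hξ hu
  have hξu1 : ξ * u ≤ u := mul_le_of_le_one_left hu.le hξ1
  have hnu : u / 2 ≤ nv * u := by
    have := mul_le_mul_of_nonneg_right hnv0 hu.le
    linarith
  have hnu1 : nv * u ≤ u + ξ * u := by
    have := mul_le_mul_of_nonneg_right hnv hu.le
    linarith
  have hdiv : nv * u / al ≤ nv * u := div_le_self (by linarith) hal
  have hxw : w ≤ ow (fn t) := (wnt_0 T ht).1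
  have hxG : ow (fn t) ∈ G := T.nG t ht
  have hxa : al * (ow (fn t) - w) ≤ nv * u := by
    have h1 := mul_le_mul_of_nonneg_left hx2 hal0.le
    have h2 : al * (w + nv * u / al) = al * w + nv * u := by field_simp
    linarith
  have hxa' : nv * u - al * φ ≤ al * (ow (fn t) - w) := by
    have h1 := mul_le_mul_of_nonneg_left hx1 hal0.le
    have h2 : al * (w + nv * u / al - φ) = al * w + nv * u - al * φ := by field_simp
    linarith
  have hxb : u + ξ * u - be * φ ≤ be * (ow (fn t) - w) := by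
    have h1 := mul_le_mul_of_nonneg_left hx1 (by linarith : (0 : ℝ) ≤ be)
    have h2 : be * (w + nv * u / al - φ) = be * w + nv * be * u / al - be * φ := by field_simp
    have h3 : (1 + ξ) * u ≤ nv * be * u / al := by
      rw [le_div_iff₀ hal0]
      have := mul_le_mul_of_nonneg_right hnb hu.le
      linarith
    linarith
  have hηm : ∀ {J : ℕ} {F : Fam m J} {A : F.Ω → Prop} {Dr M : ℕ} {a : ℝ} {η σ : ℕ → ℝ}
      {bb : ℕ → ℕ → ℝ} {κ : ℝ} {z : ℕ → ℕ → ℕ} {g₀ : ℕ → ℕ → ℕ}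
      {Gc : ℕ → PtT F → ℕ → MvPolynomial (Option (Fin m)) ℝ}
      {H : ℕ → LnT F → ℕ → MvPolynomial (Option (Fin m)) ℝ},
      WinB F c (k + f) D Dr N M C₀ a Eb ηm ow η σ lv bb κ z A g₀ Gc H → ηm ≤ φ := by
    intro J F A Dr M a η σ bb κ z g₀ Gc H W
    have hη0 : 0 ≤ ηm := (W.hη _ (T.fnN 0 (Nat.zero_le n))).1.trans
      (W.hη _ (T.fnN 0 (Nat.zero_le n))).2
    exact (le_mul_of_one_le_left hη0 W.C1).trans T.C0
  -- the class theorem
  obtain ⟨s₂, hs₂⟩ : ∃ s₂ : ℝ, s₂ = u + 500 * yE k φ + ξ * u := ⟨_, rfl⟩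
  have hε : 0 < δ * u / 8 := by positivity
  obtain ⟨e₀, he₀, Hcl⟩ := row_box X (by linarith) hφu (s₀ := nv * u) (s₁ := u + 500 * yE k φ)
    (s₂ := s₂) (Cr := Cr) (x := ow (fn t)) (w₁ := w₁) (by rw [hCr]; linarith) hxG hxw
    (by rw [hs₂]; linarith) (by
      have e4 : (Cr - 1) * φ = Cr * φ - φ := by ring
      have e6 : φ ≤ Cr * φ := le_mul_of_one_le_left hφ0.le hCr1
      rw [e4]
      linarith) (by linarith) (by rw [hs₂]; linarith) (by linarith) (by rw [hs₂]; linarith)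
    (by rw [hs₂]; linarith) hw₁ hw₂ hπ hε
  obtain ⟨Ma, Ja, hMa⟩ := ld_jh m D k (fun l => nVr sn w s₂ Cr φ l) (b := b) (E := 1) hb0
    (by linarith)
  obtain ⟨Mb, Jb, hMb⟩ := qtg_uv m D k f (PaE k f sn w (nv * u) (u + 500 * yE k φ)) (E := 1) hw0
    hw1
  obtain ⟨Mc, Jc, hMc⟩ := qtg_uv m D k f (PwE k sn w s₂) (E := 1) hw0 hw1
  obtain ⟨K, hK⟩ : ∃ K : ℕ, K = Ma + Mb + Mc := ⟨_, rfl⟩
  -- large `J`
  obtain ⟨κ₀, hκ₀⟩ : ∃ κ₀ : ℝ, κ₀ = min φ (min (u / 32) (δ * u / 128)) := ⟨_, rfl⟩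
  have hκ0 : 0 < κ₀ := by
    rw [hκ₀]
    exact lt_min hφ0 (lt_min (by positivity) (by positivity))
  obtain ⟨Bn, hBn⟩ : ∃ Bn : ℝ, Bn = (nb : ℝ) + n + CY * (Km + 9) + F₂ * (CY * (Km + 9) + f + 9) +
      4 * k + 2 * Real.log (2 * ((f : ℝ) + 2) + 1) + 4 := ⟨_, rfl⟩
  have hlf : 0 ≤ Real.log (2 * ((f : ℝ) + 2) + 1) := Real.log_nonneg (by linarith)
  obtain ⟨Jd, hJd⟩ := exists_nat_gt (Bn / κ₀)
  refine Bas.mono (Ja + Jb + Jc + Jd + 1) ((Hcl K).and (pos_bas X.lad.pos)) ?_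
  rintro J hJ F A ⟨H1, hA⟩ Dr M a η σ bb κ z g₀ Gc H Wm YM mu W R hcb hcn hWm hKE B hB hm T₄ TV Sx
    Yc hTV hYm hYS hYW hYV hYR hav
  have hPB : 0 < Pe F.p B := lt_of_lt_of_le (mul_pos hπ hA) hm
  have hcl := isLaw_cond F.isLaw hPB
  have h0 := hcl.nonneg
  have hpB : ∀ ω, 0 < Pool.Agent.H49.Ent.cond F.p B True ω → B ω := fun ω hω => cond_pos hω
  have hpA : ∀ ω, 0 < Pool.Agent.H49.Ent.cond F.p B True ω → A ω := fun ω hω => hB ω (hpB ω hω)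
  have hJ0 : (0 : ℝ) ≤ J := Nat.cast_nonneg J
  have hJ1 : 0 < J := by omega
  have hBJ : Bn ≤ κ₀ * J := by
    have a1 : (Jd : ℝ) ≤ J := by
      have : Jd ≤ J := by omega
      exact_mod_cast this
    have a2 := hJd.le.trans a1
    rw [div_le_iff₀ hκ0] at a2
    linarith
  -- the letters
  have h2R : ∀ n : ℕ, (n : ℝ) ≤ 2 ^ n := fun n => by exact_mod_cast Nat.lt_two_pow_self.le
  have hηφ := hηm W
  have hfb := T.fbN 0 (Nat.zero_le nb)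
  have hfn := T.fnN 0 (Nat.zero_le n)
  have hη0 : 0 ≤ ηm := (W.hη _ hfn).1.trans (W.hη _ hfn).2
  have hlf' : 0 ≤ 2 * Real.log (2 * ((f : ℝ) + 2) + 1) := by linarith
  have hg1 : 0 ≤ CY * ((Km : ℝ) + 9) := by positivity
  have hg2 : 0 ≤ F₂ * (CY * ((Km : ℝ) + 9) + f + 9) := by positivity
  have hnb0 : (0 : ℝ) ≤ nb := Nat.cast_nonneg nb
  have hn0 : (0 : ℝ) ≤ n := Nat.cast_nonneg n
  have hκ1 : κ₀ * J ≤ φ * J := mul_le_mul_of_nonneg_right (by rw [hκ₀]; exact min_le_left _ _) hJ0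
  have hκ2 : κ₀ * J ≤ u / 32 * J := mul_le_mul_of_nonneg_right (by
    rw [hκ₀]; exact (min_le_right _ _).trans (min_le_left _ _)) hJ0
  have hκ3 : κ₀ * J ≤ δ * u / 128 * J := mul_le_mul_of_nonneg_right (by
    rw [hκ₀]; exact (min_le_right _ _).trans (min_le_right _ _)) hJ0
  obtain ⟨E, hE⟩ : ∃ E : ℝ, E = φ * J := ⟨_, rfl⟩
  obtain ⟨U, hU⟩ : ∃ U : ℝ, U = u * J := ⟨_, rfl⟩
  have hE0 : 0 ≤ E := by rw [hE]; positivity
  have hU0 : 0 ≤ U := by rw [hU]; positivity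
  have hκ1' : κ₀ * J ≤ E := by rw [hE]; exact hκ1
  have hκ2' : κ₀ * J ≤ U / 32 := by
    have : u / 32 * (J : ℝ) = U / 32 := by rw [hU]; ring
    rwa [this] at hκ2
  have hκ3' : κ₀ * J ≤ δ * U / 128 := by
    have : δ * u / 128 * (J : ℝ) = δ * U / 128 := by rw [hU]; ring
    rwa [this] at hκ3
  have hE4 : 4 ≤ E := by linarith
  have h4k : 4 * (k : ℝ) ≤ δ * U / 128 := by linarith
  have hBM : F₂ * (CY * ((Km : ℝ) + 9) + f + 9) ≤ δ * U / 128 := by linarith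
  have hBL : 2 * Real.log (2 * ((f : ℝ) + 2) + 1) ≤ δ * U / 128 := by linarith
  obtain ⟨P, hP⟩ : ∃ P : ℝ, P = ((k : ℝ) + 2) * E := ⟨_, rfl⟩
  have hP0 : 2 * E ≤ P := by
    have : 0 ≤ (k : ℝ) * E := by positivity
    rw [hP]
    linarith
  have hyJ : 500 * yE k φ * J = 2000 * P := by rw [hyE, hP, hE]; ring
  obtain ⟨q, hq⟩ : ∃ q : ℕ, q = qE k u φ J := ⟨_, rfl⟩
  obtain ⟨Xn, hXn⟩ : ∃ Xn : ℕ, Xn = ⌊ξ * u * J⌋₊ := ⟨_, rfl⟩
  obtain ⟨l0, hl0⟩ : ∃ l0 : ℕ, l0 = ⌊nv * u * J⌋₊ := ⟨_, rfl⟩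
  obtain ⟨y, hy⟩ : ∃ y : ℕ, y = q + Xn - l0 := ⟨_, rfl⟩
  obtain ⟨Y₀, hY₀⟩ : ∃ Y₀ : ℕ, Y₀ = YP k Km be u φ eK J := ⟨_, rfl⟩
  rw [← hq, ← hXn, ← hl0, ← hy, ← hY₀] at hKE
  rw [← hq, ← hXn, ← hl0, ← hy] at hTV hYm
  rw [← hq, ← hXn] at hYV
  rw [← hl0] at hav
  rw [← hXn]
  have q1 : (q : ℝ) ≤ U + 2000 * P := by
    have h1 : (q : ℝ) ≤ (u + 500 * yE k φ) * J := by
      rw [hq]
      exact Nat.floor_le (by positivity)
    have h2 : (u + 500 * yE k φ) * (J : ℝ) = U + 500 * yE k φ * J := by rw [hU]; ring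
    rwa [h2, hyJ] at h1
  have q2 : U + 2000 * P < q + 1 := by
    have h1 : (u + 500 * yE k φ) * J < q + 1 := by
      rw [hq]
      exact Nat.lt_floor_add_one _
    have h2 : (u + 500 * yE k φ) * (J : ℝ) = U + 500 * yE k φ * J := by rw [hU]; ring
    rwa [h2, hyJ] at h1
  have hξU : 0 ≤ ξ * U := by positivity
  have X1 : (Xn : ℝ) ≤ ξ * U := by
    rw [hXn, hU, ← mul_assoc]
    exact Nat.floor_le (by positivity)
  have X2 : ξ * U < Xn + 1 := by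
    rw [hXn, hU, ← mul_assoc]
    exact Nat.lt_floor_add_one _
  have L1 : (l0 : ℝ) ≤ nv * U := by
    rw [hl0, hU, ← mul_assoc]
    exact Nat.floor_le (by positivity)
  have L2 : nv * U < l0 + 1 := by
    rw [hl0, hU, ← mul_assoc]
    exact Nat.lt_floor_add_one _
  have hnU : nv * U ≤ U + ξ * U := by
    have := mul_le_mul_of_nonneg_right hnv hU0
    linarith
  have hnU2 : U + ξ * U ≤ 2 * (nv * U) := by
    have := mul_le_mul_of_nonneg_right hn2 hU0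
    linarith
  have hnU3 : U / 2 ≤ nv * U := by
    have := mul_le_mul_of_nonneg_right hnv0 hU0
    linarith
  have hly : l0 + y = q + Xn := by
    have h1 : (l0 : ℝ) ≤ ((q + Xn : ℕ) : ℝ) := by
      push_cast
      linarith
    have h2 : l0 ≤ q + Xn := by exact_mod_cast h1
    omega
  have hlyR : (l0 : ℝ) + y = q + Xn := by exact_mod_cast hly
  -- the number of digits lost
  have hbeE : 0 ≤ be * E := by positivity
  have hKU : 0 ≤ eK * U := by positivity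
  have Y1 : be * E + 2000 * P + 4 * E + eK * U + Km + 8 ≤ Y₀ := by
    have h1 := Nat.le_ceil (((be + 2000 * ((k : ℝ) + 2) + 4) * φ + eK * u) * J)
    have h2 : ((be + 2000 * ((k : ℝ) + 2) + 4) * φ + eK * u) * (J : ℝ) =
        be * E + 2000 * P + 4 * E + eK * U := by rw [hP, hE, hU]; ring
    rw [h2] at h1
    rw [hY₀]
    unfold YP
    push_cast
    rw [h2]
    linarith
  have Y2 : (Y₀ : ℝ) ≤ A₀ * E + eK * U + Km + 9 := by
    have h2 : ((be + 2000 * ((k : ℝ) + 2) + 4) * φ + eK * u) * (J : ℝ) =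
        be * E + 2000 * P + 4 * E + eK * U := by rw [hP, hE, hU]; ring
    have h1 := (Nat.ceil_lt_add_one (by
      rw [h2]
      linarith : 0 ≤ ((be + 2000 * ((k : ℝ) + 2) + 4) * φ + eK * u) * (J : ℝ))).le
    have h3 : A₀ * E = be * E + 2000 * P + 4 * E := by rw [hA₀, hP]; ring
    rw [hY₀, h3]
    unfold YP
    push_cast
    rw [h2] at h1 ⊢
    linarith
  obtain ⟨Y, hY⟩ : ∃ Y : ℕ, Y = (Cf + A₁) * Y₀ := ⟨_, rfl⟩
  have hYY : Y₀ ≤ Y := by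
    rw [hY]
    exact Nat.le_mul_of_pos_left _ (by omega)
  have hYYR : (Y₀ : ℝ) ≤ Y := by exact_mod_cast hYY
  have hKm0 : (0 : ℝ) ≤ Km := Nat.cast_nonneg Km
  have hY8 : (8 : ℝ) ≤ Y₀ := by linarith
  have hY8' : 8 ≤ Y₀ := by exact_mod_cast hY8
  have hCY' : (C : ℝ) * Y ≤ CY * (A₀ * E + eK * U + Km + 9) := by
    have h1 : (C : ℝ) * Y = CY * Y₀ := by
      rw [hY, hCY]
      push_cast
      ring
    rw [h1]
    exact mul_le_mul_of_nonneg_left Y2 hCY0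
  -- sizes
  have hEU : E ≤ φ₀ * U := by
    have := mul_le_mul_of_nonneg_right hφ hJ0
    rw [hE, hU, ← mul_assoc]
    exact this
  have hKU' : eK * U ≤ φ₀ * U := mul_le_mul_of_nonneg_right hK1 hU0
  have s1 : CY * (A₀ * E + eK * U + Km + 9) ≤ U / 8 + CY * (Km + 9) := by
    have h1 : CY * (A₀ * E + eK * U + Km + 9) = CY * (A₀ * E) + CY * (eK * U) + CY * (Km + 9) := by
      ring
    have h2 : CY * (A₀ * E) ≤ CY * (A₀ * (φ₀ * U)) :=
      mul_le_mul_of_nonneg_left (mul_le_mul_of_nonneg_left hEU hA₀0.le) hCY0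
    have h3 : CY * (eK * U) ≤ CY * (φ₀ * U) := mul_le_mul_of_nonneg_left hKU' hCY0
    have h4 : φ₀ * (8 * (CY * (A₀ + 1)) + 1) = 8 * (φ₀ * (CY * (A₀ + 1))) + φ₀ := by ring
    have h5 := mul_le_mul_of_nonneg_right (show 8 * (φ₀ * (CY * (A₀ + 1))) ≤ 1 by linarith) hU0
    have h6 : 8 * (φ₀ * (CY * (A₀ + 1))) * U = 8 * (CY * (A₀ * (φ₀ * U)) + CY * (φ₀ * U)) := by
      ring
    rw [h6] at h5
    rw [h1]
    linarith
  have hCl : C * Y ≤ l0 := by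
    have h1 : ((C * Y : ℕ) : ℝ) ≤ l0 := by
      push_cast
      linarith
    exact_mod_cast h1
  have hEY : E ≤ Y₀ := by linarith
  have hηJ : ηm * J ≤ E := by
    rw [hE]
    exact mul_le_mul_of_nonneg_right hηφ hJ0
  have hCη : C₀ * (ηm * J) ≤ Y₀ := by
    have h1 := mul_le_mul_of_nonneg_right T.C0 hJ0
    have h2 : C₀ * ηm * (J : ℝ) = C₀ * (ηm * J) := by ring
    rw [h2, ← hE] at h1
    linarith
  -- the frame and the windows
  obtain ⟨κ', hF⟩ := hfr X (by linarith) T W R (Y := Y₀) hCη (by omega) (by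
    refine le_trans ?_ (h2R Y₀)
    linarith) (by
    rw [← hE]
    linarith)
  have hF : Frm F c k (k + f) D Y A (Gc (fn 0)) (g₀ (fn 0)) ⌊ow (fn 0) * J⌋₊ (chE Gc k fb fn) κ' :=
    hF.mono (by
      rw [hY]
      exact Nat.mul_le_mul_right Y₀ (Nat.le_add_right Cf A₁))
  obtain ⟨jj, V⟩ := fbox_wds X (by linarith) (by linarith) T R (Y := Y) (by
    refine le_trans ?_ (h2R Y)
    linarith) (by
    rw [← hE]
    have : (be + 4) * E = be * E + 4 * E := by ring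
    rw [this]
    linarith)
  have V := V.le ht
  have hxJ : ∀ s : ℝ, s * ((ow (fn t) - ow (fn 0)) * J) = s * (ow (fn t) - w) * J := fun s => by
    rw [T.ow0]
    ring
  have hxa1 : al * (ow (fn t) - w) * J ≤ nv * U := by
    have := mul_le_mul_of_nonneg_right hxa hJ0
    have h1 : nv * u * (J : ℝ) = nv * U := by rw [hU]; ring
    linarith
  have halE : al * E ≤ be * E := mul_le_mul_of_nonneg_right hab hE0
  have hxa2 : nv * U - be * E ≤ al * (ow (fn t) - w) * J := by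
    have := mul_le_mul_of_nonneg_right hxa' hJ0
    have h1 : (nv * u - al * φ) * (J : ℝ) = nv * U - al * E := by rw [hU, hE]; ring
    linarith
  have hxb1 : U + ξ * U - be * E ≤ be * (ow (fn t) - w) * J := by
    have := mul_le_mul_of_nonneg_right hxb hJ0
    have h1 : (u + ξ * u - be * φ) * (J : ℝ) = U + ξ * U - be * E := by rw [hU, hE]; ring
    linarith
  have g1 : ∀ l ≤ k + f, sn l w * J - E ≤ g₀ (fn 0) l ∧ (g₀ (fn 0) l : ℝ) ≤ sn l w * J := by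
    intro l hl
    obtain ⟨-, -, h1, h2⟩ := W.g_num hfn hl
    rw [T.lv _ hfn l hl, T.ow0] at h1 h2
    exact ⟨by linarith, h2⟩
  have hs2J : s₂ * J = U + 2000 * P + ξ * U := by
    have h1 : s₂ * (J : ℝ) = u * J + 500 * yE k φ * J + ξ * (u * J) := by rw [hs₂]; ring
    rw [h1, hyJ, ← hU]
  have hs1J : (u + 500 * yE k φ) * J = U + 2000 * P := by
    have h1 : (u + 500 * yE k φ) * (J : ℝ) = u * J + 500 * yE k φ * J := by ring
    rw [h1, hyJ, ← hU]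
  have hCrE : 0 ≤ Cr * E := by positivity
  have hV3 : ∀ l, nVr sn w s₂ Cr φ l * J = sn l w * J + (U + 2000 * P + ξ * U) +
      (3 * (Cr * E) + 10 * E) := by
    intro l
    unfold nVr
    have h1 : (sn l w + s₂ + (3 * Cr + 10) * φ) * (J : ℝ) = sn l w * J + s₂ * J +
      (3 * (Cr * (φ * J)) + 10 * (φ * J)) := by ring
    rw [h1, hs2J, ← hE]
  obtain ⟨v1, v2, v3, v4⟩ := hev W (κ' := κ') (fb := fb) (fn := fn) (jj := jj) (t := t) (l0 := l0)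
    (y := y) (Y := Y) (X := Xn) (Wm := Wm) (Km := Km) (YM := YM) (al := al) (be := be) (b := b)
    (w := w) (mu := mu) (nV := fun l => nVr sn w s₂ Cr φ l)
    (Pa := PaE k f sn w (nv * u) (u + 500 * yE k φ)) (Pw := PwE k sn w s₂) (d₁ := E + 2)
    (p := Pool.Agent.H49.Ent.cond F.p B True) hF X.lad.inj V (by linarith) (by omega) hCl (by
      rw [hxJ]
      linarith) (by
      rw [hxJ]
      linarith) (by
      rw [hxJ]
      linarith) (by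
      have h1 : (y : ℝ) ≤ ((l0 + Y : ℕ) : ℝ) := by
        push_cast
        linarith
      exact_mod_cast h1) hfb hfn T.ob T.ow0 hbw' hw1 hWm (fun ω hω l h1 h2 => (hKE ω hω l h1
        h2).trans (div_le_div_of_nonneg_right (pow_le_pow_right₀ (by norm_num) (by
          rw [hY]
          exact Nat.mul_le_mul_right Y₀ (Nat.le_add_left A₁ Cf))) (by positivity)))
    (by linarith) (fun j hj => by
      have h1 := (g1 j (by omega)).2
      rw [hV3]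
      push_cast
      linarith) (fun i hi => by
      have h1 := (g1 (k + i) (by omega)).1
      unfold PaE
      rw [if_pos hi]
      have h2 : (sn (k + i) w + nv * u) * (J : ℝ) = sn (k + i) w * J + nv * (u * J) := by ring
      rw [h2, ← hU]
      linarith) (by
      have h1 := (g1 (k + f) le_rfl).1
      unfold PaE
      rw [if_neg (lt_irrefl f), add_mul, hs1J]
      linarith) (fun i hi => by
      have h1 := (g1 (k + i) (by omega)).2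
      unfold PwE
      rw [add_mul, hs2J]
      push_cast
      linarith) hcl hpA
  rw [← hly] at hTV
  obtain ⟨n', hn'⟩ : ∃ n' : F.Ω → ℝ, n' = nE F c (k + f) (l0 + y) (g₀ (fn 0)) (chE Gc k fb fn) :=
    ⟨_, rfl⟩
  obtain ⟨v', hv'⟩ : ∃ v' : F.Ω → Fin f → ℝ, v' = vE F c k f l0 (g₀ (fn 0)) (chE Gc k fb fn) :=
    ⟨_, rfl⟩
  obtain ⟨m', hm'⟩ : ∃ m' : F.Ω → Fin f → ℝ, m' = mE F k f Wm Km YM y mu := ⟨_, rfl⟩
  rw [← hn', ← hv', ← hm'] at v1 v3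
  rw [← hv'] at v2 hav
  rw [← hn', ← hm'] at v4
  rw [← hv'] at v4
  rw [← hm'] at hYm
  have hTV' : ∀ ω, B ω → 2 ^ Xn * TV ω = n' ω - ∑ l : Fin f, m' ω l * (v' ω l - Sx ω l) := by
    intro ω hω
    rw [hn', hv', hm']
    exact hTV ω hω
  -- the record and the labels
  have hww : ow (fn 0) ≤ ow (fn t) := by rw [T.ow0]; exact hxw
  have hx1' : ow (fn t) ≤ 1 := by linarith
  have hCl2 := cl_cch W hfb hfn (T.fnN t ht) (by rw [T.ob]; linarith) hww hx1' hB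
  have hLD := ldk_of W hfb hfn (Nat.le_add_right k f) (φ := φ) (E := 1) (sn := sn) (by
    rw [T.ob, T.ow0]
    exact hbw') (by
    rw [T.ow0]
    exact hw1) T.C0 (fun l hl => T.lv _ hfb l hl) (fun l hl => T.lv _ hfn l hl) (by
    rw [T.ob]
    exact hcb) (by
    rw [T.ow0]
    exact hcn k le_rfl (Nat.le_add_right k f))
  rw [T.ob, T.ow0] at hLD
  have hLbn : ∀ l, k ≤ l → l ≤ k + f → ∃ (V : Type) (z : PtT F → V) (z' : LnT F → V)
      (g : V → MvPolynomial (Option (Fin m)) ℝ),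
      Pool.GRD.LbP F ((range l).image c) (c l) D J ⌊w * J⌋₊ ⌊(sn l w - φ) * J⌋₊ A z z' g ∧
        ∀ s, g (z' s) = H (fn 0) s l := by
    intro l _ hl
    have h1 := lbn_of W hfn (φ := φ) (sn := sn) T.C0 (fun l hl => T.lv _ hfn l hl) l hl
    rw [T.ow0] at h1
    exact h1
  obtain ⟨r1, r2⟩ := H1 (jh F c k ⌊w * J⌋₊ (lbE H k fb fn b w) (fun l => nVr sn w s₂ Cr φ l))
    (uvE F c k f w (H (fn 0)) (PaE k f sn w (nv * u) (u + 500 * yE k φ)))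
    (uvE F c k f w (H (fn 0)) (PwE k sn w s₂)) (hMa K (by omega) J (by omega) hLD e₀ he₀.le)
    (hMb K (by omega) J (by omega) hLbn hcn e₀ he₀.le)
    (hMc K (by omega) J (by omega) hLbn hcn e₀ he₀.le) B hB hm
  have hdet : Det (Pool.Agent.H49.Ent.cond F.p B True) (fun ω => ⌊uR n' v' m' ω⌋)
      (fun ω => ⌊uR n' v' m' ω / 2 ^ Xn⌋) := by
    intro ω ν _ _ e
    have h1 : ∀ x : ℝ, ⌊x / 2 ^ Xn⌋ = ⌊x⌋ / ((2 ^ Xn : ℕ) : ℤ) := fun x => by
      rw [← Int.floor_div_natCast]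
      push_cast
      rfl
    show ⌊uR n' v' m' ω / 2 ^ Xn⌋ = ⌊uR n' v' m' ν / 2 ^ Xn⌋
    rw [h1, h1]
    exact congrArg (fun x : ℤ => x / ((2 ^ Xn : ℕ) : ℤ)) e
  have key := r2 _ _ _ _ _ (fun ω => ⌊uR n' v' m' ω / 2 ^ Xn⌋) (fun ω => ⌊uR n' v' m' ω⌋)
    (flr v') (flr m') (Cch F (k + f) (chE Gc k fb fn) (Gc (fn t)))
    ((2 * f + 1) * (C * Y + f + (E + 2) + 7)) hCl2 hdet v1 v2 v3 v4
  -- the digits of the slope-one places
  have hdg := ch_jhv (c := c) (k := k) (w := w) (H := lbE H k fb fn b w) hcl hJ1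
    (n := fun l => nVr sn w s₂ Cr φ l) (N := fun l => g₀ (fn 0) l + q + Xn)
    (d := (3 * Cr + 11) * E + 2) (fun l hl => by
      have h1 := (g1 l (by omega)).1
      rw [hV3]
      push_cast
      linarith only [h1, q2, X2]) (by positivity)
  have hdk : (k : ℝ) * (((3 * Cr + 11) * E + 2) * Real.log 2 + Real.log 5) ≤ δ / 8 * U :=
    num_a hk0 hCr0 hE0 hU0 hδ hφ₀ hEU p4 h4k
  -- the row of the target
  have hfin := row_gen hcl (n := n') (v := v') (m := m') (S := Sx) (TV := TV) (X := Xn)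
    (u := jh F c k ⌊w * J⌋₊ (lbE H k fb fn b w) (fun l => nVr sn w s₂ Cr φ l))
    (z := cR F B w) (W := F.W) (Y := Yc) (a := δ / 8 * U) (av := δ / 8 * U)
    (fun ω hω => hTV' ω (hpB ω hω)) hYm hYS hYW (by rw [hU]; exact hav)
    (((CH_mono_cond h0 fun ω ν hω hν e => hYV ω ν hω hν e).trans hdg).trans hdk)
    (((CH_mono_cond h0 fun ω ν hω hν e => hYR ω ν hω hν e).trans r1).trans (le_of_eq (by
      rw [hU]
      ring))) key
  refine hfin.trans ?_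
  have k1 : (((1 - h) * (s₂ - (u + 500 * yE k φ)) * Real.log 2 + φ + ((f : ℝ) + 1) * (Cr * φ) +
      δ * u / 8) * J + ((f : ℝ) + 4) * ((2 * f + 1) * (C * Y + f + (E + 2) + 7))) =
      (1 - h) * ξ * u * Real.log 2 * J + (E + ((f : ℝ) + 1) * (Cr * E) + δ * U / 8) +
        F₂ * (C * Y + f + E + 9) := by
    rw [hs₂, hF₂, hE, hU]
    ring
  have k8 : ((1 - h) * ξ * u * Real.log 2 + δ * u) * (J : ℝ) =
      (1 - h) * ξ * u * Real.log 2 * J + δ * U := by rw [hU]; ring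
  rw [k1, k8]
  exact num_f hf0 hCY0 hA₀0 hCr0 hF₂0 hU0 hδ hEU hKU' p2 hCY' hBM hBL rfl

end Pool.RWE19
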