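import Pool.Agent.H19.RWE.Dg
import Pool.Agent.H33.VW.S

/-!
# The row of a target over followers: the letters of one event

`vE`, `mE`, `nE`, `sE`: the heights of the followers, their gradients, the height of the target and
the rounded paths, in units. `tve_eq`: the value of the target. `ve_se`, `det_me`, `det_se`: the
followers are near their rounded paths, which are functions of the side path and the time.
-/

set_option autoImplicit false

namespace Pool.RWE19

open Finset Real MvPolynomial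
open Pool.Agent.H49.Ent Pool.Agent.H32.Dense
open Pool.STK hiding pr2
open Pool.KA Pool.KSAT Pool.K2S Pool.PB Pool.S6C
open Pool.GEN Pool.CHT Pool.CHX Pool.ISO Pool.LA91 Pool.AVG71 Pool.AVG5 Pool.D2F2 Pool.AVG57
open Pool.AVG66 Pool.RCD Pool.AVG96 Pool.V0F Pool.V0S
open Pool.D2R (WinB hgt gnh)
open Pool.PB.Trl (rt rt_mem t_rt)

variable {m J : ℕ}

/-- The heights of the followers. -/
noncomputable def vE (F : Fam m J) (c : ℕ → Fin m) (k f l0 : ℕ) (γ : ℕ → ℕ)
    (G₀ : PtT F → ℕ → MvPolynomial (Option (Fin m)) ℝ) (ω : F.Ω) (l : Fin f) : ℝ :=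
  2 ^ (γ (k + l) + l0) * hgt F c G₀ ω (k + l)

/-- The gradients. -/
noncomputable def mE (F : Fam m J) (k f Wm Km YM y : ℕ) (mu : LnT F → ℕ → Polynomial ℝ) (ω : F.Ω)
    (l : Fin f) : ℝ := 2 ^ y * (mcE F Wm Km YM mu (k + l) ω).eval (rt F Wm ω)

/-- The height of the target. -/
noncomputable def nE (F : Fam m J) (c : ℕ → Fin m) (i Q : ℕ) (γ : ℕ → ℕ)
    (G₀ : PtT F → ℕ → MvPolynomial (Option (Fin m)) ℝ) (ω : F.Ω) : ℝ :=
  2 ^ (γ i + Q) * hgt F c G₀ ω i

/-- The rounded paths. -/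
noncomputable def sE (F : Fam m J) (c : ℕ → Fin m) (k f w K l0 : ℕ) (N γ : ℕ → ℕ)
    (H : LnT F → ℕ → MvPolynomial (Option (Fin m)) ℝ) (ω : F.Ω) (l : Fin f) : ℝ :=
  2 ^ (γ (k + l) + l0) * (pru F c (k + l) w K (N (k + l)) H ω).eval (rt F w ω)

section

variable {F : Fam m J} {c : ℕ → Fin m} {k f q w Wm W K Km YM D l0 y X : ℕ} {N γ : ℕ → ℕ}
  {H : LnT F → ℕ → MvPolynomial (Option (Fin m)) ℝ} {mu : LnT F → ℕ → Polynomial ℝ}
  {G₀ : PtT F → ℕ → MvPolynomial (Option (Fin m)) ℝ} {B : F.Ω → Prop}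

/-- A sum over the followers. -/
theorem sum_fol (g : ℕ → ℝ) (k f : ℕ) :
    ∑ l ∈ Finset.Ico k (k + f), g l = ∑ l : Fin f, g (k + l) := by
  rw [Finset.sum_Ico_eq_sum_range, Nat.add_sub_cancel_left, ← Fin.sum_univ_eq_sum_range]

/-- **The value of the target** in terms of the heights. -/
theorem tve_eq (h : l0 + y = q + X) (ω : F.Ω) :
    2 ^ X * TVE F c k (k + f) q w Wm K Km YM N γ H mu G₀ ω =
      nE F c (k + f) (l0 + y) γ G₀ ω - ∑ l : Fin f, mE F k f Wm Km YM y mu ω l *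
        (vE F c k f l0 γ G₀ ω l - sE F c k f w K l0 N γ H ω l) := by
  unfold TVE nE
  rw [sum_fol (fun l => (mcE F Wm Km YM mu l ω).eval (rt F Wm ω) *
    (2 ^ (γ l + q) * (hgt F c G₀ ω l - (pru F c l w K (N l) H ω).eval (rt F w ω)))), mul_sub,
    Finset.mul_sum, h]
  congr 1
  · rw [pow_add, pow_add, pow_add]
    ring
  · refine Finset.sum_congr rfl fun l _ => ?_
    unfold mE vE sE
    have e1 : (2 : ℝ) ^ X * 2 ^ q = 2 ^ y * 2 ^ l0 := by
      rw [← pow_add, ← pow_add, Nat.add_comm X q, ← h, Nat.add_comm]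
    have e2 : (2 : ℝ) ^ X * ((mcE F Wm Km YM mu (k + l) ω).eval (rt F Wm ω) *
        (2 ^ (γ (k + l) + q) * (hgt F c G₀ ω (k + l) -
          (pru F c (k + l) w K (N (k + l)) H ω).eval (rt F w ω)))) =
        (2 ^ X * 2 ^ q) * ((mcE F Wm Km YM mu (k + l) ω).eval (rt F Wm ω) * (2 ^ γ (k + l) *
          (hgt F c G₀ ω (k + l) - (pru F c (k + l) w K (N (k + l)) H ω).eval (rt F w ω)))) := by
      rw [pow_add]
      ring
    rw [e2, e1, pow_add]
    ring

/-- **The followers are near their rounded paths.** -/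
theorem ve_se (hw : w ≤ J) (hH : ∀ s l, (H s l).totalDegree ≤ D) (hK : D + 1 ≤ K) {ω : F.Ω}
    {l : Fin f} (hc : G₀ (ptr F J ω) (k + l) = H (slam F w ω) (k + l))
    (hN : N (k + l) = γ (k + l) + l0) :
    |vE F c k f l0 γ G₀ ω l - sE F c k f w K l0 N γ H ω l| ≤ K + 1 := by
  unfold vE sE
  have h1 := dvW_hgt (c := c) (G₀ := G₀) (H := H) le_rfl hw hc
  have e1 : dv w (fun s (_ : Fin m) => H (upw w w s) (k + l)) (c (k + l)) (slam F w ω) =
      dv w (fun s (_ : Fin m) => H s (k + l)) (c (k + l)) (slam F w ω) := by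
    unfold dv
    simp only [upw_slam F le_rfl hw]
  rw [e1] at h1
  have h2 := eval_le_of (P := dv w (fun s (_ : Fin m) => H s (k + l)) (c (k + l)) (slam F w ω) -
    pru F c (k + l) w K (N (k + l)) H ω) (K := K) (U := 1 / 2 ^ N (k + l)) (θ := rt F w ω)
    ((Polynomial.natDegree_sub_le _ _).trans (max_le (natDegree_dvH hH hK _ _) (pru_deg ω)))
    (rt_mem F w ω) (pru_near hH hK ω)
  rw [Polynomial.eval_sub, h1] at h2
  rw [← mul_sub, abs_mul, abs_of_pos (by positivity : (0 : ℝ) < 2 ^ (γ (k + l) + l0))]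
  refine (mul_le_mul_of_nonneg_left h2 (by positivity)).trans (le_of_eq ?_)
  rw [hN]
  field_simp

theorem det_me (p : F.Ω → ℝ) (hwm : Wm ≤ J) : Det p
    (fun ω => (sdE F c k (k + f) w Wm K Km YM N H mu ω, F.W ω)) (mE F k f Wm Km YM y mu) := by
  intro ω ν _ _ e
  obtain ⟨e1, e2⟩ := Prod.ext_iff.mp e
  have hT : F.T ω = F.T ν := (Prod.ext_iff.mp e2).1
  funext l
  unfold mE
  have := l.isLt
  rw [(sdE_of e1 (l := k + l) (by omega) (by omega)).2, rt_of F hwm hT]

theorem det_se (p : F.Ω → ℝ) (hw : w ≤ J) : Det p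
    (fun ω => (sdE F c k (k + f) w Wm K Km YM N H mu ω, F.W ω))
    (sE F c k f w K l0 N γ H) := by
  intro ω ν _ _ e
  obtain ⟨e1, e2⟩ := Prod.ext_iff.mp e
  have hT : F.T ω = F.T ν := (Prod.ext_iff.mp e2).1
  funext l
  unfold sE
  have := l.isLt
  rw [(sdE_of e1 (l := k + l) (by omega) (by omega)).1, rt_of F hw hT]

end

end Pool.RWE19
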