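import Pool.Agent.H19.RWE.Clb
import Pool.Agent.H19.RWE.Sg
import Pool.Agent.H71.XR.Xe
import Pool.Agent.H91.EN.Fw

/-!
# The row of a target over followers: labels and digits

`lbn_of`, `ldk_of`: the labels of the followers and of the target at one window, of the slope-one
places at another one. `uvE`: the digits of the heights; `qtg_uv`: they are the quantities of the
class theorem. `cls_hi`, `cls_lo`, `hgt_hi`: the charts of the frame are closed.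
-/

set_option autoImplicit false

namespace Pool.RWE19

open Finset Real MvPolynomial
open Pool.Agent.H49.Ent Pool.Agent.H32.Dense
open Pool.STK hiding pr2
open Pool.KA Pool.KSAT Pool.K2S Pool.PB Pool.S6C
open Pool.GEN Pool.CHT Pool.CHX Pool.ISO Pool.LA91 Pool.AVG71 Pool.AVG5 Pool.D2F2 Pool.AVG57
open Pool.AVG66 Pool.RCD Pool.AVG96 Pool.OWN68 Pool.V0F Pool.V0S Pool.VW33
open Pool.AJW (CfB)
open Pool.GRD (LbP)
open Pool.V0T (qTg)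
open Pool.D2R (WinB hgt gnh hyb hybH hyb_hi hyb_cls)
open Pool.PB.Trl (rt rt_mem t_rt)

variable {m : ℕ}

section

variable {J : ℕ} {F : Fam m J} {c : ℕ → Fin m} {r D Dr N M : ℕ}
  {C₀ a Eb ηm : ℝ} {o η σ : ℕ → ℝ} {lv bb : ℕ → ℕ → ℝ} {κ : ℝ} {z : ℕ → ℕ → ℕ} {A : F.Ω → Prop}
  {g₀ : ℕ → ℕ → ℕ} {Gc : ℕ → PtT F → ℕ → MvPolynomial (Option (Fin m)) ℝ}
  {H : ℕ → LnT F → ℕ → MvPolynomial (Option (Fin m)) ℝ}

/-- The label of one place at one window. -/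
theorem lbn_of (W : WinB F c r D Dr N M C₀ a Eb ηm o η σ lv bb κ z A g₀ Gc H) {kw : ℕ}
    (hw : kw ≤ N) {φ : ℝ} {sn : ℕ → ℝ → ℝ} (hC : C₀ * ηm ≤ φ)
    (lw : ∀ l ≤ r, lv kw l = sn l (o kw)) : ∀ l ≤ r, ∃ (V : Type) (z : PtT F → V)
      (z' : LnT F → V) (g : V → MvPolynomial (Option (Fin m)) ℝ),
      LbP F ((range l).image c) (c l) D J ⌊o kw * J⌋₊ ⌊(sn l (o kw) - φ) * J⌋₊ A z z' g ∧
        ∀ s, g (z' s) = H kw s l := by
  intro l hl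
  have hJ : (0 : ℝ) ≤ J := Nat.cast_nonneg J
  have hη0 : 0 ≤ ηm := (W.hη kw hw).1.trans (W.hη kw hw).2
  have hηφ : ηm ≤ φ := (le_mul_of_one_le_left hη0 W.C1).trans hC
  have pr : ⌊(sn l (o kw) - φ) * J⌋₊ ≤ g₀ kw l := by
    obtain ⟨-, -, h1, -⟩ := W.g_num hw hl
    refine Nat.floor_le_of_le ?_
    rw [lw l hl] at h1
    have : ηm * J ≤ φ * J := mul_le_mul_of_nonneg_right hηφ hJ
    linarith
  exact ⟨_, _, _, _, lb_of (W.ev kw hw).ball (fun ω hω l hl => (W.ev kw hw).cls ω hω l hl)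
      (show l < r + 1 by omega) pr, fun s => rfl⟩

/-- The labels of the slope-one places and of one more place. -/
theorem ldk_of (W : WinB F c r D Dr N M C₀ a Eb ηm o η σ lv bb κ z A g₀ Gc H) {kb kw k : ℕ}
    (hb : kb ≤ N) (hw : kw ≤ N) (hk : k ≤ r) {φ E : ℝ} {sn : ℕ → ℝ → ℝ} (hbw : o kb ≤ o kw)
    (hw1 : o kw ≤ 1) (hC : C₀ * ηm ≤ φ) (lb : ∀ l ≤ r, lv kb l = sn l (o kb))
    (lw : ∀ l ≤ r, lv kw l = sn l (o kw))
    (cb : ∀ l < k, CfB F ⌊o kb * J⌋₊ E (c l) A (fun s => s) (fun s => H kb s l))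
    (cw : CfB F ⌊o kw * J⌋₊ E (c k) A (fun s => s) (fun s => H kw s k)) :
    LD F c k D (o kb) (o kw) φ E sn A (H kb) (H kw)
      (hybH H kb kw k ⌊o kb * J⌋₊ ⌊o kw * J⌋₊ ⌊o kw * J⌋₊) := by
  have hJ : (0 : ℝ) ≤ J := Nat.cast_nonneg J
  have hfw : ⌊o kw * (J : ℝ)⌋₊ ≤ J := floor_le hw1 J
  have hfb : ⌊o kb * (J : ℝ)⌋₊ ≤ ⌊o kw * J⌋₊ :=
    Nat.floor_le_floor (mul_le_mul_of_nonneg_right hbw hJ)
  refine ⟨fun l hl => ?_, ?_, cb, cw, fun ω l hl => ?_, fun ω => ?_⟩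
  · exact lbn_of W hb hC lb l (by omega)
  · exact lbn_of W hw hC lw k hk
  · unfold hybH
    rw [if_pos hl, upw_slam F hfb hfw]
  · unfold hybH
    rw [if_neg (lt_irrefl k), upw_slam F le_rfl hfw]

end

/-- **The digits of the heights** of the followers and of the target. -/
noncomputable def uvE {J : ℕ} (F : Fam m J) (c : ℕ → Fin m) (k f : ℕ) (w : ℝ)
    (Hn : LnT F → ℕ → MvPolynomial (Option (Fin m)) ℝ) (P : ℕ → ℝ) (ω : F.Ω) (t : Fin (f + 1)) :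
    ℤ := ⌊(2 : ℝ) ^ (P t * J) * ojet F (c (k + t)) 0 (Hn (slam F ⌊w * J⌋₊ ω) (k + t)) ω⌋

/-- **They are the quantities of the class theorem.** -/
theorem qtg_uv (m D k f : ℕ) (P : ℕ → ℝ) {w E : ℝ} (hw0 : 0 ≤ w) (hw1 : w ≤ 1) :
    ∃ M J₁ : ℕ, ∀ K ≥ M, ∀ J ≥ J₁, ∀ {F : Fam m J} {c : ℕ → Fin m} {φ : ℝ} {sn : ℕ → ℝ → ℝ}
      {A : F.Ω → Prop} {Hn : LnT F → ℕ → MvPolynomial (Option (Fin m)) ℝ},
      (∀ l, k ≤ l → l ≤ k + f → ∃ (V : Type) (z : PtT F → V) (z' : LnT F → V)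
        (g : V → MvPolynomial (Option (Fin m)) ℝ),
        LbP F ((range l).image c) (c l) D J ⌊w * J⌋₊ ⌊(sn l w - φ) * J⌋₊ A z z' g ∧
          ∀ s, g (z' s) = Hn s l) →
      (∀ l, k ≤ l → l ≤ k + f → CfB F ⌊w * J⌋₊ E (c l) A (fun s => s) (fun s => Hn s l)) →
      ∀ e : ℝ, 0 ≤ e →
      (qTg m c k (f + 1) w (prE k sn w φ) P).P K e J F A (uvE F c k f w Hn P) := by
  obtain ⟨M, J₁, hM⟩ := qj_fam m D 0 (f + 1) P (E := E) hw0 hw1
  refine ⟨M, J₁, fun K hK J hJ F c φ sn A Hn hl hc e he => ?_⟩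
  have hJ0 : (0 : ℝ) ≤ J := Nat.cast_nonneg J
  intro t
  have ht := t.isLt
  obtain ⟨V, z, z', g, h1, h2⟩ := hl (k + t) (by omega) (by omega)
  have h3 := hM K hK J hJ t ht F _ (c (k + t)) A V z z' g _ (sn (k + t) w - φ) e h1
    (cfb_of (hc (k + t) (by omega) (by omega)) h2) (Nat.floor_le_floor
        (mul_le_mul_of_nonneg_right (by linarith) hJ0))
  show (qJet m ((range (k + (t : ℕ))).image c) (c (k + (t : ℕ))) 0 w (prE k sn w φ t)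
      (P t)).P K e J F A (fun ω => uvE F c k f w Hn P ω t)
  have e1 : (fun ω => uvE F c k f w Hn P ω t) = fun ω =>
      ⌊(2 : ℝ) ^ (P t * J) * ojet F (c (k + t)) 0 (g (z' (slam F ⌊w * J⌋₊ ω))) ω⌋ := by
    funext ω
    unfold uvE
    rw [h2]
  rw [e1]
  exact h3

section

variable {J : ℕ} {F : Fam m J} {c : ℕ → Fin m} {k f D Dr N M : ℕ}
  {C₀ a Eb ηm b w : ℝ} {o η σ : ℕ → ℝ} {lv bb : ℕ → ℕ → ℝ} {κ : ℝ} {z : ℕ → ℕ → ℕ} {A : F.Ω → Prop}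
  {g₀ : ℕ → ℕ → ℕ} {Gc : ℕ → PtT F → ℕ → MvPolynomial (Option (Fin m)) ℝ}
  {H : ℕ → LnT F → ℕ → MvPolynomial (Option (Fin m)) ℝ} {fb fn : ℕ → ℕ}

/-- The charts of the frame are closed. -/
theorem cls_fr (W : WinB F c (k + f) D Dr N M C₀ a Eb ηm o η σ lv bb κ z A g₀ Gc H)
    (hb : fb 0 ≤ N) (hn : fn 0 ≤ N) (ob : o (fb 0) = b) (ow : o (fn 0) = w) (hbw : b ≤ w)
    (hw1 : w ≤ 1) {ω : F.Ω} (hω : A ω) {l : ℕ} (hl : l ≤ k + f) :
    chE Gc k fb fn (ptr F J ω) l = lbE H k fb fn b w (slam F ⌊w * J⌋₊ ω) l := by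
  have hJ : (0 : ℝ) ≤ J := Nat.cast_nonneg J
  have hfw : ⌊w * (J : ℝ)⌋₊ ≤ J := floor_le hw1 J
  have hfb : ⌊b * (J : ℝ)⌋₊ ≤ ⌊w * J⌋₊ :=
    Nat.floor_le_floor (mul_le_mul_of_nonneg_right hbw hJ)
  unfold chE lbE hyb hybH
  split_ifs
  · rw [upw_slam F hfb hfw]
    have := (W.ev (fb 0) hb).cls ω hω l (by omega)
    rw [ob] at this
    exact this
  · rw [upw_slam F le_rfl hfw]
    have := (W.ev (fn 0) hn).cls ω hω l (by omega)
    rw [ow] at this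
    exact this

/-- The heights of the slope-one places over the labels. -/
theorem hgt_fr (W : WinB F c (k + f) D Dr N M C₀ a Eb ηm o η σ lv bb κ z A g₀ Gc H)
    (hb : fb 0 ≤ N) (hn : fn 0 ≤ N) (ob : o (fb 0) = b) (ow : o (fn 0) = w) (hbw : b ≤ w)
    (hw1 : w ≤ 1) {ω : F.Ω} (hω : A ω) {l : ℕ} (hl : l ≤ k + f) :
    hgt F c (chE Gc k fb fn) ω l =
      ojet F (c l) 0 (lbE H k fb fn b w (slam F ⌊w * J⌋₊ ω) l) ω :=
  hgt_ojet (floor_le hw1 J) (cls_fr W hb hn ob ow hbw hw1 hω hl)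

/-- The heights of the followers and of the target over the labels. -/
theorem hgt_hi (W : WinB F c (k + f) D Dr N M C₀ a Eb ηm o η σ lv bb κ z A g₀ Gc H)
    (hn : fn 0 ≤ N) (ow : o (fn 0) = w) (hw1 : w ≤ 1) {ω : F.Ω} (hω : A ω) {l : ℕ} (hk : k ≤ l)
    (hl : l ≤ k + f) :
    hgt F c (chE Gc k fb fn) ω l = ojet F (c l) 0 (H (fn 0) (slam F ⌊w * J⌋₊ ω) l) ω := by
  refine hgt_ojet (floor_le hw1 J) ?_
  unfold chE
  rw [hyb_hi _ hk]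
  have := (W.ev (fn 0) hn).cls ω hω l (by omega)
  rw [ow] at this
  exact this

/-- The charts of the frame from a later window. -/
theorem cls_fw (W : WinB F c (k + f) D Dr N M C₀ a Eb ηm o η σ lv bb κ z A g₀ Gc H)
    (hb : fb 0 ≤ N) (hn : fn 0 ≤ N) {W' : ℕ} (h1 : ⌊o (fb 0) * J⌋₊ ≤ W')
    (h2 : ⌊o (fn 0) * J⌋₊ ≤ W') (h3 : W' ≤ J) {ω : F.Ω} (hω : A ω) {l : ℕ} (hl : l ≤ k + f) :
    chE Gc k fb fn (ptr F J ω) l = hybH H (fb 0) (fn 0) k ⌊o (fb 0) * J⌋₊ ⌊o (fn 0) * J⌋₊ W'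
      (slam F W' ω) l := by
  unfold chE hyb hybH
  split_ifs
  · rw [upw_slam F h1 h3]
    exact (W.ev (fb 0) hb).cls ω hω l (by omega)
  · rw [upw_slam F h2 h3]
    exact (W.ev (fn 0) hn).cls ω hω l (by omega)

/-- The charts of a later window and of the frame are closed. -/
theorem cl_cch (W : WinB F c (k + f) D Dr N M C₀ a Eb ηm o η σ lv bb κ z A g₀ Gc H)
    (hb : fb 0 ≤ N) (hn : fn 0 ≤ N) {t : ℕ} (ht : fn t ≤ N) (h1 : o (fb 0) ≤ o (fn t))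
    (h2 : o (fn 0) ≤ o (fn t)) (h3 : o (fn t) ≤ 1) {B : F.Ω → Prop} (hB : Sub B A) :
    Cl2 (ptr F J) (vg (o (fn t)) J F) B (Cch F (k + f) (chE Gc k fb fn) (Gc (fn t))) := by
  have hJ : (0 : ℝ) ≤ J := Nat.cast_nonneg J
  refine ⟨⟨fun y => (fun l => if l ≤ k + f then chE Gc k fb fn y l else 0,
    fun l => if l ≤ k + f then Gc (fn t) y l else 0), fun ω _ => rfl⟩,
    ⟨fun s => (fun l => if l ≤ k + f then hybH H (fb 0) (fn 0) k ⌊o (fb 0) * J⌋₊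
      ⌊o (fn 0) * J⌋₊ ⌊o (fn t) * J⌋₊ s l else 0,
      fun l => if l ≤ k + f then H (fn t) s l else 0), fun ω hω => ?_⟩⟩
  unfold Cch
  refine Prod.ext ?_ ?_
  · funext l
    simp only
    split_ifs with h
    · exact cls_fw W hb hn (Nat.floor_le_floor
        (mul_le_mul_of_nonneg_right h1 hJ)) (Nat.floor_le_floor
          (mul_le_mul_of_nonneg_right h2 hJ)) (floor_le h3 J) (hB ω hω) h
    · rfl
  · funext l
    simp only
    split_ifs with h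
    · exact (W.ev (fn t) ht).cls ω (hB ω hω) l (by omega)
    · rfl

end

end Pool.RWE19
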