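import Pool.Agent.H19.RWE.Key
import Pool.Agent.H33.VW.T2

/-!
# The row of a target over followers

`rowE_of`: `RowE` in a box. `rowH_of`: `RowH` in a box, the gradients near closed ones in one window;
`rowH0_of`: without gradients. `rowP_cls`: `RowE` as an input of the class theorem.
-/

set_option autoImplicit false

namespace Pool.RWE19

open Finset Real MvPolynomial
open Pool.Agent.H49.Ent Pool.Agent.H32.Dense
open Pool.STK hiding pr2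
open Pool.KA Pool.KSAT Pool.K2S Pool.PB Pool.S6C
open Pool.GEN Pool.CHT Pool.CHX Pool.ISO Pool.LA91 Pool.AVG71 Pool.AVG5 Pool.D2F2 Pool.AVG57
open Pool.AVG66 Pool.RCD Pool.AVG96 Pool.OWN68 Pool.V0F Pool.V0S Pool.VW33
open Pool.AJW (CfB)
open Pool.T4C72 (WnT RadT)
open Pool.EN91 (wnt_n wnt_0 wnt_b fbox_frm fbox_wds)
open Pool.D2R (WinB hgt gnh hyb hybH hybH_deg)
open Pool.PB.Trl (rt rt_mem t_rt)

/-- The digits of the followers are fewer than those of the target. -/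
theorem num_le {k J : ℕ} {ξ nv u φ : ℝ} (hξ : 0 ≤ ξ) (hnv0 : 0 ≤ nv) (hnv : nv ≤ 1 + ξ)
    (hu : 0 ≤ u) (hφ : 1 ≤ φ * J) :
    ⌊nv * u * J⌋₊ ≤ qE k u φ J + ⌊ξ * u * J⌋₊ ∧
    ((qE k u φ J + ⌊ξ * u * J⌋₊ - ⌊nv * u * J⌋₊ : ℕ) : ℝ) ≤
      (1 + ξ - nv) * (u * J) + 2000 * (((k : ℝ) + 2) * (φ * J)) + 1 := by
  have hJ0 : (0 : ℝ) ≤ J := Nat.cast_nonneg J
  have hk0 : (0 : ℝ) ≤ k := Nat.cast_nonneg k
  obtain ⟨U, hU⟩ : ∃ U : ℝ, U = u * J := ⟨_, rfl⟩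
  have hU0 : 0 ≤ U := by rw [hU]; positivity
  obtain ⟨P, hP⟩ : ∃ P : ℝ, P = ((k : ℝ) + 2) * (φ * J) := ⟨_, rfl⟩
  have hP2 : 2 ≤ P := by
    have h1 : 2 * 1 ≤ ((k : ℝ) + 2) * (φ * J) :=
      mul_le_mul (by linarith) hφ (by norm_num) (by positivity)
    rw [hP]
    linarith
  rw [← hU, ← hP]
  have e0 : (u + 500 * yE k φ) * (J : ℝ) = U + 2000 * P := by
    unfold yE
    rw [hU, hP]
    ring
  have q1 : ((qE k u φ J : ℕ) : ℝ) ≤ U + 2000 * P := by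
    rw [← e0]
    exact Nat.floor_le (by rw [e0]; positivity)
  have q2 : U + 2000 * P < ((qE k u φ J : ℕ) : ℝ) + 1 := by
    rw [← e0]
    exact Nat.lt_floor_add_one _
  have e1 : ξ * u * (J : ℝ) = ξ * U := by rw [hU]; ring
  have e2 : nv * u * (J : ℝ) = nv * U := by rw [hU]; ring
  have x1 : ((⌊ξ * u * J⌋₊ : ℕ) : ℝ) ≤ ξ * U := by
    rw [← e1]
    exact Nat.floor_le (by rw [e1]; positivity)
  have x2 : ξ * U < ((⌊ξ * u * J⌋₊ : ℕ) : ℝ) + 1 := by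
    rw [← e1]
    exact Nat.lt_floor_add_one _
  have l1 : ((⌊nv * u * J⌋₊ : ℕ) : ℝ) ≤ nv * U := by
    rw [← e2]
    exact Nat.floor_le (by rw [e2]; positivity)
  have l2 : nv * U < ((⌊nv * u * J⌋₊ : ℕ) : ℝ) + 1 := by
    rw [← e2]
    exact Nat.lt_floor_add_one _
  have h1 := mul_le_mul_of_nonneg_right hnv hU0
  have h2 : ⌊nv * u * J⌋₊ ≤ qE k u φ J + ⌊ξ * u * J⌋₊ := by
    have h3 : ((⌊nv * u * J⌋₊ : ℕ) : ℝ) ≤ ((qE k u φ J + ⌊ξ * u * J⌋₊ : ℕ) : ℝ) := by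
      push_cast
      linarith
    exact_mod_cast h3
  refine ⟨h2, ?_⟩
  rw [Nat.cast_sub h2]
  push_cast
  linarith

/-- Closed gradients near rounded ones. -/
theorem num_kg {r : ℝ} {y YM Y₀ Km : ℕ} (h1 : (y : ℝ) + 1 ≤ r + Y₀) (h2 : y + Km + 1 ≤ YM + Y₀) :
    2 ^ (-r) + ((Km : ℝ) + 1) * (1 / 2 ^ YM) ≤ 2 ^ Y₀ / 2 ^ y := by
  have hy : (0 : ℝ) < 2 ^ y := by positivity
  have a1 : (2 : ℝ) ^ (-r) ≤ 2 ^ Y₀ / 2 ^ y / 2 := by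
    have b1 : (2 : ℝ) ^ Y₀ / 2 ^ y / 2 = 2 ^ ((Y₀ : ℝ) - y - 1) := by
      rw [Real.rpow_sub two_pos, Real.rpow_sub two_pos, Real.rpow_natCast, Real.rpow_natCast,
        Real.rpow_one]
    rw [b1]
    exact Real.rpow_le_rpow_of_exponent_le (by norm_num) (by linarith)
  have a2 : ((Km : ℝ) + 1) * (1 / 2 ^ YM) ≤ 2 ^ Y₀ / 2 ^ y / 2 := by
    have b1 : ((Km : ℝ) + 1) ≤ 2 ^ Km := by
      have := Nat.lt_two_pow_self (n := Km)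
      exact_mod_cast this
    have b2 : (2 : ℝ) ^ Km * (2 ^ y * 2) ≤ 2 ^ Y₀ * 2 ^ YM := by
      rw [← pow_succ, ← pow_add, ← pow_add]
      exact pow_le_pow_right₀ (by norm_num) (by omega)
    rw [div_div, le_div_iff₀ (by positivity), mul_one_div, div_mul_eq_mul_div,
      div_le_iff₀ (by positivity)]
    exact (mul_le_mul_of_nonneg_right b1 (by positivity)).trans b2
  linarith

/-- **The closed gradients** near the rounded ones, in the window of the followers. -/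
theorem ke_near {m J : ℕ} {F : Fam m J} {c : ℕ → Fin m} {k f Km n t : ℕ} {al be ξ nv ym w u φ
    eK : ℝ} {ow : ℕ → ℝ} {fb fn : ℕ → ℕ} {A : F.Ω → Prop} {γ : ℕ → ℕ}
    {Gc : ℕ → PtT F → ℕ → MvPolynomial (Option (Fin m)) ℝ} {Wm : ℕ}
    {mu : LnT F → ℕ → Polynomial ℝ} (KE₀ : KE F c k f Km n al be w u φ eK ow fb fn A γ Gc Wm mu)
    (hal : 1 ≤ al) (hab : al ≤ be) (hξ : 0 < ξ) (hnv0 : 0 ≤ nv)
    (hnb : (1 + ξ) * al ≤ nv * be) (hnv : nv ≤ 1 + ξ) (hym : 1 + ξ ≤ nv + ym) (hu : 0 ≤ u)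
    (hφ : 1 ≤ φ * J) (ht : t ≤ n) (hx1 : w + nv * u / al - φ ≤ ow (fn t))
    (hx2 : ow (fn t) ≤ w + nv * u / al) (hK0 : 0 ≤ eK) :
    ∀ ω, A ω → ∀ l, k ≤ l → l < k + f →
      |gnh F c (k + f) γ (chE Gc k fb fn) (Gc (fn t)) ω l -
        (mcE F Wm Km ⌊ym * u * J⌋₊ mu l ω).eval (rt F Wm ω)| ≤
        2 ^ YP k Km be u φ eK J / 2 ^ (qE k u φ J + ⌊ξ * u * J⌋₊ - ⌊nv * u * J⌋₊) := by
  intro ω hω l h1 h2
  have hJ0 : (0 : ℝ) ≤ J := Nat.cast_nonneg J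
  have hk0 : (0 : ℝ) ≤ k := Nat.cast_nonneg k
  have hal0 : 0 < al := by linarith
  have hbe0 : 0 ≤ be := by linarith
  obtain ⟨n1, n2⟩ := num_le (k := k) hξ.le hnv0 hnv hu hφ
  obtain ⟨U, hU⟩ : ∃ U : ℝ, U = u * J := ⟨_, rfl⟩
  have hU0 : 0 ≤ U := by rw [hU]; positivity
  obtain ⟨E, hE⟩ : ∃ E : ℝ, E = φ * J := ⟨_, rfl⟩
  have hE1 : 1 ≤ E := by rw [hE]; exact hφ
  obtain ⟨P, hP⟩ : ∃ P : ℝ, P = ((k : ℝ) + 2) * E := ⟨_, rfl⟩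
  have hP2 : 0 ≤ P := by rw [hP]; positivity
  have Y1 : be * E + 2000 * P + 4 * E + eK * U + Km + 8 ≤ (YP k Km be u φ eK J : ℕ) := by
    have a1 := Nat.le_ceil (((be + 2000 * ((k : ℝ) + 2) + 4) * φ + eK * u) * J)
    have a2 : ((be + 2000 * ((k : ℝ) + 2) + 4) * φ + eK * u) * (J : ℝ) =
        be * E + 2000 * P + 4 * E + eK * U := by rw [hP, hE, hU]; ring
    rw [a2] at a1
    unfold YP
    push_cast
    rw [a2]
    linarith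
  rw [← hE, ← hP, ← hU] at n2
  have k1 := KE₀.near t ht ω hω l h1 h2
  have k2 := rnd_eval (N := ⌊ym * u * J⌋₊) (KE₀.deg (slam F Wm ω) l) (rt_mem F Wm ω)
  have k3 : |gnh F c (k + f) γ (chE Gc k fb fn) (Gc (fn t)) ω l -
      (mcE F Wm Km ⌊ym * u * J⌋₊ mu l ω).eval (rt F Wm ω)| ≤
      2 ^ (-(((be - al) * (ow (fn t) - w) - eK * u) * J)) +
        ((Km : ℝ) + 1) * (1 / 2 ^ ⌊ym * u * J⌋₊) := by
    refine le_trans (abs_sub_le _ ((mu (slam F Wm ω) l).eval (rt F Wm ω)) _) (add_le_add k1 ?_)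
    exact k2
  refine k3.trans (num_kg ?_ ?_)
  · have a1 : al * (ow (fn t) - w) ≤ nv * u := by
      have b1 := mul_le_mul_of_nonneg_left hx2 hal0.le
      have b2 : al * (w + nv * u / al) = al * w + nv * u := by field_simp
      linarith
    have a2 : u + ξ * u - be * φ ≤ be * (ow (fn t) - w) := by
      have b1 := mul_le_mul_of_nonneg_left hx1 hbe0
      have b2 : be * (w + nv * u / al - φ) = be * w + nv * be * u / al - be * φ := by field_simp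
      have b3 : (1 + ξ) * u ≤ nv * be * u / al := by
        rw [le_div_iff₀ hal0]
        have := mul_le_mul_of_nonneg_right hnb hu
        linarith
      linarith
    have a3 := mul_le_mul_of_nonneg_right (show (1 + ξ - nv) * u - be * φ ≤
      (be - al) * (ow (fn t) - w) by linarith) hJ0
    have a4 : ((1 + ξ - nv) * u - be * φ) * (J : ℝ) = (1 + ξ - nv) * U - be * E := by
      rw [hU, hE]; ring
    have a5 : ((be - al) * (ow (fn t) - w) - eK * u) * (J : ℝ) =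
        (be - al) * (ow (fn t) - w) * J - eK * U := by rw [hU]; ring
    rw [a5]
    rw [a4] at a3
    linarith only [a3, n2, Y1, hE1, (Nat.cast_nonneg Km : (0 : ℝ) ≤ (Km : ℝ))]
  · have a1 : ym * u * J < (⌊ym * u * J⌋₊ : ℝ) + 1 := Nat.lt_floor_add_one _
    have a2 : ym * u * (J : ℝ) = ym * U := by rw [hU]; ring
    rw [a2] at a1
    have a3 : (1 + ξ - nv) * U ≤ ym * U := mul_le_mul_of_nonneg_right (by linarith) hU0
    have a4 : 0 ≤ be * E := by positivity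
    have a5 : 0 ≤ eK * U := by positivity
    have a6 : ((qE k u φ J + ⌊ξ * u * J⌋₊ - ⌊nv * u * J⌋₊ + Km + 1 : ℕ) : ℝ) ≤
        ((⌊ym * u * J⌋₊ + YP k Km be u φ eK J : ℕ) : ℝ) := by
      rw [a2]
      push_cast only [Nat.cast_add, Nat.cast_one]
      linarith only [a1, n2, a3, a4, a5, Y1, hE1]
    exact_mod_cast a6

/-- **The row of the target** over the side path, in a box. -/
theorem rowE_of (D K Km k f : ℕ) {al be h ξ ns ym : ℝ} (hK : D + 1 ≤ K) (hal : 1 ≤ al)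
    (hab : al ≤ be) (hξ : 0 < ξ) (hξ1 : ξ ≤ 1) (h1 : 1 + ξ ≤ 2 * ns)
    (h2 : (1 + ξ) * al ≤ ns * be) (h3 : ns ≤ al) (h4 : ns ≤ 1 + ξ) (h5 : 1 + ξ ≤ ns + ym) {δ : ℝ}
    (hδ : 0 < δ) : ∃ φ₀ : ℝ, 0 < φ₀ ∧
    ∀ {m : ℕ} {S : PCl m} {c : ℕ → Fin m} {sn sp : ℕ → ℝ → ℝ} {G : Set ℝ} {b o w u Λ φ e : ℝ}
      {lam : ℝ → ℝ}, FBox S c k f sn sp G al be h b o w u Λ φ e lam → 4 ≤ Λ → φ ≤ φ₀ * u →
    ∀ {eK π₀ : ℝ}, 0 ≤ eK → eK ≤ φ₀ → 0 < π₀ →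
    ∀ {N : ℕ} {C₀ Eb ηm : ℝ} {ow : ℕ → ℝ} {lv : ℕ → ℕ → ℝ} {fb fn : ℕ → ℕ} {nb n ks : ℕ}
      {w₁ : ℚ}, w ≤ w₁ → (w₁ : ℝ) ≤ 1 →
    WnT k f sn G al b w u Λ φ N C₀ Eb ηm ow lv fb fn nb n ks →
    Bas S (fun J F A => ∀ {Dr M : ℕ} {a : ℝ} {η σ : ℕ → ℝ} {bb : ℕ → ℕ → ℝ} {κ : ℝ}
      {z : ℕ → ℕ → ℕ} {g₀ : ℕ → ℕ → ℕ} {Gc : ℕ → PtT F → ℕ → MvPolynomial (Option (Fin m)) ℝ}
      {H : ℕ → LnT F → ℕ → MvPolynomial (Option (Fin m)) ℝ} {Wm : ℕ}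
      {mu : LnT F → ℕ → Polynomial ℝ},
      WinB F c (k + f) D Dr N M C₀ a Eb ηm ow η σ lv bb κ z A g₀ Gc H →
      RadT nb n M J u ow fb fn z →
      (∀ l < k, CfB F ⌊b * J⌋₊ 1 (c l) A (fun s => s) (fun s => H (fb 0) s l)) →
      (∀ l, k ≤ l → l ≤ k + f → CfB F ⌊w * J⌋₊ 1 (c l) A (fun s => s)
        (fun s => H (fn 0) s l)) →
      KE F c k f Km n al be w u φ eK ow fb fn A (g₀ (fn 0)) Gc Wm mu →
      RowE F c k f K Km h ξ ns ym b w u φ π₀ δ w₁ fb fn A (g₀ (fn 0)) Gc H Wm mu) := by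
  obtain ⟨φ₀, hφ₀, hkey⟩ := row_key D k f Km 1 (h := h) hal hab hξ hξ1 h1 h2 h4 hδ
  refine ⟨min φ₀ 1, lt_min hφ₀ one_pos, ?_⟩
  intro m S c sn sp G b o w u Λ φ e lam X hΛ hφ eK π₀ hK0 hK1 hπ N C₀ Eb ηm ow lv fb fn nb n ks
    w₁ hw₁ hw₂ T
  have hu := X.u0
  have hφu : φ ≤ u := by
    have := mul_le_mul_of_nonneg_right (min_le_right φ₀ 1) hu.le
    linarith
  have hφ := hφ.trans (mul_le_mul_of_nonneg_right (min_le_left φ₀ 1) hu.le)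
  have hK1 := hK1.trans (min_le_left φ₀ 1)
  have hφ0 := X.lad.φ0
  have hb0 := X.lad.b0
  have hbw := X.bw
  have hwo := X.wo
  have ho1 := X.o1
  have hf0 : (0 : ℝ) ≤ f := Nat.cast_nonneg f
  have hΛu : 4 * u ≤ Λ * u := mul_le_mul_of_nonneg_right hΛ hu.le
  have hal0 : 0 < al := by linarith
  have hns0 : 0 ≤ ns := by linarith
  have hb : b ≤ w := by linarith
  have hw1 : w ≤ 1 := by linarith
  obtain ⟨t, ht, hx1, hx2⟩ := wnt_at T (s := ns * u / al) (by positivity) (by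
    rw [div_le_iff₀ hal0]
    have := mul_le_mul_of_nonneg_right h3 hu.le
    linarith)
  obtain ⟨Jd, hJd⟩ := exists_nat_gt ((1 / φ) + f * Real.log (2 * (2 * ((K : ℝ) + 1) + 1) + 1) /
    (δ / 8 * u))
  refine Bas.mono (Jd + 1) ((hkey X hΛ hφ hK0 hK1 hπ hw₁ hw₂ T ht hx1 hx2).and
    (pos_bas X.lad.pos)) ?_
  rintro J hJ F A ⟨H1, hA⟩ Dr M a η σ bb κ z g₀ Gc H Wm mu W R hcb hcn hKE B hB hm
  have hlf : 0 ≤ Real.log (2 * (2 * ((K : ℝ) + 1) + 1) + 1) := Real.log_nonneg (by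
    have : (0 : ℝ) ≤ K := Nat.cast_nonneg K
    linarith)
  have hPB : 0 < Pe F.p B := lt_of_lt_of_le (mul_pos hπ hA) hm
  have hcl := isLaw_cond F.isLaw hPB
  have h0 := hcl.nonneg
  have hpB : ∀ ω, 0 < Pool.Agent.H49.Ent.cond F.p B True ω → B ω := fun ω hω => cond_pos hω
  have hpA : ∀ ω, 0 < Pool.Agent.H49.Ent.cond F.p B True ω → A ω := fun ω hω => hB ω (hpB ω hω)
  have hJ0 : (0 : ℝ) ≤ J := Nat.cast_nonneg J
  have hJdJ : (Jd : ℝ) ≤ J := by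
    have : Jd ≤ J := by omega
    exact_mod_cast this
  have hJ2 : 1 / φ + f * Real.log (2 * (2 * ((K : ℝ) + 1) + 1) + 1) / (δ / 8 * u) ≤ J :=
    hJd.le.trans hJdJ
  have hφJ : 1 ≤ φ * J := by
    have a1 : 0 ≤ f * Real.log (2 * (2 * ((K : ℝ) + 1) + 1) + 1) / (δ / 8 * u) := by positivity
    have a2 : 1 / φ ≤ J := by linarith
    rw [div_le_iff₀ hφ0] at a2
    linarith
  have hlJ : f * Real.log (2 * (2 * ((K : ℝ) + 1) + 1) + 1) ≤ δ / 8 * (u * J) := by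
    have a1 : 0 ≤ 1 / φ := by positivity
    have a2 : f * Real.log (2 * (2 * ((K : ℝ) + 1) + 1) + 1) / (δ / 8 * u) ≤ J := by linarith
    rw [div_le_iff₀ (by positivity)] at a2
    linarith
  have hwJ : ⌊w * (J : ℝ)⌋₊ ≤ J := floor_le hw1 J
  have hWm : Wm ≤ J := by
    have a1 : (Wm : ℝ) ≤ 1 * J := hKE.w2.trans (mul_le_mul_of_nonneg_right (by linarith) hJ0)
    rw [one_mul] at a1
    exact_mod_cast a1
  obtain ⟨n1, n2⟩ := num_le (k := k) hξ.le hns0 h4 hu.le hφJ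
  have hly : ⌊ns * u * J⌋₊ + (qE k u φ J + ⌊ξ * u * J⌋₊ - ⌊ns * u * J⌋₊) =
      qE k u φ J + ⌊ξ * u * J⌋₊ := by omega
  have hfb := T.fbN 0 (Nat.zero_le nb)
  have hfn := T.fnN 0 (Nat.zero_le n)
  have hHd : ∀ s l, (lbE H k fb fn b w s l).totalDegree ≤ D := fun s l =>
    hybH_deg W hfb hfn s l
  refine H1 W R hcb hcn hWm (YM := ⌊ym * u * J⌋₊) (mu := mu) (fun ω hω l a1 a2 => ?_) B hB hm _
    (TVP F c k f K Km ns ym b w u φ fb fn (g₀ (fn 0)) Gc H Wm mu)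
    (sE F c k f ⌊w * J⌋₊ K ⌊ns * u * J⌋₊ (nlE J ns u (g₀ (fn 0))) (g₀ (fn 0))
      (lbE H k fb fn b w))
    (fun ω => (Vv F c k ⌊w * J⌋₊ (lbE H k fb fn b w)
          (fun l => ((g₀ (fn 0) l + qE k u φ J + ⌊ξ * u * J⌋₊ : ℕ) : ℝ)) ω,
        (sdP F c k f K Km ns ym b w u fb fn (g₀ (fn 0)) H Wm mu ω, (cR F A w₁ ω, F.W ω))))
    (fun ω hω => ?_) ?_ ?_ ?_ ?_ ?_ ?_
  · rw [one_mul]
    exact ke_near hKE hal hab hξ hns0 h2 h4 h5 hu.le hφJ ht hx1 hx2 hK0 ω hω l a1 a2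
  · unfold TVP
    rw [tve_eq (γ := g₀ (fn 0)) hly ω, hly]
  · intro ω ν hω hν e
    obtain ⟨-, e1⟩ := Prod.ext_iff.mp e
    obtain ⟨e2, e3⟩ := Prod.ext_iff.mp e1
    exact det_me (c := c) (N := nlE J ns u (g₀ (fn 0))) (K := K) (w := ⌊w * J⌋₊)
      (H := lbE H k fb fn b w) _ hWm ω ν hω hν (Prod.ext e2 (Prod.ext_iff.mp e3).2)
  · intro ω ν hω hν e
    obtain ⟨-, e1⟩ := Prod.ext_iff.mp e
    obtain ⟨e2, e3⟩ := Prod.ext_iff.mp e1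
    exact det_se _ hwJ ω ν hω hν (Prod.ext e2 (Prod.ext_iff.mp e3).2)
  · intro ω ν _ _ e
    exact (Prod.ext_iff.mp (Prod.ext_iff.mp (Prod.ext_iff.mp e).2).2).2
  · intro ω ν _ _ e
    exact (Prod.ext_iff.mp e).1
  · intro ω ν _ _ e
    exact (Prod.ext_iff.mp (Prod.ext_iff.mp (Prod.ext_iff.mp e).2).2).1
  · refine (ch_flv hcl _ _ (D := 2 * ((K : ℝ) + 1)) (by positivity)
      fun ω ν hω hν e l => ?_).trans hlJ
    have hl := l.isLt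
    obtain ⟨-, e1⟩ := Prod.ext_iff.mp e
    obtain ⟨e2, e3⟩ := Prod.ext_iff.mp e1
    have a0 := congrFun (det_se (γ := g₀ (fn 0)) (l0 := ⌊ns * u * J⌋₊)
      (Pool.Agent.H49.Ent.cond F.p B True) hwJ ω ν hω hν (Prod.ext e2 (Prod.ext_iff.mp e3).2)) l
    have a1 := ve_se (c := c) (γ := g₀ (fn 0)) (l0 := ⌊ns * u * J⌋₊) (N := nlE J ns u (g₀ (fn 0))) hwJ hHd
      hK (cls_fr W hfb hfn T.ob T.ow0 hb hw1 (hpA ω hω) (by omega : k + (l : ℕ) ≤ k + f)) rfl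
    have a2 := ve_se (c := c) (γ := g₀ (fn 0)) (l0 := ⌊ns * u * J⌋₊) (N := nlE J ns u (g₀ (fn 0))) hwJ hHd
      hK (cls_fr W hfb hfn T.ob T.ow0 hb hw1 (hpA ν hν) (by omega : k + (l : ℕ) ≤ k + f)) rfl
    rw [a0] at a1
    have a3 := abs_le.1 a1
    have a4 := abs_le.1 a2
    rw [abs_le]
    constructor <;> linarith only [a3.1, a3.2, a4.1, a4.2]

/-- The gradients from their codes. -/
theorem det_mc {m J : ℕ} {F : Fam m J} {k f Km Wm y : ℕ} {ym u : ℝ}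
    {mu : LnT F → ℕ → Polynomial ℝ} (p : F.Ω → ℝ) (hwm : Wm ≤ J) :
    Det p (fun ω => (mcP F k f Km ym u Wm mu ω, F.W ω))
      (mE F k f Wm Km ⌊ym * u * J⌋₊ y mu) := by
  intro ω ν _ _ e
  obtain ⟨e1, e2⟩ := Prod.ext_iff.mp e
  have hT : F.T ω = F.T ν := (Prod.ext_iff.mp e2).1
  funext l
  unfold mE
  have hl := l.isLt
  have e3 := congrFun e1 (k + l)
  have e4 : rcd ⌊ym * u * J⌋₊ Km (mu (slam F Wm ω) (k + l)) =
      rcd ⌊ym * u * J⌋₊ Km (mu (slam F Wm ν) (k + l)) := by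
    funext a
    have e5 := congrFun e3 a
    simp only at e5
    unfold mcP at e5
    rw [if_pos ⟨by omega, by omega⟩, if_pos ⟨by omega, by omega⟩] at e5
    exact e5
  unfold mcE
  rw [rnd_of e4, rt_of F hwm hT]

/-- **The value `N - ∑ Mc v`** in terms of the heights. -/
theorem nv_eq {m J : ℕ} {F : Fam m J} {c : ℕ → Fin m} {k f Km Wm l0 y X : ℕ} {ym u φ : ℝ}
    {fb fn γ : ℕ → ℕ} {Gc : ℕ → PtT F → ℕ → MvPolynomial (Option (Fin m)) ℝ}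
    {mu : LnT F → ℕ → Polynomial ℝ} (h : l0 + y = qE k u φ J + X) (ω : F.Ω) :
    2 ^ X * NvP F c k f Km ym u φ fb fn γ Gc Wm mu ω =
      nE F c (k + f) (qE k u φ J + X) γ (chE Gc k fb fn) ω -
        ∑ l : Fin f, mE F k f Wm Km ⌊ym * u * J⌋₊ y mu ω l *
          (vE F c k f l0 γ (chE Gc k fb fn) ω l - 0) := by
  unfold NvP nE
  rw [sum_fol (fun l => (mcE F Wm Km ⌊ym * u * J⌋₊ mu l ω).eval (rt F Wm ω) *
    (2 ^ (γ l + qE k u φ J) * hgt F c (chE Gc k fb fn) ω l)), mul_sub, Finset.mul_sum]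
  congr 1
  · rw [pow_add, pow_add, pow_add]
    ring
  · refine Finset.sum_congr rfl fun l _ => ?_
    unfold mE vE
    have e1 : (2 : ℝ) ^ X * 2 ^ qE k u φ J = 2 ^ y * 2 ^ l0 := by
      rw [← pow_add, ← pow_add, Nat.add_comm X, ← h, Nat.add_comm]
    have e2 : (2 : ℝ) ^ X * ((mcE F Wm Km ⌊ym * u * J⌋₊ mu (k + l) ω).eval (rt F Wm ω) *
        (2 ^ (γ (k + l) + qE k u φ J) * hgt F c (chE Gc k fb fn) ω (k + l))) =
        (2 ^ X * 2 ^ qE k u φ J) * ((mcE F Wm Km ⌊ym * u * J⌋₊ mu (k + l) ω).eval (rt F Wm ω) *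
          (2 ^ γ (k + l) * hgt F c (chE Gc k fb fn) ω (k + l))) := by
      rw [pow_add]
      ring
    rw [e2, e1, pow_add]
    ring

/-- **The row of `N - ∑ Mc v`** over digits of the followers, in a box: gradients near closed ones in
one window. -/
theorem rowH_of (D Km k f A₁ : ℕ) {al be h ξ nv ym : ℝ} (hal : 1 ≤ al)
    (hab : al ≤ be) (hξ : 0 < ξ) (hξ1 : ξ ≤ 1) (h1 : 1 + ξ ≤ 2 * nv)
    (h2 : (1 + ξ) * al ≤ nv * be) (h4 : nv ≤ 1 + ξ) {δ : ℝ}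
    (hδ : 0 < δ) : ∃ φ₀ : ℝ, 0 < φ₀ ∧
    ∀ {m : ℕ} {S : PCl m} {c : ℕ → Fin m} {sn sp : ℕ → ℝ → ℝ} {G : Set ℝ} {b o w u Λ φ e : ℝ}
      {lam : ℝ → ℝ}, FBox S c k f sn sp G al be h b o w u Λ φ e lam → 4 ≤ Λ → φ ≤ φ₀ * u →
    ∀ {eK π₀ : ℝ}, 0 ≤ eK → eK ≤ φ₀ → 0 < π₀ →
    ∀ {N : ℕ} {C₀ Eb ηm : ℝ} {ow : ℕ → ℝ} {lv : ℕ → ℕ → ℝ} {fb fn : ℕ → ℕ} {nb n ks : ℕ}
      {w₁ : ℚ}, w ≤ w₁ → (w₁ : ℝ) ≤ 1 →
    WnT k f sn G al b w u Λ φ N C₀ Eb ηm ow lv fb fn nb n ks →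
    ∀ {t : ℕ}, t ≤ n → w + nv * u / al - φ ≤ ow (fn t) → ow (fn t) ≤ w + nv * u / al →
    Bas S (fun J F A => ∀ {Dr M : ℕ} {a : ℝ} {η σ : ℕ → ℝ} {bb : ℕ → ℕ → ℝ} {κ : ℝ}
      {z : ℕ → ℕ → ℕ} {g₀ : ℕ → ℕ → ℕ} {Gc : ℕ → PtT F → ℕ → MvPolynomial (Option (Fin m)) ℝ}
      {H : ℕ → LnT F → ℕ → MvPolynomial (Option (Fin m)) ℝ} {Wm : ℕ}
      {mu : LnT F → ℕ → Polynomial ℝ},
      WinB F c (k + f) D Dr N M C₀ a Eb ηm ow η σ lv bb κ z A g₀ Gc H →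
      RadT nb n M J u ow fb fn z →
      (∀ l < k, CfB F ⌊b * J⌋₊ 1 (c l) A (fun s => s) (fun s => H (fb 0) s l)) →
      (∀ l, k ≤ l → l ≤ k + f → CfB F ⌊w * J⌋₊ 1 (c l) A (fun s => s)
        (fun s => H (fn 0) s l)) →
      Wm ≤ J →
      (∀ ω, A ω → ∀ l, k ≤ l → l < k + f →
        |gnh F c (k + f) (g₀ (fn 0)) (chE Gc k fb fn) (Gc (fn t)) ω l -
          (mcE F Wm Km ⌊ym * u * J⌋₊ mu l ω).eval (rt F Wm ω)| ≤
          2 ^ (A₁ * YP k Km be u φ eK J) / 2 ^ (qE k u φ J + ⌊ξ * u * J⌋₊ - ⌊nv * u * J⌋₊)) →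
      RowH F c k f Km h ξ nv ym b w u φ π₀ δ w₁ fb fn A (g₀ (fn 0)) Gc H Wm mu) := by
  obtain ⟨φ₀, hφ₀, hkey⟩ := row_key D k f Km A₁ (h := h) hal hab hξ hξ1 h1 h2 h4 hδ
  refine ⟨φ₀, hφ₀, ?_⟩
  intro m S c sn sp G b o w u Λ φ e lam X hΛ hφ eK π₀ hK0 hK1 hπ N C₀ Eb ηm ow lv fb fn nb n ks
    w₁ hw₁ hw₂ T t ht hx1 hx2
  have hu := X.u0
  have hφ0 := X.lad.φ0
  obtain ⟨Jd, hJd⟩ := exists_nat_gt (1 / φ)
  refine Bas.mono (Jd + 1) ((hkey X hΛ hφ hK0 hK1 hπ hw₁ hw₂ T ht hx1 hx2).and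
    (pos_bas X.lad.pos)) ?_
  rintro J hJ F A ⟨H1, hA⟩ Dr M a η σ bb κ z g₀ Gc H Wm mu W R hcb hcn hWm hKE B hB hm
  have hPB : 0 < Pe F.p B := lt_of_lt_of_le (mul_pos hπ hA) hm
  have hcl := isLaw_cond F.isLaw hPB
  have h0 := hcl.nonneg
  have hJ0 : (0 : ℝ) ≤ J := Nat.cast_nonneg J
  have hφJ : 1 ≤ φ * J := by
    have a1 : (Jd : ℝ) ≤ J := by
      have : Jd ≤ J := by omega
      exact_mod_cast this
    have a2 : 1 / φ ≤ J := hJd.le.trans a1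
    rw [div_le_iff₀ hφ0] at a2
    linarith
  obtain ⟨n1, n2⟩ := num_le (k := k) hξ.le (by linarith) h4 hu.le hφJ
  have hly : ⌊nv * u * J⌋₊ + (qE k u φ J + ⌊ξ * u * J⌋₊ - ⌊nv * u * J⌋₊) =
      qE k u φ J + ⌊ξ * u * J⌋₊ := by omega
  refine H1 W R hcb hcn hWm (YM := ⌊ym * u * J⌋₊) (mu := mu) hKE B hB hm _
    (NvP F c k f Km ym u φ fb fn (g₀ (fn 0)) Gc Wm mu) (fun _ _ => 0)
    (fun ω => (fvP F c k f nv u fb fn (g₀ (fn 0)) Gc ω,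
        (Vv F c k ⌊w * J⌋₊ (lbE H k fb fn b w)
          (fun l => ((g₀ (fn 0) l + qE k u φ J + ⌊ξ * u * J⌋₊ : ℕ) : ℝ)) ω,
        (mcP F k f Km ym u Wm mu ω, (cR F A w₁ ω, F.W ω)))))
    (fun ω hω => nv_eq hly ω) ?_ ?_ ?_ ?_ ?_ ?_
  · intro ω ν hω hν e
    obtain ⟨-, e1⟩ := Prod.ext_iff.mp e
    obtain ⟨-, e2⟩ := Prod.ext_iff.mp e1
    obtain ⟨e3, e4⟩ := Prod.ext_iff.mp e2
    exact det_mc _ hWm ω ν hω hν (Prod.ext e3 (Prod.ext_iff.mp e4).2)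
  · intro ω ν _ _ _
    rfl
  · intro ω ν _ _ e
    exact (Prod.ext_iff.mp (Prod.ext_iff.mp (Prod.ext_iff.mp (Prod.ext_iff.mp e).2).2).2).2
  · intro ω ν _ _ e
    exact (Prod.ext_iff.mp (Prod.ext_iff.mp e).2).1
  · intro ω ν _ _ e
    exact (Prod.ext_iff.mp (Prod.ext_iff.mp (Prod.ext_iff.mp (Prod.ext_iff.mp e).2).2).2).1
  · refine le_trans (le_of_eq (CH_eq_zero h0 ?_)) (by positivity)
    intro ω ν _ _ e
    exact (Prod.ext_iff.mp e).1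

/-- The rounded zero. -/
theorem rnd_zero (N K : ℕ) : rnd N K 0 = 0 := by
  have h1 : ∀ a : Fin (K + 1), rcd N K 0 a = 0 := fun a => by
    unfold rcd
    rw [Polynomial.coeff_zero, mul_zero, Int.floor_zero]
  unfold rnd
  refine Finset.sum_eq_zero fun a _ => ?_
  rw [h1, Int.cast_zero, zero_div, Polynomial.C_0, zero_mul]

/-- **The row of `N`** over `(1 + ξ) u` digits of the followers, in a box. -/
theorem rowH0_of (D Km k f : ℕ) {al be h ξ ym : ℝ} (hal : 1 + ξ ≤ al) (hab : al ≤ be)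
    (hξ : 0 < ξ) (hξ1 : ξ ≤ 1) {δ : ℝ} (hδ : 0 < δ) : ∃ φ₀ : ℝ, 0 < φ₀ ∧
    ∀ {m : ℕ} {S : PCl m} {c : ℕ → Fin m} {sn sp : ℕ → ℝ → ℝ} {G : Set ℝ} {b o w u Λ φ e : ℝ}
      {lam : ℝ → ℝ}, FBox S c k f sn sp G al be h b o w u Λ φ e lam → 4 ≤ Λ → φ ≤ φ₀ * u →
    ∀ {π₀ : ℝ}, 0 < π₀ →
    ∀ {N : ℕ} {C₀ Eb ηm : ℝ} {ow : ℕ → ℝ} {lv : ℕ → ℕ → ℝ} {fb fn : ℕ → ℕ} {nb n ks : ℕ}
      {w₁ : ℚ}, w ≤ w₁ → (w₁ : ℝ) ≤ 1 →
    WnT k f sn G al b w u Λ φ N C₀ Eb ηm ow lv fb fn nb n ks →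
    Bas S (fun J F A => ∀ {Dr M : ℕ} {a : ℝ} {η σ : ℕ → ℝ} {bb : ℕ → ℕ → ℝ} {κ : ℝ}
      {z : ℕ → ℕ → ℕ} {g₀ : ℕ → ℕ → ℕ} {Gc : ℕ → PtT F → ℕ → MvPolynomial (Option (Fin m)) ℝ}
      {H : ℕ → LnT F → ℕ → MvPolynomial (Option (Fin m)) ℝ} {Wm : ℕ},
      WinB F c (k + f) D Dr N M C₀ a Eb ηm ow η σ lv bb κ z A g₀ Gc H →
      RadT nb n M J u ow fb fn z →
      (∀ l < k, CfB F ⌊b * J⌋₊ 1 (c l) A (fun s => s) (fun s => H (fb 0) s l)) →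
      (∀ l, k ≤ l → l ≤ k + f → CfB F ⌊w * J⌋₊ 1 (c l) A (fun s => s)
        (fun s => H (fn 0) s l)) →
      Wm ≤ J →
      RowH F c k f Km h ξ (1 + ξ) ym b w u φ π₀ δ w₁ fb fn A (g₀ (fn 0)) Gc H Wm
        (fun _ _ => 0)) := by
  have hal1 : 1 ≤ al := by linarith
  have hal0 : 0 < al := by linarith
  have hbe0 : 0 < be := by linarith
  obtain ⟨C, hC, hga⟩ := gnh_all D (k + f)
  obtain ⟨Cf, hCf, hfr⟩ := fbox_frm D k
  obtain ⟨φ₀, hφ₀, hH⟩ := rowH_of D Km k f (C * Cf + 1) (h := h) (nv := 1 + ξ) (ym := ym) hal1 hab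
    hξ hξ1 (by linarith) (mul_le_mul_of_nonneg_left hab (by linarith)) le_rfl hδ
  refine ⟨min φ₀ 1, lt_min hφ₀ one_pos, ?_⟩
  intro m S c sn sp G b o w u Λ φ e lam X hΛ hφ π₀ hπ N C₀ Eb ηm ow lv fb fn nb n ks
    w₁ hw₁ hw₂ T
  have hu := X.u0
  have hφ0 := X.lad.φ0
  have hφu : φ ≤ u := by
    have := mul_le_mul_of_nonneg_right (min_le_right φ₀ 1) hu.le
    linarith
  have hφ := hφ.trans (mul_le_mul_of_nonneg_right (min_le_left φ₀ 1) hu.le)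
  obtain ⟨t, ht, hx1, hx2⟩ := wnt_at T (s := (1 + ξ) * u / al) (by positivity) (by
    rw [div_le_iff₀ hal0]
    have := mul_le_mul_of_nonneg_right hal hu.le
    linarith)
  obtain ⟨Jd, hJd⟩ := exists_nat_gt (((nb : ℝ) + n + 1) / φ + 4 / u)
  refine Bas.mono (Jd + 1) (hH X hΛ hφ (eK := 0) le_rfl hφ₀.le hπ hw₁ hw₂ T ht hx1 hx2) ?_
  rintro J hJ F A H1 Dr M a η σ bb κ z g₀ Gc H Wm W R hcb hcn hWm
  have hJ0 : (0 : ℝ) ≤ J := Nat.cast_nonneg J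
  have hk0 : (0 : ℝ) ≤ k := Nat.cast_nonneg k
  have hnb0 : (0 : ℝ) ≤ nb := Nat.cast_nonneg nb
  have hn0 : (0 : ℝ) ≤ n := Nat.cast_nonneg n
  have hKm0 : (0 : ℝ) ≤ Km := Nat.cast_nonneg Km
  have hJ1 : ((nb : ℝ) + n + 1) / φ + 4 / u ≤ J := by
    have a1 : (Jd : ℝ) ≤ J := by
      have : Jd ≤ J := by omega
      exact_mod_cast this
    exact hJd.le.trans a1
  have hφJ : (nb : ℝ) + n + 1 ≤ φ * J := by
    have a1 : 0 ≤ 4 / u := by positivity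
    have a2 : ((nb : ℝ) + n + 1) / φ ≤ J := by linarith
    rw [div_le_iff₀ hφ0] at a2
    linarith
  have huJ : 4 ≤ u * J := by
    have a1 : 0 ≤ ((nb : ℝ) + n + 1) / φ := by positivity
    have a2 : 4 / u ≤ J := by linarith
    rw [div_le_iff₀ hu] at a2
    linarith
  refine H1 W R hcb hcn hWm (fun ω hω l a1 a2 => ?_)
  obtain ⟨n1, n2⟩ := num_le (k := k) (nv := 1 + ξ) hξ.le (by linarith) le_rfl hu.le
    (by linarith : 1 ≤ φ * J)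
  obtain ⟨E, hE⟩ : ∃ E : ℝ, E = φ * J := ⟨_, rfl⟩
  have hE1 : (nb : ℝ) + n + 1 ≤ E := by rw [hE]; exact hφJ
  obtain ⟨P, hP⟩ : ∃ P : ℝ, P = ((k : ℝ) + 2) * E := ⟨_, rfl⟩
  have hP2 : 0 ≤ P := by
    rw [hP]
    have : 0 ≤ E := by linarith
    positivity
  obtain ⟨Y₀, hY₀⟩ : ∃ Y₀ : ℕ, Y₀ = YP k Km be u φ 0 J := ⟨_, rfl⟩
  have Y1 : be * E + 2000 * P + 4 * E + Km + 8 ≤ Y₀ := by
    have b1 := Nat.le_ceil (((be + 2000 * ((k : ℝ) + 2) + 4) * φ + 0 * u) * J)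
    have b2 : ((be + 2000 * ((k : ℝ) + 2) + 4) * φ + 0 * u) * (J : ℝ) =
        be * E + 2000 * P + 4 * E := by rw [hP, hE]; ring
    rw [b2] at b1
    rw [hY₀]
    unfold YP
    push_cast
    rw [b2]
    linarith
  have hbeE : 0 ≤ be * E := by
    have : 0 ≤ E := by linarith
    positivity
  rw [← hE, ← hP] at n2
  rw [← hY₀]
  have h2R : ∀ n : ℕ, (n : ℝ) ≤ 2 ^ n := fun n => by exact_mod_cast Nat.lt_two_pow_self.le
  have hηJ : C₀ * (ηm * J) ≤ E := by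
    have b1 := mul_le_mul_of_nonneg_right T.C0 hJ0
    have b2 : C₀ * ηm * (J : ℝ) = C₀ * (ηm * J) := by ring
    rw [b2, ← hE] at b1
    exact b1
  have hY3 : (8 : ℝ) ≤ Y₀ := by linarith
  have hY3' : 8 ≤ Y₀ := by exact_mod_cast hY3
  obtain ⟨κ', hF⟩ := hfr X (by linarith) T W R (Y := Y₀) (by linarith) (by omega) (by
    refine le_trans ?_ (h2R Y₀)
    linarith) (by
    rw [← hE]
    linarith)
  obtain ⟨Y, hY⟩ : ∃ Y : ℕ, Y = Cf * Y₀ := ⟨_, rfl⟩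
  have hYY : Y₀ ≤ Y := by
    rw [hY]
    exact Nat.le_mul_of_pos_left _ (by omega)
  have hYYR : (Y₀ : ℝ) ≤ Y := by exact_mod_cast hYY
  rw [← hY] at hF
  obtain ⟨jj, V⟩ := fbox_wds X (by linarith) hφu T R (Y := Y) (by
    refine le_trans ?_ (h2R Y)
    linarith) (by
    rw [← hE]
    have : (be + 4) * E = be * E + 4 * E := by ring
    rw [this]
    linarith)
  have V := V.le ht
  have hxJ : ∀ s : ℝ, s * ((ow (fn t) - ow (fn 0)) * J) = s * (ow (fn t) - w) * J := fun s => by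
    rw [T.ow0]
    ring
  have hxw : w ≤ ow (fn t) := (wnt_0 T ht).1
  have hxa : al * (ow (fn t) - w) * J ≤ (1 + ξ) * u * J := by
    refine mul_le_mul_of_nonneg_right ?_ hJ0
    have b1 := mul_le_mul_of_nonneg_left hx2 hal0.le
    have b2 : al * (w + (1 + ξ) * u / al) = al * w + (1 + ξ) * u := by field_simp
    linarith
  have hl2 : (1 + ξ) * u * J < (⌊(1 + ξ) * u * J⌋₊ : ℝ) + 1 := Nat.lt_floor_add_one _
  have hl4 : 2 ≤ ⌊(1 + ξ) * u * J⌋₊ := by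
    refine Nat.le_floor ?_
    have b1 : 0 ≤ ξ * (u * J) := by positivity
    have b2 : (1 + ξ) * u * (J : ℝ) = u * J + ξ * (u * J) := by ring
    rw [b2]
    push_cast
    linarith
  have hz1 : 0 ≤ al * (ow (fn t) - w) * J := by
    have : 0 ≤ ow (fn t) - w := by linarith
    positivity
  have hz2 : 0 ≤ (be - al) * (ow (fn t) - w) * J :=
    mul_nonneg (mul_nonneg (by linarith) (by linarith)) hJ0
  obtain ⟨g1, -⟩ := hga W (G' := chE Gc k fb fn) (κ' := κ') (f := fn) (jj := jj) (n := t) (ks := t)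
    (k := k) (i := k + f) (q := ⌊(1 + ξ) * u * J⌋₊) (X := 0) (Y := Y) (s := al) (σ' := be) hF
    X.lad.inj le_rfl (Nat.le_add_right k f) V (by linarith) (by omega) le_rfl hl4 (by
      rw [hxJ]
      linarith) (by
      rw [hxJ]
      push_cast
      linarith) (by
      rw [hxJ]
      push_cast
      linarith)
  have g2 := g1 ω hω l a2
  have e0 : (mcE F Wm Km ⌊ym * u * J⌋₊ (fun _ _ => 0) l ω).eval (rt F Wm ω) = 0 := by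
    unfold mcE
    rw [rnd_zero, Polynomial.eval_zero]
  rw [e0, sub_zero, le_div_iff₀ (by positivity)]
  have hy : qE k u φ J + ⌊ξ * u * J⌋₊ - ⌊(1 + ξ) * u * J⌋₊ ≤ Y₀ := by
    have b1 : ((qE k u φ J + ⌊ξ * u * J⌋₊ - ⌊(1 + ξ) * u * J⌋₊ : ℕ) : ℝ) ≤ Y₀ := by
      have b2 : (1 + ξ - (1 + ξ)) * (u * J) = 0 := by ring
      rw [b2] at n2
      linarith
    exact_mod_cast b1
  calc _ ≤ (2 : ℝ) ^ (C * Y) * 2 ^ Y₀ := mul_le_mul g2 (pow_le_pow_right₀ (by norm_num) hy)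
        (by positivity) (by positivity)
    _ = 2 ^ ((C * Cf + 1) * Y₀) := by
        rw [← pow_add, hY]
        congr 1
        ring

/-- **The row of the target** as an input of the class theorem. -/
theorem rowP_cls (k f : ℕ) {al be h ξ ns ym : ℝ} (hξ : 0 < ξ) (hξ1 : ξ ≤ 1) (h1 : 1 + ξ ≤ 2 * ns)
    (h2 : (1 + ξ) * al ≤ ns * be) (h3 : ns ≤ al) (h4 : ns ≤ 1 + ξ) (h5 : 1 + ξ ≤ ns + ym)
    (Fd : ∀ m : ℕ, ℝ → ℝ → Evp m) :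
    ClsX k f al be h Fd (fun m Hp x => KInP k f al be Hp (RowP k f h ξ ns ym) x) := by
  by_cases hab : 1 ≤ al ∧ al ≤ be
  swap
  · intro D hD
    refine ⟨0, fun Km _ pm δ _ _ => ⟨0, 1, 0, one_pos, fun T _ => ⟨1, one_pos, fun eK _ _ =>
      ⟨1, 1, 0, le_rfl, one_pos, fun φ _ _ => ⟨1, one_pos, ?_⟩⟩⟩⟩⟩
    intro m S c sn sp Gs b o w u e lam w₁ X
    exact absurd ⟨X.al1, X.alb⟩ hab
  obtain ⟨hal, hab⟩ := hab
  intro D hD
  refine ⟨0, fun Km _ pm δ hpm hδ => ⟨0, 1, 0, one_pos, fun T _ => ?_⟩⟩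
  obtain ⟨φ₀, hφ₀, hrow⟩ := rowE_of D (D + 1) Km k f (h := h) (le_refl _) hal hab hξ hξ1 h1 h2 h3
    h4 h5 hδ
  refine ⟨φ₀, hφ₀, fun eK hK0 hK1 => ⟨4, min φ₀ 1, 0, by norm_num, lt_min hφ₀ one_pos,
    fun φ hφ0 hφ1 => ⟨1, one_pos, ?_⟩⟩⟩
  intro m S c sn sp Gs b o w u e lam w₁ X he0 he1 hw₁ hw₂ y hy
  have hu := X.u0
  have hw3 : (w₁ : ℝ) ≤ 1 := by
    have a1 := X.wo
    have a2 := X.o1
    have a3 := mul_le_mul_of_nonneg_right (hφ1.trans (min_le_right φ₀ 1)) hu.le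
    linarith
  have hφ1 := hφ1.trans (min_le_left φ₀ 1)
  refine ⟨1, 1, one_pos, one_pos, fun p₁ hp₁ => ⟨1, one_pos, ?_⟩⟩
  have hT : WnT k f sn Gs al b w u 4 (φ * u) y.N y.C₀ y.Eb y.ηm y.ow y.lv y.fb y.fn y.nb y.n
    y.ks := hy.2
  refine (bas_prt (hrow X le_rfl (mul_le_mul_of_nonneg_right hφ1 hu.le) hK0.le hK1 hpm hw₁ hw3 hT)
    hp₁).mono 0 ?_
  rintro J - F A H1 κ z g₀ Gc H Wm mu hκ hW hH hK
  refine ⟨A, fun _ h => h, by rw [one_mul], fun B hB hP => ?_⟩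
  have hW' := hW.sub (κ' := |κ| / p₁) (by positivity) hB hP (by
    rw [div_mul_cancel₀ _ hp₁.ne']
    exact le_abs_self κ)
  exact H1 B hB hP hW'.win hW'.rad hW'.cfb hW'.cfn (hK.sub hB)

end Pool.RWE19
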